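import Pool.Agent.H667R5.NX.NU.Defs
import Pool.Agent.H327R4.SI.Stubs

/-!
# Non-unital Toms-Winter, part II: property (SI) for the ideal `D`
-/

set_option autoImplicit false

namespace Pool.Agent.H270R2.NU

open Filter Topology Pool.Agent.H327R4.Pure
open Pool.Agent.H667R5.TW (tr NuclearC)
open Pool.Agent.H327R4.SI (RI Ex Dc IsSt CPto CPF CPAP StRIB StX1 StX2 StX3 StQC StFCOM)

universe u

/-- many orthogonal elements in a right ideal of `D` -/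
def StORTD : Prop := ∀ (B : Type u) [CStarAlgebra B] [PartialOrder B] [StarOrderedRing B]
  (D : Set B), Core0 B D → ∀ (b : B) (R : ℕ), b ∈ D → 0 ≤ b → b ≠ 0 →
    ∃ c : Fin R → B, (∀ i, 0 ≤ c i ∧ ‖c i‖ = 1 ∧ c i ∈ RI b) ∧ ∀ i j, i ≠ j → c i * c j = 0

/-- decoupling of two right ideals -/
def StX4D : Prop := ∀ (B : Type u) [CStarAlgebra B] [PartialOrder B] [StarOrderedRing B]
  (D : Set B), Core0 B D → ∀ (a b : B) (k : ℕ) (y : Fin k → B) (ε : ℝ),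
    a ∈ D → 0 ≤ a → a ≠ 0 → b ∈ D → 0 ≤ b → b ≠ 0 → 0 < ε →
    ∃ a' b' : B, 0 ≤ a' ∧ a' ≠ 0 ∧ a' ∈ RI a ∧ 0 ≤ b' ∧ b' ≠ 0 ∧ b' ∈ RI b ∧
      ∀ i, Dc ε a' b' (y i)

/-- decoupling of several right ideals -/
def StX5D : Prop := ∀ (B : Type u) [CStarAlgebra B] [PartialOrder B] [StarOrderedRing B]
  (D : Set B), Core0 B D → ∀ (n k : ℕ) (a : Fin n → B) (y : Fin k → B) (ε : ℝ),
    (∀ m, a m ∈ D ∧ 0 ≤ a m ∧ a m ≠ 0) → 0 < ε →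
    ∃ a' : Fin n → B, (∀ m, 0 ≤ a' m ∧ a' m ≠ 0 ∧ a' m ∈ RI (a m)) ∧
      ∀ m m', m ≠ m' → ∀ i, Dc ε (a' m) (a' m') (y i)

/-- a common source -/
def StX6D : Prop := ∀ (B : Type u) [CStarAlgebra B] [PartialOrder B] [StarOrderedRing B]
  (D : Set B), Core0 B D → ∀ (n : ℕ) (a : Fin n → B), (∀ m, a m ∈ D ∧ 0 ≤ a m ∧ a m ≠ 0) →
    ∃ (g : B) (x : Fin n → B), g ∈ D ∧ 0 ≤ g ∧ ‖g‖ = 1 ∧ ∀ m, x m ∈ RI (a m) ∧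
      star (x m) * x m = g

/-- excision of an arbitrary state inside `D` -/
def StX7D : Prop := ∀ (B : Type u) [CStarAlgebra B] [PartialOrder B] [StarOrderedRing B]
  (D : Set B), Core0 B D → ∀ (Ψ : B →ₗ[ℂ] ℂ) (k : ℕ) (y : Fin k → B) (ε : ℝ),
    IsSt Ψ → 0 < ε → ∃ H g : B, H ∈ D ∧ g ∈ D ∧ 0 ≤ g ∧ ‖g‖ = 1 ∧
      ∀ i, ‖star H * y i * H - Ψ (y i) • g‖ ≤ ε

/-- matrix algebras -/
def StX8D : Prop := ∀ (E : Type u) [CStarAlgebra E] [PartialOrder E] [StarOrderedRing E]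
  (D : Set E), Core0 E D → ∀ N : ℕ, 1 ≤ N → Core0 (MM N E) {M | ∀ i j, M i j ∈ D}

/-- excision of completely positive maps inside `D` -/
def StGLD : Prop := ∀ (E : Type u) [CStarAlgebra E] [PartialOrder E] [StarOrderedRing E]
  (D : Set E), Core0 E D →
    ∀ (N : ℕ) (ρ : E →ₗ[ℂ] Matrix (Fin N) (Fin N) ℂ) (k : ℕ) (y : Fin k → E) (ε : ℝ),
    CPto ρ → 0 < ε → ∃ (d : Fin N → E) (g : E), (∀ p, d p ∈ D) ∧ g ∈ D ∧ 0 ≤ g ∧ ‖g‖ = 1 ∧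
      ∀ i p q, ‖star (d p) * y i * d q - ρ (y i) p q • g‖ ≤ ε

/-- lower bounds for `h f^(2K) h` -/
def StLBD : Prop := ∀ (E : Type u) [CStarAlgebra E] [PartialOrder E] [StarOrderedRing E]
  (D : Set E), Core E D → ∀ (h a : E) (κ : ℝ), h ∈ D → 0 ≤ h → h ≠ 0 → a ∈ D → 0 ≤ a → a ≤ 1 →
    0 < κ → ∃ (k : ℕ) (y : Fin k → E) (η : ℝ), (∀ j, y j ∈ D) ∧ 0 < η ∧
    ∀ K : ℕ, ∃ δ : ℝ, 0 < δ ∧ ∀ f : E, 0 ≤ f → f ≤ 1 → (∀ j, ‖f * y j - y j * f‖ ≤ δ) →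
      ∀ T : TS E, κ ≤ tr T (a * f ^ (2 * K) * a) → η ≤ tr T (h * f ^ (2 * K) * h)

/-- rows in a right ideal from strict comparison -/
def StROWSD : Prop := ∀ (E : Type u) [CStarAlgebra E] [PartialOrder E] [StarOrderedRing E]
  (D : Set E), Core0 E D → SCD E D → ∀ (L : ℕ) (e b : E) (ε : ℝ), e ∈ D → 0 ≤ e → b ∈ D →
    0 ≤ b → b ≠ 0 → 0 < ε → (∀ T : TS E, NV D T → (L : ℝ) * rk T.1 e < rk T.1 b) →
    ∃ w : Fin L → E, (∀ l l', star (w l) * w l' = if l = l' then cut ε e else 0) ∧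
      ∀ l, w l ∈ RI b

/-- one excising row -/
def StSIRD : Prop := ∀ (E : Type u) [CStarAlgebra E] [PartialOrder E] [StarOrderedRing E]
  (D : Set E), Core E D → SCD E D → (∃ T : TS E, NV D T) →
    ∀ (g a : E) (κ : ℝ) (L : ℕ) (ε : ℝ), g ∈ D → 0 ≤ g → ‖g‖ = 1 → a ∈ D → 0 ≤ a → a ≤ 1 →
    0 < κ → 0 < ε → ∃ (k : ℕ) (y : Fin k → E) (K : ℕ) (δ : ℝ), 0 < δ ∧ (∀ j, y j ∈ D) ∧
    ∀ e f : E, e ∈ D → 0 ≤ e → e ≤ 1 → 0 ≤ f → f ≤ 1 → (∀ j, ‖f * y j - y j * f‖ ≤ δ) →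
      (∀ T : TS E, N1 D T → tr T e ≤ δ ∧ κ ≤ tr T (a * f ^ K * a)) →
      ∃ r : Fin L → E, (∀ l, r l ∈ D ∧ ‖r l‖ ≤ 2) ∧ (∀ l, ‖f * r l - r l‖ ≤ ε) ∧
        ∀ l l', star (r l) * g * r l' = if l = l' then cut ε e else 0

/-- property (SI) for `D` -/
def SIP2 (E : Type u) [CStarAlgebra E] [PartialOrder E] [StarOrderedRing E] (D : Set E) : Prop :=
  ∀ (m : ℕ) (x : Fin m → E) (a : E) (κ ε : ℝ), (∀ j, x j ∈ D) → a ∈ D → 0 ≤ a → a ≤ 1 →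
    0 < κ → 0 < ε →
    ∃ (b G : E) (k : ℕ) (y : Fin k → E) (K : ℕ) (δ : ℝ), b ∈ D ∧ 0 ≤ b ∧ b ≤ 1 ∧ G ∈ D ∧
      0 ≤ G ∧ G ≤ 1 ∧ 0 < δ ∧ (∀ j, y j ∈ D) ∧ (∀ j, ‖b * x j - x j‖ ≤ ε ∧ ‖x j * b - x j‖ ≤ ε) ∧
      ∀ e f : E, 0 ≤ e → e ≤ 1 → 0 ≤ f → f ≤ 1 →
        (∀ j, ‖e * y j - y j * e‖ ≤ δ ∧ ‖f * y j - y j * f‖ ≤ δ) →
        (∀ T : TS E, N1 D T → tr T (G * e * G) ≤ δ ∧ κ ≤ tr T (a * f ^ K * a)) →
        ∃ s : E, s ∈ D ∧ ‖star s * s - b * e * b‖ ≤ ε ∧ ‖f * s - s‖ ≤ ε ∧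
          ∀ j, ‖s * x j - x j * s‖ ≤ ε

def StSID : Prop := ∀ (E : Type u) [CStarAlgebra E] [PartialOrder E] [StarOrderedRing E]
  (D : Set E), Core E D → SCD E D → CPF E → (∃ T : TS E, NV D T) → SIP2 E D

/-- approximately central `2 × 2` matrix units in the operator norm, with a leftover `e` which is
small in trace, seen by the weights `w` -/
def MCND (E : Type u) [CStarAlgebra E] [PartialOrder E] [StarOrderedRing E] (D : Set E) : Prop :=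
  ∀ (m p : ℕ) (x : Fin m → E) (w : Fin p → E) (K : ℕ) (ε : ℝ), (∀ j, x j ∈ D) →
    (∀ i, w i ∈ D ∧ 0 ≤ w i ∧ w i ≤ 1) → 0 < ε →
    ∃ c₁ c₂ e : E, 0 ≤ c₁ ∧ c₁ ≤ 1 ∧ ‖c₂‖ ≤ 1 ∧ 0 ≤ e ∧ e ≤ 1 ∧ c₂ * star c₂ = c₁ * c₁ ∧
      c₁ * c₁ + star c₂ * c₂ + e = 1 ∧ (∀ i, ‖c₁ * star c₂ * w i‖ ≤ ε) ∧
      (∀ j, ‖c₁ * x j - x j * c₁‖ ≤ ε ∧ ‖c₂ * x j - x j * c₂‖ ≤ ε ∧ ‖e * x j - x j * e‖ ≤ ε) ∧
      ∀ (T : TS E) (i : Fin p), tr T (w i * e * w i) ≤ ε ∧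
        tr T (w i * w i) / 2 - ε ≤ tr T (w i * c₁ ^ K * w i)

def StLIFTD : Prop := ∀ (E : Type u) [CStarAlgebra E] [PartialOrder E] [StarOrderedRing E]
  (D : Set E), Core0 E D → UMD E D → MCND E D

def StFIND : Prop := ∀ (E : Type u) [CStarAlgebra E] [PartialOrder E] [StarOrderedRing E]
  (D : Set E), Core E D → MCND E D → SIP2 E D → (∃ T : TS E, NV D T) → ZSD E D

theorem partII (h1 : StLIFTD.{u}) (h2 : StSID.{u}) (h3 : StFIND.{u}) :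
    ∀ (E : Type u) [CStarAlgebra E] [PartialOrder E] [StarOrderedRing E] (D : Set E),
      Core E D → SCD E D → CPF E → UMD E D → (∃ T : TS E, NV D T) → ZSD E D := by
  intro E _ _ _ D hC hS hn hu hT
  exact h3 E D hC (h1 E D hC.toCore0 hu) (h2 E D hC hS hn hT) hT

end Pool.Agent.H270R2.NU
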