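import Pool.Agent.H667R5.NX.NU.StubsI
import Pool.Agent.H667R5.NX.NU.StubsII
import Pool.Agent.H327R4.SI.TSI

/-!
# Non-unital Toms-Winter, part II, task SID: property (SI) for the ideal `D`
-/

set_option autoImplicit false

namespace Pool.Agent.H270R2.NU

open Filter Topology Pool.Agent.H327R4.Pure
open Pool.Agent.H667R5.TW (tr NuclearC)
open Pool.Agent.H327R4.SI (RI Ex Dc IsSt CPto CPF CPAP StRIB StX1 StX2 StX3 StQC StFCOM SI_cut SI_s
  SI_step1 SI_step2 SI_f)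

universe u

namespace SID

section alg

variable {A : Type u} [CStarAlgebra A]

theorem step3 {N L : ℕ} (c : Fin L → Fin N → A) (k e1 e : A) (ρ : Fin N → Fin N → ℂ)
    (ε δ : ℝ) (hk : ‖k - e1‖ ≤ ε) (he : ∀ l p, ‖e1 * c l p - c l p * e‖ ≤ δ) (hδ : 0 ≤ δ) :
    ‖∑ l, ∑ p, ∑ q, ρ p q • (star (c l p) * k * c l q) -
      (∑ l, ∑ p, ∑ q, ρ p q • (star (c l p) * c l q)) * e‖ ≤
    ε * (∑ l, ∑ p, ∑ q, ‖ρ p q‖ * ‖c l p‖ * ‖c l q‖) +
      δ * (∑ l, ∑ p, ∑ q : Fin N, ‖ρ p q‖ * ‖c l p‖) := by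
  simp only [Finset.sum_mul, Finset.mul_sum, ← Finset.sum_sub_distrib, ← Finset.sum_add_distrib]
  refine (norm_sum_le _ _).trans (Finset.sum_le_sum fun l _ => ?_)
  refine (norm_sum_le _ _).trans (Finset.sum_le_sum fun p _ => ?_)
  refine (norm_sum_le _ _).trans (Finset.sum_le_sum fun q _ => ?_)
  have h1 : ρ p q • (star (c l p) * k * c l q) - ρ p q • (star (c l p) * c l q) * e =
      ρ p q • (star (c l p) * ((k - e1) * c l q + (e1 * c l q - c l q * e))) := by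
    rw [smul_mul_assoc, ← smul_sub]
    congr 1
    simp only [mul_add, mul_sub, sub_mul, mul_assoc]
    abel
  rw [h1, norm_smul]
  have hε : 0 ≤ ε := (norm_nonneg _).trans hk
  calc ‖ρ p q‖ * ‖star (c l p) * ((k - e1) * c l q + (e1 * c l q - c l q * e))‖
      ≤ ‖ρ p q‖ * (‖c l p‖ * (ε * ‖c l q‖ + δ)) := by
        gcongr
        refine (norm_mul_le _ _).trans ?_
        rw [norm_star]
        gcongr
        refine (norm_add_le _ _).trans ?_
        gcongr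
        · refine (norm_mul_le _ _).trans ?_
          gcongr
        · exact he l q
    _ = ε * (‖ρ p q‖ * ‖c l p‖ * ‖c l q‖) + δ * (‖ρ p q‖ * ‖c l p‖) := by ring

theorem mul3 (a b c : A) (α β γ : ℝ) (ha : ‖a‖ ≤ α) (hb : ‖b‖ ≤ β) (hc : ‖c‖ ≤ γ) :
    ‖a * b * c‖ ≤ α * β * γ := by
  have hα : 0 ≤ α := (norm_nonneg _).trans ha
  have hβ : 0 ≤ β := (norm_nonneg _).trans hb
  calc ‖a * b * c‖ ≤ ‖a * b‖ * ‖c‖ := norm_mul_le _ _
    _ ≤ ‖a‖ * ‖b‖ * ‖c‖ := mul_le_mul_of_nonneg_right (norm_mul_le _ _) (norm_nonneg _)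
    _ ≤ α * β * γ := mul_le_mul (mul_le_mul ha hb (norm_nonneg _) hα) hc (norm_nonneg _)
        (mul_nonneg hα hβ)

theorem mul2 (a b : A) (α β : ℝ) (ha : ‖a‖ ≤ α) (hb : ‖b‖ ≤ β) : ‖a * b‖ ≤ α * β :=
  (norm_mul_le _ _).trans (mul_le_mul ha hb (norm_nonneg _) ((norm_nonneg _).trans ha))

/-- the commutator -/
theorem comm (s x e b : A) (η δ εb : ℝ) (h1 : ‖star s * 1 * s - b * 1 * b * e‖ ≤ η)
    (h2 : ‖star s * x * s - b * x * b * e‖ ≤ η)
    (h3 : ‖star s * star x * s - b * star x * b * e‖ ≤ η)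
    (h4 : ‖star s * (star x * x) * s - b * (star x * x) * b * e‖ ≤ η) (hb : star b = b)
    (hb1 : ‖b‖ ≤ 1) (he1 : ‖e‖ ≤ 1) (hex : ‖e * x - x * e‖ ≤ δ) (hbx : ‖b * x - x‖ ≤ εb)
    (hxb : ‖x * b - x‖ ≤ εb) :
    ‖s * x - x * s‖ ^ 2 ≤ η * (1 + ‖x‖) ^ 2 + 2 * (‖x‖ * δ) + 4 * εb ^ 2 := by
  have hη : 0 ≤ η := (norm_nonneg _).trans h1
  have hδ : 0 ≤ δ := (norm_nonneg _).trans hex
  have hεb : 0 ≤ εb := (norm_nonneg _).trans hbx
  rw [pow_two, ← CStarRing.norm_star_mul_self]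
  have key : star (s * x - x * s) * (s * x - x * s) =
      (star x * (star s * 1 * s - b * 1 * b * e) * x - star x * (star s * x * s - b * x * b * e) -
        (star s * star x * s - b * star x * b * e) * x +
        (star s * (star x * x) * s - b * (star x * x) * b * e)) +
      (star x * (b * b) * (e * x - x * e) - b * star x * b * (e * x - x * e)) +
        star (b * x - x * b) * (b * x - x * b) * e := by
    simp only [star_sub, star_mul, mul_sub, sub_mul, mul_one, hb, mul_assoc]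
    abel
  rw [key]
  have hsx : ‖star x‖ ≤ ‖x‖ := (norm_star x).le
  have e1 := mul3 (star x) (star s * 1 * s - b * 1 * b * e) x ‖x‖ η ‖x‖ hsx h1 le_rfl
  have e2 := mul2 (star x) (star s * x * s - b * x * b * e) ‖x‖ η hsx h2
  have e3 := mul2 (star s * star x * s - b * star x * b * e) x η ‖x‖ h3 le_rfl
  have e5 : ‖star x * (b * b) * (e * x - x * e)‖ ≤ ‖x‖ * (1 * 1) * δ :=
    mul3 _ _ _ _ _ _ hsx (mul2 b b 1 1 hb1 hb1) hex
  have e6 : ‖b * star x * b * (e * x - x * e)‖ ≤ (1 * ‖x‖ * 1) * δ :=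
    mul2 _ _ _ _ (mul3 b (star x) b 1 ‖x‖ 1 hb1 hsx hb1) hex
  have e7 : ‖b * x - x * b‖ ≤ 2 * εb := by
    have : b * x - x * b = (b * x - x) - (x * b - x) := by abel
    rw [this]
    refine (norm_sub_le _ _).trans ?_
    linarith
  have e8 : ‖star (b * x - x * b) * (b * x - x * b) * e‖ ≤ (2 * εb) * (2 * εb) * 1 :=
    mul3 _ _ _ _ _ _ (by rw [norm_star]; exact e7) e7 he1
  calc _ ≤ ‖(star x * (star s * 1 * s - b * 1 * b * e) * x -
        star x * (star s * x * s - b * x * b * e) -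
        (star s * star x * s - b * star x * b * e) * x +
        (star s * (star x * x) * s - b * (star x * x) * b * e))‖ +
      ‖(star x * (b * b) * (e * x - x * e) - b * star x * b * (e * x - x * e))‖ +
        ‖star (b * x - x * b) * (b * x - x * b) * e‖ :=
        (norm_add_le _ _).trans (add_le_add_left (norm_add_le _ _) _)
    _ ≤ (((‖x‖ * η * ‖x‖ + ‖x‖ * η) + η * ‖x‖) + η) + (‖x‖ * (1 * 1) * δ + (1 * ‖x‖ * 1) * δ) +
        (2 * εb) * (2 * εb) * 1 := by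
        refine add_le_add (add_le_add ?_ ((norm_sub_le _ _).trans (add_le_add e5 e6))) e8
        refine (norm_add_le _ _).trans (add_le_add ?_ h4)
        refine (norm_sub_le _ _).trans (add_le_add ?_ e3)
        exact (norm_sub_le _ _).trans (add_le_add e1 e2)
    _ = _ := by ring

end alg

section ideal

variable {E : Type u} [CStarAlgebra E] [PartialOrder E] [StarOrderedRing E] {D : Set E}

theorem sum_mem (hD : Core0 E D) {ι : Type*} (s : Finset ι) (F : ι → E) (h : ∀ i ∈ s, F i ∈ D) :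
    ∑ i ∈ s, F i ∈ D := by
  classical
  induction s using Finset.induction_on with
  | empty => rw [Finset.sum_empty]; exact hD.zero
  | insert i s hi ih =>
    rw [Finset.sum_insert hi]
    exact hD.add _ _ (h i (Finset.mem_insert_self i s))
      (ih fun j hj => h j (Finset.mem_insert_of_mem hj))

theorem sq_le {g : E} (h0 : 0 ≤ g) (h1 : g ≤ 1) : 0 ≤ g * g ∧ g * g ≤ 1 := by
  have hsa : star g = g := (IsSelfAdjoint.of_nonneg h0).star_eq
  have hn : ‖g‖ ≤ 1 := (CStarAlgebra.norm_le_one_iff_of_nonneg g h0).2 h1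
  have hp : 0 ≤ g * g := by
    have := star_mul_self_nonneg g
    rwa [hsa] at this
  refine ⟨hp, ?_⟩
  refine (CStarAlgebra.norm_le_one_iff_of_nonneg (g * g) hp).1 ?_
  exact (mul2 g g 1 1 hn hn).trans (by norm_num)

theorem conj_le {G e : E} (h0 : 0 ≤ G) (h1 : G ≤ 1) (he0 : 0 ≤ e) (he1 : e ≤ 1) :
    0 ≤ G * e * G ∧ G * e * G ≤ 1 := by
  have hsa : star G = G := (IsSelfAdjoint.of_nonneg h0).star_eq
  have hn : ‖G‖ ≤ 1 := (CStarAlgebra.norm_le_one_iff_of_nonneg G h0).2 h1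
  have hne : ‖e‖ ≤ 1 := (CStarAlgebra.norm_le_one_iff_of_nonneg e he0).2 he1
  have hp : 0 ≤ G * e * G := by
    have := star_left_conjugate_nonneg he0 G
    rwa [hsa] at this
  refine ⟨hp, ?_⟩
  refine (CStarAlgebra.norm_le_one_iff_of_nonneg _ hp).1 ?_
  exact (mul3 G e G 1 1 1 hn hne hn).trans (by norm_num)

end ideal

end SID

open SID in
theorem t_SID (hAUD : StAUD.{u}) (hGLD : StGLD.{u}) (hSIRD : StSIRD.{u}) : StSID.{u} := by
  intro E _ _ _ D hD hsc hcpf hnv m x a κ ε hx ha ha0 ha1 hκ hε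
  classical
  -- the finite set
  obtain ⟨zl, hzl⟩ : ∃ zl : List E, zl = 1 :: (List.ofFn x ++ List.ofFn (fun j => star (x j)) ++
    List.ofFn (fun j => star (x j) * x j)) := ⟨_, rfl⟩
  have hz1 : (1 : E) ∈ zl := by rw [hzl]; exact List.mem_cons_self
  have hza : ∀ j, x j ∈ zl := by
    intro j
    rw [hzl]
    apply List.mem_cons_of_mem
    rw [List.mem_append, List.mem_append]
    left; left
    rw [List.mem_ofFn]
    exact ⟨j, rfl⟩
  have hzs : ∀ j, star (x j) ∈ zl := by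
    intro j
    rw [hzl]
    apply List.mem_cons_of_mem
    rw [List.mem_append, List.mem_append]
    left; right
    rw [List.mem_ofFn]
    exact ⟨j, rfl⟩
  have hzq : ∀ j, star (x j) * x j ∈ zl := by
    intro j
    rw [hzl]
    apply List.mem_cons_of_mem
    rw [List.mem_append]
    right
    rw [List.mem_ofFn]
    exact ⟨j, rfl⟩
  -- constants
  obtain ⟨Am, hAm⟩ : ∃ Am : ℝ, Am = ∑ j, ‖x j‖ := ⟨_, rfl⟩
  have hAm0 : 0 ≤ Am := by rw [hAm]; exact Finset.sum_nonneg fun j _ => norm_nonneg _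
  have haAm : ∀ j, ‖x j‖ ≤ Am := by
    intro j
    rw [hAm]
    exact Finset.single_le_sum (f := fun j => ‖x j‖) (fun j _ => norm_nonneg _) (Finset.mem_univ j)
  -- the approximate unit b
  obtain ⟨g0, hg0D, hg00, hg01, hg0x⟩ := hAUD E D hD.toCore0 (Finset.univ.image x) (ε / 4)
    (fun y hy => by
      obtain ⟨j, -, rfl⟩ := Finset.mem_image.1 hy
      exact hx j) (by positivity)
  obtain ⟨b, hb⟩ : ∃ b : E, b = g0 * g0 := ⟨_, rfl⟩
  have hbD : b ∈ D := by rw [hb]; exact hD.toCore0.mul_left _ _ hg0D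
  have hb0 : 0 ≤ b := by rw [hb]; exact (sq_le hg00 hg01).1
  have hb1 : b ≤ 1 := by rw [hb]; exact (sq_le hg00 hg01).2
  have hbsa : star b = b := (IsSelfAdjoint.of_nonneg hb0).star_eq
  have hbn : ‖b‖ ≤ 1 := (CStarAlgebra.norm_le_one_iff_of_nonneg b hb0).2 hb1
  have hbx : ∀ j, ‖b * x j - x j‖ ≤ ε / 4 ∧ ‖x j * b - x j‖ ≤ ε / 4 := by
    intro j
    have h1 := hg0x (x j) (Finset.mem_image_of_mem x (Finset.mem_univ j))
    rw [← hb] at h1
    have e1 : b * x j - x j = -((1 - b) * x j) := by noncomm_ring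
    have e2 : x j * b - x j = -(x j * (1 - b)) := by noncomm_ring
    rw [e1, e2, norm_neg, norm_neg]
    exact ⟨h1.2, h1.1⟩
  -- eta
  obtain ⟨η, hη⟩ : ∃ η : ℝ, η = min (ε / 2) (ε ^ 2 / 4 / (1 + Am) ^ 2) := ⟨_, rfl⟩
  have hη0 : 0 < η := by rw [hη]; exact lt_min (by positivity) (by positivity)
  have hηε : η ≤ ε / 2 := by rw [hη]; exact min_le_left _ _
  have hηε2 : η * (1 + Am) ^ 2 ≤ ε ^ 2 / 4 := by
    have : η ≤ ε ^ 2 / 4 / (1 + Am) ^ 2 := by rw [hη]; exact min_le_right _ _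
    rwa [le_div_iff₀ (by positivity)] at this
  obtain ⟨N, L, ρ, c₀, hρ, hρc₀⟩ := hcpf zl.length zl.get (η / 4) (by positivity)
  -- the elements of D
  obtain ⟨c, hc⟩ : ∃ c : Fin L → Fin N → E, c = fun l p => c₀ l p * b := ⟨_, rfl⟩
  have hcD : ∀ l p, c l p ∈ D := by
    intro l p
    rw [hc]
    exact hD.toCore0.mul_left _ _ hbD
  have hρc : ∀ j, ‖∑ l, ∑ p, ∑ q, ρ (zl.get j) p q • (star (c l p) * c l q) -
      b * zl.get j * b‖ ≤ η / 4 := by
    intro j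
    have e1 : ∑ l, ∑ p, ∑ q, ρ (zl.get j) p q • (star (c l p) * c l q) - b * zl.get j * b =
        b * (∑ l, ∑ p, ∑ q, ρ (zl.get j) p q • (star (c₀ l p) * c₀ l q) - zl.get j) * b := by
      rw [mul_sub, sub_mul]
      congr 1
      simp only [Finset.mul_sum, Finset.sum_mul]
      refine Finset.sum_congr rfl fun l _ => Finset.sum_congr rfl fun p _ =>
        Finset.sum_congr rfl fun q _ => ?_
      rw [hc]
      simp only [star_mul, hbsa, mul_smul_comm, smul_mul_assoc, mul_assoc]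
    rw [e1]
    refine (mul3 b _ b 1 (η / 4) 1 hbn (hρc₀ j) hbn).trans (le_of_eq (by ring))
  obtain ⟨S, hS⟩ : ∃ S : ℝ, S = ∑ x : Fin L × Fin N, ‖c x.1 x.2‖ := ⟨_, rfl⟩
  have hS0 : 0 ≤ S := by rw [hS]; exact Finset.sum_nonneg fun j _ => norm_nonneg _
  obtain ⟨ε₂, hε₂⟩ : ∃ ε₂ : ℝ, ε₂ = η / (4 * (4 * S ^ 2 + 1)) := ⟨_, rfl⟩
  have hε₂0 : 0 < ε₂ := by rw [hε₂]; positivity
  obtain ⟨d, g, hdD, hgD, hg0', hg1, hd⟩ := hGLD E D hD.toCore0 N ρ zl.length zl.get ε₂ hρ hε₂0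
  -- more constants
  obtain ⟨P, hP⟩ : ∃ P : ℝ, P = ∑ i : Fin zl.length,
    ∑ l, ∑ p, ∑ q, ‖ρ (zl.get i) p q‖ * ‖c l p‖ * ‖c l q‖ := ⟨_, rfl⟩
  obtain ⟨P', hP'⟩ : ∃ P' : ℝ, P' = ∑ i : Fin zl.length,
    ∑ l, ∑ p, ∑ q : Fin N, ‖ρ (zl.get i) p q‖ * ‖c l p‖ := ⟨_, rfl⟩
  have hP0 : 0 ≤ P := by rw [hP]; positivity
  have hP'0 : 0 ≤ P' := by rw [hP']; positivity
  have hPi : ∀ i : Fin zl.length, ∑ l, ∑ p, ∑ q, ‖ρ (zl.get i) p q‖ * ‖c l p‖ * ‖c l q‖ ≤ P := by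
    intro i
    rw [hP]
    exact Finset.single_le_sum (f := fun i : Fin zl.length =>
      ∑ l, ∑ p, ∑ q, ‖ρ (zl.get i) p q‖ * ‖c l p‖ * ‖c l q‖)
      (fun j _ => by positivity) (Finset.mem_univ i)
  have hP'i : ∀ i : Fin zl.length, ∑ l, ∑ p, ∑ q : Fin N, ‖ρ (zl.get i) p q‖ * ‖c l p‖ ≤ P' := by
    intro i
    rw [hP']
    exact Finset.single_le_sum (f := fun i : Fin zl.length =>
      ∑ l, ∑ p, ∑ q : Fin N, ‖ρ (zl.get i) p q‖ * ‖c l p‖)
      (fun j _ => by positivity) (Finset.mem_univ i)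
  obtain ⟨Q, hQ⟩ : ∃ Q : ℝ, Q = ∑ x : Fin L × Fin N, ‖d x.2‖ * ‖c x.1 x.2‖ := ⟨_, rfl⟩
  have hQ0 : 0 ≤ Q := by rw [hQ]; positivity
  obtain ⟨ε₃, hε₃⟩ : ∃ ε₃ : ℝ, ε₃ = min (η / (4 * (P + 1))) (ε / (2 * (Q + 1))) := ⟨_, rfl⟩
  have hε₃0 : 0 < ε₃ := by rw [hε₃]; exact lt_min (by positivity) (by positivity)
  -- the element G
  obtain ⟨ε₁, hε₁⟩ : ∃ ε₁ : ℝ, ε₁ = η / (16 * (P' + 1)) := ⟨_, rfl⟩
  have hε₁0 : 0 < ε₁ := by rw [hε₁]; positivity
  obtain ⟨g1, hg1D, hg10, hg11, hg1x⟩ := hAUD E D hD.toCore0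
    (Finset.univ.image (fun x : Fin L × Fin N => c x.1 x.2)) ε₁
    (fun y hy => by
      obtain ⟨j, -, rfl⟩ := Finset.mem_image.1 hy
      exact hcD _ _) hε₁0
  obtain ⟨G, hG⟩ : ∃ G : E, G = g1 * g1 := ⟨_, rfl⟩
  have hGD : G ∈ D := by rw [hG]; exact hD.toCore0.mul_left _ _ hg1D
  have hG0 : 0 ≤ G := by rw [hG]; exact (sq_le hg10 hg11).1
  have hG1 : G ≤ 1 := by rw [hG]; exact (sq_le hg10 hg11).2
  have hGn : ‖G‖ ≤ 1 := (CStarAlgebra.norm_le_one_iff_of_nonneg G hG0).2 hG1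
  have hGc : ∀ l p, ‖G * c l p - c l p‖ ≤ ε₁ := by
    intro l p
    have h1 := (hg1x (c l p) (Finset.mem_image.2 ⟨(l, p), Finset.mem_univ _, rfl⟩)).2
    rw [← hG] at h1
    have e1 : G * c l p - c l p = -((1 - G) * c l p) := by noncomm_ring
    rw [e1, norm_neg]
    exact h1
  obtain ⟨k₀, y₀, K, δ₁, hδ₁, hy₀D, hrow⟩ := hSIRD E D hD hsc hnv g a κ L ε₃ hgD hg0' hg1 ha ha0
    ha1 hκ hε₃0
  obtain ⟨yl, hyl⟩ : ∃ yl : List E, yl = List.ofFn y₀ ++ List.ofFn d ++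
    List.ofFn (fun x : Fin (L * N) => c (finProdFinEquiv.symm x).1 (finProdFinEquiv.symm x).2) ++
    (b :: List.ofFn x) := ⟨_, rfl⟩
  have hylD : ∀ y ∈ yl, y ∈ D := by
    intro y hy
    rw [hyl, List.mem_append, List.mem_append, List.mem_append, List.mem_cons, List.mem_ofFn,
      List.mem_ofFn, List.mem_ofFn, List.mem_ofFn] at hy
    rcases hy with ((⟨j, rfl⟩ | ⟨j, rfl⟩) | ⟨j, rfl⟩) | (rfl | ⟨j, rfl⟩)
    · exact hy₀D j
    · exact hdD j
    · exact hcD _ _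
    · exact hbD
    · exact hx j
  obtain ⟨δ, hδ⟩ : ∃ δ : ℝ, δ = min δ₁ (min (η / (8 * (P' + 1))) (min (ε / (2 * (2 * S + 1)))
    (min (ε / 2) (ε ^ 2 / 4 / (2 * (Am + 1)))))) := ⟨_, rfl⟩
  have hδ0 : 0 < δ := by
    rw [hδ]
    exact lt_min hδ₁ (lt_min (by positivity) (lt_min (by positivity)
      (lt_min (by positivity) (by positivity))))
  have hδ1 : δ ≤ δ₁ := by rw [hδ]; exact min_le_left _ _
  have hδ2 : δ ≤ η / (8 * (P' + 1)) := by
    rw [hδ]; exact (min_le_right _ _).trans (min_le_left _ _)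
  have hδ3 : δ ≤ ε / (2 * (2 * S + 1)) := by
    rw [hδ]; exact (min_le_right _ _).trans ((min_le_right _ _).trans (min_le_left _ _))
  have hδ4 : δ ≤ ε / 2 := by
    rw [hδ]
    exact (min_le_right _ _).trans ((min_le_right _ _).trans
      ((min_le_right _ _).trans (min_le_left _ _)))
  have hδ5 : δ ≤ ε ^ 2 / 4 / (2 * (Am + 1)) := by
    rw [hδ]
    exact (min_le_right _ _).trans ((min_le_right _ _).trans
      ((min_le_right _ _).trans (min_le_right _ _)))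
  refine ⟨b, G, yl.length, yl.get, K, δ, hbD, hb0, hb1, hGD, hG0, hG1, hδ0,
    fun j => hylD _ (List.get_mem _ _), fun j => ⟨(hbx j).1.trans (by linarith),
      (hbx j).2.trans (by linarith)⟩, ?_⟩
  intro e f he0 he1 hf0 hf1 hcomm hT
  have hmem : ∀ y ∈ yl, ‖e * y - y * e‖ ≤ δ ∧ ‖f * y - y * f‖ ≤ δ := by
    intro y hy
    obtain ⟨j, rfl⟩ := List.mem_iff_get.1 hy
    exact hcomm j
  have hfy : ∀ j, ‖f * y₀ j - y₀ j * f‖ ≤ δ₁ := by
    intro j
    refine (hmem (y₀ j) ?_).2.trans hδ1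
    rw [hyl, List.mem_append, List.mem_append, List.mem_append]
    left; left; left
    rw [List.mem_ofFn]
    exact ⟨j, rfl⟩
  have hfD : ∀ p, ‖f * d p - d p * f‖ ≤ δ := by
    intro p
    refine (hmem (d p) ?_).2
    rw [hyl, List.mem_append, List.mem_append, List.mem_append]
    left; left; right
    rw [List.mem_ofFn]
    exact ⟨p, rfl⟩
  have hec : ∀ l p, ‖e * c l p - c l p * e‖ ≤ δ := by
    intro l p
    refine (hmem (c l p) ?_).1
    rw [hyl, List.mem_append, List.mem_append]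
    left; right
    rw [List.mem_ofFn]
    refine ⟨finProdFinEquiv (l, p), ?_⟩
    rw [Equiv.symm_apply_apply]
  have heb : ‖e * b - b * e‖ ≤ δ := by
    refine (hmem b ?_).1
    rw [hyl, List.mem_append]
    right
    exact List.mem_cons_self
  have hex : ∀ j, ‖e * x j - x j * e‖ ≤ δ := by
    intro j
    refine (hmem (x j) ?_).1
    rw [hyl, List.mem_append]
    right
    apply List.mem_cons_of_mem
    rw [List.mem_ofFn]
    exact ⟨j, rfl⟩
  have he1' : ‖e‖ ≤ 1 := (CStarAlgebra.norm_le_one_iff_of_nonneg e he0).2 he1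
  obtain ⟨e1, he1d⟩ : ∃ e1 : E, e1 = G * e * G := ⟨_, rfl⟩
  have he1D : e1 ∈ D := by
    rw [he1d]
    exact hD.toCore0.mul_left _ _ hGD
  have he10 : 0 ≤ e1 := by rw [he1d]; exact (conj_le hG0 hG1 he0 he1).1
  have he11 : e1 ≤ 1 := by rw [he1d]; exact (conj_le hG0 hG1 he0 he1).2
  have he1c : ∀ l p, ‖e1 * c l p - c l p * e‖ ≤ 2 * ε₁ + δ := by
    intro l p
    have k1 : e1 * c l p - c l p * e = G * e * (G * c l p - c l p) +
        (G * (e * c l p - c l p * e) + (G * c l p - c l p) * e) := by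
      rw [he1d]
      noncomm_ring
    rw [k1]
    have k2 := mul3 G e (G * c l p - c l p) 1 1 ε₁ hGn he1' (hGc l p)
    have k3 := mul2 G (e * c l p - c l p * e) 1 δ hGn (hec l p)
    have k4 := mul2 (G * c l p - c l p) e ε₁ 1 (hGc l p) he1'
    calc _ ≤ ‖G * e * (G * c l p - c l p)‖ + (‖G * (e * c l p - c l p * e)‖ +
          ‖(G * c l p - c l p) * e‖) := (norm_add_le _ _).trans (add_le_add_right (norm_add_le _ _) _)
      _ ≤ 1 * 1 * ε₁ + (1 * δ + ε₁ * 1) := add_le_add k2 (add_le_add k3 k4)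
      _ = 2 * ε₁ + δ := by ring
  have hTe : ∀ T : TS E, N1 D T → tr T e1 ≤ δ₁ ∧ κ ≤ tr T (a * f ^ K * a) := by
    intro T hN
    rw [he1d]
    exact ⟨((hT T hN).1).trans hδ1, (hT T hN).2⟩
  obtain ⟨r, hr2, hrf, hrr⟩ := hrow e1 f he1D he10 he11 hf0 hf1 hfy hTe
  -- the element
  have hk : ‖cut ε₃ e1 - e1‖ ≤ ε₃ := SI_cut e1 he10 ε₃ hε₃0.le
  have main : ∀ z ∈ zl, ‖star (SI_s d r c) * z * SI_s d r c - b * z * b * e‖ ≤ η := by
    intro z hz
    obtain ⟨j, rfl⟩ := List.mem_iff_get.1 hz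
    have s1 := SI_step1 d r r c (zl.get j) g (fun p q => ρ (zl.get j) p q) ε₂ hε₂0.le
      (fun l => (hr2 l).2) (fun l => (hr2 l).2) (fun p q => hd j p q)
    have s2 := SI_step2 r r c g (cut ε₃ e1) (fun p q => ρ (zl.get j) p q) True
      (fun l l' => by
        rw [hrr]
        simp only [true_and])
    rw [s2, ← hS, if_pos trivial] at s1
    have b1 : 4 * ε₂ * S ^ 2 ≤ η / 4 := by
      rw [hε₂, div_eq_mul_inv, div_eq_mul_inv]
      have h5 : (4 * (4 * S ^ 2 + 1))⁻¹ * (4 * S ^ 2) ≤ 4⁻¹ := by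
        rw [inv_mul_le_iff₀ (by positivity)]
        nlinarith [sq_nonneg S]
      nlinarith
    have s3 := step3 c (cut ε₃ e1) e1 e (fun p q => ρ (zl.get j) p q) ε₃ (2 * ε₁ + δ) hk he1c
      (by positivity)
    have b2 : ε₃ * (∑ l, ∑ p, ∑ q, ‖ρ (zl.get j) p q‖ * ‖c l p‖ * ‖c l q‖) ≤ η / 4 := by
      have h5 : ε₃ ≤ η / (4 * (P + 1)) := by rw [hε₃]; exact min_le_left _ _
      calc ε₃ * (∑ l, ∑ p, ∑ q, ‖ρ (zl.get j) p q‖ * ‖c l p‖ * ‖c l q‖)
          ≤ η / (4 * (P + 1)) * (P + 1) := by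
            apply mul_le_mul h5 ((hPi j).trans (by linarith)) (by positivity) (by positivity)
        _ = η / 4 := by field_simp
    have b3 : (2 * ε₁ + δ) * (∑ l, ∑ p, ∑ q : Fin N, ‖ρ (zl.get j) p q‖ * ‖c l p‖) ≤ η / 4 := by
      have h5 : 2 * ε₁ + δ ≤ η / (4 * (P' + 1)) := by
        have h6 : 2 * ε₁ = η / (8 * (P' + 1)) := by rw [hε₁]; field_simp; ring
        have h7 : η / (4 * (P' + 1)) = η / (8 * (P' + 1)) + η / (8 * (P' + 1)) := by
          field_simp; ring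
        linarith
      calc (2 * ε₁ + δ) * (∑ l, ∑ p, ∑ q : Fin N, ‖ρ (zl.get j) p q‖ * ‖c l p‖)
          ≤ η / (4 * (P' + 1)) * (P' + 1) := by
            apply mul_le_mul h5 ((hP'i j).trans (by linarith)) (by positivity) (by positivity)
        _ = η / 4 := by field_simp
    have s5 : ‖(∑ l, ∑ p, ∑ q, ρ (zl.get j) p q • (star (c l p) * c l q)) * e -
        b * zl.get j * b * e‖ ≤ η / 4 := by
      rw [← sub_mul]
      exact (mul2 _ _ (η / 4) 1 (hρc j) he1').trans (le_of_eq (mul_one _))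
    calc ‖star (SI_s d r c) * zl.get j * SI_s d r c - b * zl.get j * b * e‖
        = ‖(star (SI_s d r c) * zl.get j * SI_s d r c -
            ∑ l, ∑ p, ∑ q, ρ (zl.get j) p q • (star (c l p) * cut ε₃ e1 * c l q)) +
          (∑ l, ∑ p, ∑ q, ρ (zl.get j) p q • (star (c l p) * cut ε₃ e1 * c l q) -
            (∑ l, ∑ p, ∑ q, ρ (zl.get j) p q • (star (c l p) * c l q)) * e) +
          ((∑ l, ∑ p, ∑ q, ρ (zl.get j) p q • (star (c l p) * c l q)) * e -
            b * zl.get j * b * e)‖ := by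
          congr 1
          abel
      _ ≤ η / 4 + (η / 4 + η / 4) + η / 4 := by
          refine (norm_add_le _ _).trans (add_le_add ?_ s5)
          refine (norm_add_le _ _).trans (add_le_add (s1.trans b1) (s3.trans ?_))
          exact add_le_add b2 b3
      _ = η := by ring
  refine ⟨SI_s d r c, ?_, ?_, ?_, ?_⟩
  · refine sum_mem hD.toCore0 _ _ fun y _ => ?_
    exact hD.toCore0.mul_left _ _ (hcD _ _)
  · have h1 := main 1 hz1
    rw [mul_one, mul_one] at h1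
    have h2 : ‖b * (e * b - b * e)‖ ≤ 1 * δ := mul2 b _ 1 δ hbn heb
    have h3 : star (SI_s d r c) * SI_s d r c - b * e * b =
        (star (SI_s d r c) * SI_s d r c - b * b * e) - b * (e * b - b * e) := by
      noncomm_ring
    rw [h3]
    refine (norm_sub_le _ _).trans ?_
    linarith
  · have h1 := SI_f d r c f ε₃ δ hε₃0.le hδ0.le (fun l => (hr2 l).2) (fun l => hrf l) hfD
    rw [← hQ, ← hS] at h1
    have h2 : ε₃ * Q ≤ ε / 2 := by
      have h5 : ε₃ ≤ ε / (2 * (Q + 1)) := by rw [hε₃]; exact min_le_right _ _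
      calc ε₃ * Q ≤ ε / (2 * (Q + 1)) * (Q + 1) :=
            mul_le_mul h5 (by linarith) hQ0 (by positivity)
        _ = ε / 2 := by field_simp
    have h3 : δ * (2 * S) ≤ ε / 2 := by
      calc δ * (2 * S) ≤ ε / (2 * (2 * S + 1)) * (2 * S + 1) :=
            mul_le_mul hδ3 (by linarith) (by positivity) (by positivity)
        _ = ε / 2 := by field_simp
    linarith
  · intro j
    have g1 := main 1 hz1
    have g2 := main (x j) (hza j)
    have g3 := main (star (x j)) (hzs j)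
    have g4 := main (star (x j) * x j) (hzq j)
    have h1 := SID.comm (SI_s d r c) (x j) e b η δ (ε / 4) g1 g2 g3 g4 hbsa hbn he1' (hex j)
      (hbx j).1 (hbx j).2
    have h2 : η * (1 + ‖x j‖) ^ 2 ≤ ε ^ 2 / 4 := by
      refine le_trans ?_ hηε2
      have := haAm j
      have h0 := norm_nonneg (x j)
      gcongr
    have h3 : 2 * (‖x j‖ * δ) ≤ ε ^ 2 / 4 := by
      have h5 := haAm j
      calc 2 * (‖x j‖ * δ) ≤ 2 * ((Am + 1) * (ε ^ 2 / 4 / (2 * (Am + 1)))) := by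
            refine mul_le_mul_of_nonneg_left ?_ (by norm_num)
            exact mul_le_mul (by linarith) hδ5 hδ0.le (by positivity)
        _ = ε ^ 2 / 4 := by field_simp
    have h4 : 4 * (ε / 4) ^ 2 = ε ^ 2 / 4 := by ring
    have h5 : ‖SI_s d r c * x j - x j * SI_s d r c‖ ^ 2 ≤ ε ^ 2 := by
      refine h1.trans ?_
      rw [h4]
      nlinarith [sq_nonneg ε]
    exact (sq_le_sq₀ (norm_nonneg _) hε.le).1 h5

end Pool.Agent.H270R2.NU
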