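import Pool.Agent.H667R5.NX.NU.StubsI

set_option autoImplicit false

namespace Pool.Agent.H270R2.NU

universe u

namespace AUD

variable {E : Type u} [CStarAlgebra E] [PartialOrder E] [StarOrderedRing E]

theorem base (h : E) (hh : 0 ≤ h) (r : ℝ) (hr : 0 < r) :
    ∃ m k : E, 0 ≤ h * m ∧ h * m ≤ 1 ∧ IsSelfAdjoint k ∧ 1 - h * m = k ∧ ‖k * h * k‖ ≤ r := by
  have hsa : IsSelfAdjoint h := IsSelfAdjoint.of_nonneg hh
  have hspec : ∀ t ∈ spectrum ℝ h, 0 ≤ t := fun t ht => spectrum_nonneg_of_nonneg hh ht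
  have hne : ∀ t ∈ spectrum ℝ h, t + r ≠ 0 := fun t ht => by
    have := hspec t ht
    positivity
  have hc1 : ContinuousOn (fun t : ℝ => 1 / (t + r)) (spectrum ℝ h) :=
    ContinuousOn.div (by fun_prop) (by fun_prop) hne
  have hc2 : ContinuousOn (fun t : ℝ => r / (t + r)) (spectrum ℝ h) :=
    ContinuousOn.div (by fun_prop) (by fun_prop) hne
  have hc3 : ContinuousOn (fun t : ℝ => t) (spectrum ℝ h) := by fun_prop
  have hc4 : ContinuousOn (fun t : ℝ => t * (1 / (t + r))) (spectrum ℝ h) := hc3.mul hc1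
  have hm : h * cfc (fun t : ℝ => 1 / (t + r)) h = cfc (fun t : ℝ => t * (1 / (t + r))) h := by
    rw [cfc_mul (fun t : ℝ => t) (fun t : ℝ => 1 / (t + r)) h hc3 hc1, cfc_id' ℝ h]
  refine ⟨cfc (fun t : ℝ => 1 / (t + r)) h, cfc (fun t : ℝ => r / (t + r)) h, ?_, ?_, ?_, ?_, ?_⟩
  · rw [hm]
    apply cfc_nonneg
    intro t ht
    have := hspec t ht
    positivity
  · rw [hm]
    apply cfc_le_one
    intro t ht
    have h0 := hspec t ht
    rw [mul_one_div, div_le_one (by positivity)]
    linarith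
  · exact cfc_predicate _ _
  · rw [hm, ← cfc_const_one ℝ h, ← cfc_sub (fun _ : ℝ => 1) (fun t : ℝ => t * (1 / (t + r))) h
      (by fun_prop) hc4]
    apply cfc_congr
    intro t ht
    have h0 := hne t ht
    simp only
    field_simp
    ring
  · have e1 : cfc (fun t : ℝ => r / (t + r)) h * h * cfc (fun t : ℝ => r / (t + r)) h =
        cfc (fun t : ℝ => r / (t + r) * t * (r / (t + r))) h := by
      rw [cfc_mul (fun t : ℝ => r / (t + r) * t) (fun t : ℝ => r / (t + r)) h (hc2.mul hc3) hc2,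
        cfc_mul (fun t : ℝ => r / (t + r)) (fun t : ℝ => t) h hc2 hc3, cfc_id' ℝ h]
    rw [e1]
    apply norm_cfc_le hr.le
    intro t ht
    have h0 := hspec t ht
    rw [Real.norm_of_nonneg (by positivity)]
    have e2 : r / (t + r) * t * (r / (t + r)) = r * (r * t / (t + r) ^ 2) := by
      field_simp
    rw [e2]
    have e3 : r * t / (t + r) ^ 2 ≤ 1 := by
      rw [div_le_one (by positivity)]
      nlinarith
    nlinarith

theorem nbd {x h k : E} {r : ℝ} (hr : 0 ≤ r) (hk : IsSelfAdjoint k) (hkh : ‖k * h * k‖ ≤ r ^ 2)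
    (hx : star x * x ≤ h) : ‖x * k‖ ≤ r := by
  have h1 : ‖x * k‖ * ‖x * k‖ ≤ r ^ 2 := by
    rw [← CStarRing.norm_star_mul_self, star_mul]
    refine le_trans ?_ hkh
    have h2 : star k * star x * (x * k) = star k * (star x * x) * k := by
      simp only [mul_assoc]
    have h3 : star k * (star x * x) * k ≤ star k * h * k := star_left_conjugate_le_conjugate hx k
    rw [h2]
    have h4 : 0 ≤ star k * (star x * x) * k := by
      have := star_mul_self_nonneg (x * k)
      rwa [star_mul, h2] at this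
    have h5 := CStarAlgebra.norm_le_norm_of_nonneg_of_le h4 h3
    rwa [hk.star_eq] at h5 ⊢
  have h6 : ‖x * k‖ ^ 2 ≤ r ^ 2 := by rw [sq (‖x * k‖)]; exact h1
  exact le_of_sq_le_sq h6 hr

theorem core (X : Finset E) (ε : ℝ) (hε : 0 < ε) :
    ∃ m : E, 0 ≤ (∑ x ∈ X, (star x * x + x * star x)) * m ∧
      (∑ x ∈ X, (star x * x + x * star x)) * m ≤ 1 ∧ ∀ x ∈ X,
      ‖x * (1 - (∑ x ∈ X, (star x * x + x * star x)) * m)‖ ≤ ε ∧
      ‖(1 - (∑ x ∈ X, (star x * x + x * star x)) * m) * x‖ ≤ ε := by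
  set h : E := ∑ x ∈ X, (star x * x + x * star x) with hh
  have hpos : ∀ x : E, 0 ≤ star x * x + x * star x := fun x =>
    add_nonneg (star_mul_self_nonneg x) (mul_star_self_nonneg x)
  have h0 : 0 ≤ h := Finset.sum_nonneg fun x _ => hpos x
  obtain ⟨m, k, h1, h2, h3, h4, h5⟩ := base h h0 (ε ^ 2) (by positivity)
  refine ⟨m, h1, h2, ?_⟩
  intro x hx
  have h6 : star x * x + x * star x ≤ h :=
    Finset.single_le_sum (f := fun x => star x * x + x * star x) (fun y _ => hpos y) hx
  have h7 : star x * x ≤ h := le_trans (le_add_of_nonneg_right (mul_star_self_nonneg x)) h6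
  have h8 : star (star x) * star x ≤ h := by
    rw [star_star]
    exact le_trans (le_add_of_nonneg_left (star_mul_self_nonneg x)) h6
  rw [h4]
  refine ⟨nbd hε.le h3 h5 h7, ?_⟩
  have h9 := nbd hε.le h3 h5 h8
  have h10 : k * x = star (star x * k) := by rw [star_mul, star_star, h3.star_eq]
  rw [h10, norm_star]
  exact h9

end AUD

theorem t_AUD : StAUD.{u} := by
  intro E _ _ _ D hD X ε hX hε
  obtain ⟨m, h1, h2, h3⟩ := AUD.core X (ε / 2) (by linarith)
  have hmem : ∀ Y : Finset E, (∀ x ∈ Y, x ∈ D) → (∑ x ∈ Y, (star x * x + x * star x)) ∈ D := by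
    classical
    intro Y
    induction Y using Finset.induction_on with
    | empty => intro _; simpa using hD.zero
    | insert a Y ha ih =>
      intro hY
      rw [Finset.sum_insert ha]
      apply hD.add
      · apply hD.add
        · exact hD.mul_left _ _ (hY a (Finset.mem_insert_self a Y))
        · exact hD.mul_right _ _ (hY a (Finset.mem_insert_self a Y))
      · exact ih fun x hx => hY x (Finset.mem_insert_of_mem hx)
  generalize hg : (∑ x ∈ X, (star x * x + x * star x)) * m = g at h1 h2 h3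
  have hgD : g ∈ D := by
    rw [← hg]
    exact hD.mul_right _ _ (hmem X hX)
  refine ⟨g, hgD, h1, h2, ?_⟩
  have hn : ‖g‖ ≤ 1 := CStarAlgebra.norm_le_one_iff_of_nonneg g h1 |>.mpr h2
  rcases subsingleton_or_nontrivial E with hE | hE
  · intro x _
    rw [Subsingleton.elim (x * (1 - g * g)) 0, Subsingleton.elim ((1 - g * g) * x) 0, norm_zero]
    exact ⟨hε.le, hε.le⟩
  have hn2 : ‖1 + g‖ ≤ 2 := by
    refine (norm_add_le _ _).trans ?_
    rw [norm_one]
    linarith
  intro x hx
  obtain ⟨h4, h5⟩ := h3 x hx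
  have e1 : x * (1 - g * g) = x * (1 - g) * (1 + g) := by noncomm_ring
  have e2 : (1 - g * g) * x = (1 + g) * ((1 - g) * x) := by noncomm_ring
  constructor
  · rw [e1]
    refine (norm_mul_le _ _).trans ?_
    have h6 := mul_le_mul h4 hn2 (norm_nonneg _) (by linarith)
    linarith
  · rw [e2]
    refine (norm_mul_le _ _).trans ?_
    have h6 := mul_le_mul hn2 h5 (norm_nonneg _) (by norm_num)
    linarith

end Pool.Agent.H270R2.NU
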