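import Pool.Agent.H667R5.NX.NU.StubsI
import Pool.Agent.H667R5.TW.TBSTEPb

/-!
# BSTEPD: adding one block (adapted from TBSTEP of helper138)
-/

set_option autoImplicit false
set_option linter.unusedSectionVars false

namespace Pool.Agent.H270R2.NU

open Pool.Agent.H327R4.Pure Pool.Agent.H667R5.TW Pool.Agent.H667R5.TW.BSTEPx
open scoped CStarAlgebra ComplexOrder Matrix

universe u

theorem bstepd_num (K σ α M nd n : ℝ) (hn' : 1 ≤ n) (hσ0 : 0 ≤ σ) (hσ2 : σ ≤ 2)
    (hM : 0 ≤ M) (hnd : 0 ≤ nd) (hα : n * α ≤ M + nd) (hα0 : 0 ≤ α) (hK0 : 0 ≤ K) :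
    K * σ * α ≤ K * σ * M + 2 * K * nd := by
  have h1 : α ≤ M + nd := by nlinarith
  have h2 : K * σ * α ≤ K * σ * (M + nd) := by
    apply mul_le_mul_of_nonneg_left h1 (by positivity)
  have h4 : K * σ * nd ≤ 2 * K * nd := by
    have : K * nd * σ ≤ K * nd * 2 := by gcongr
    linarith
  nlinarith

theorem bstepd_cn (n : ℕ) : 8 + (n:ℝ) ≤ Cn n ∧ 2 * (4 + (n:ℝ)) + 2 ≤ Cn n := by
  unfold Cn
  have h0 : (0:ℝ) ≤ n := by positivity
  generalize (n:ℝ) = x at h0
  have h2 : 0 ≤ x ^ 2 := by positivity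
  have h3 : 0 ≤ x ^ 3 := by positivity
  have e : 1000 * (x + 1) ^ 3 = 1000 * x ^ 3 + 3000 * x ^ 2 + 3000 * x + 1000 := by ring
  rw [e]
  exact ⟨by linarith, by linarith⟩

theorem t_BSTEPD (hAUD : StAUD.{u}) (hDEFI : StDEFI.{u}) (hCUT : StCUT.{u}) (hCPB : StCPB.{u})
    (hS0 : StS0.{u}) (hS1 : StS1.{u}) (hS2 : StS2.{u}) (hS3 : StS3.{u}) (hS4 : StS4.{u})
    (hS5 : StS5.{u}) (hBAS : StBAS.{u}) : StBSTEPD.{u} := by
  classical
  intro A _ _ _ Dd hcore hLG n X X' W lam μ δ β F hn hX' h1X' hX hW4 hnW hlam hlam1 hμ hμ2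
    hδ hβ hF hF1
  have hW : 1 ≤ W := by linarith
  obtain ⟨cpAdd, cpConj, cpSmul, cpZero, cpS0, cpFacts⟩ := hCPB A n
  obtain ⟨Fstar, Fdiag, Fsum0, Fle⟩ := cpFacts F hF
  have Fle' := Fle hF1
  set V := dsum F with hV
  have hV0 : 0 ≤ V := Fsum0
  have hV1 : V ≤ 1 := hF1
  have hVn : ‖V‖ ≤ 1 := norm_le_one hV0 hV1
  have hVn' : ‖1 - V‖ ≤ 1 := norm_le_one (sub_nonneg.2 hV1) (sub_le_self _ hV0)
  have hVs : star (1 - V) = 1 - V := (sub_nonneg.2 hV1).isSelfAdjoint.star_eq
  have hN : 0 < β.N := hβ.1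
  have hNr : (0:ℝ) < β.N := by exact_mod_cast hN
  have hn' : (1:ℝ) ≤ n := by exact_mod_cast hn
  set R := β.R W X' with hR
  have hR0 : 0 ≤ R := by
    rw [hR]
    unfold Blk.R
    apply smul_nonneg (by linarith)
    apply add_nonneg
    · apply smul_nonneg (by positivity)
      exact Finset.sum_nonneg fun k _ => Finset.sum_nonneg fun l _ => star_mul_self_nonneg _
    · apply smul_nonneg (by positivity)
      exact Finset.sum_nonneg fun x _ => Finset.sum_nonneg fun l _ => star_mul_self_nonneg _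
  have hpen0 : 0 ≤ β.pen V := by
    unfold Blk.pen
    exact Finset.sum_nonneg fun l _ => star_left_conjugate_nonneg hV0 _
  set Q := (1 / (lam * β.N)) • β.pen V with hQ
  have hQ0 : 0 ≤ Q := smul_nonneg (by positivity) hpen0
  set c := cc (R + Q) with hc
  obtain ⟨c0, c1, c2, c3, _⟩ := hCUT A (R + Q) 0 (add_nonneg hR0 hQ0) le_rfl
  obtain ⟨_, _, _, _, cT⟩ := hCUT A R Q hR0 hQ0
  have hCn : 0 < Cn n := by unfold Cn; positivity
  set D := Cn n * (β.N + 1) with hD
  have hD0 : 0 < D := by positivity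
  set δ' := δ / D with hδ'
  have hδ'0 : 0 < δ' := by positivity
  -- the approximate unit
  obtain ⟨g, gD, g0, g1, hg⟩ := hAUD A Dd hcore
    (((X'.filter (fun x => x ∈ Dd)) ×ˢ (Finset.univ : Finset (Fin β.N))).image
      (fun p => p.1 * β.b p.2 * CFC.sqrt c)) δ' (by
      intro x hx
      obtain ⟨p, hp, rfl⟩ := Finset.mem_image.1 hx
      have hp1 : p.1 ∈ Dd := (Finset.mem_filter.1 (Finset.mem_product.1 hp).1).2
      exact hcore.mul_right _ _ (hcore.mul_right _ _ hp1)) hδ'0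
  have hg' : ∀ x ∈ X', x ∈ Dd → ∀ l, ‖x * β.b l * CFC.sqrt c * (1 - g * g)‖ ≤ δ' := by
    intro x hx hxD l
    exact (hg _ (Finset.mem_image.2 ⟨(x, l), Finset.mem_product.2
      ⟨Finset.mem_filter.2 ⟨hx, hxD⟩, Finset.mem_univ _⟩, rfl⟩)).1
  obtain ⟨u, z, e, e0, e1, uu, uz, hT⟩ :=
    hLG n c g μ δ' hn c0 c1 gD g0 g1 hμ hμ2 hδ'0
  have hcR : CFC.sqrt c * R * CFC.sqrt c ≤ c := by
    have hq : 0 ≤ CFC.sqrt c * Q * CFC.sqrt c := by
      have := star_left_conjugate_nonneg hQ0 (CFC.sqrt c)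
      rwa [(CFC.sqrt_nonneg c).isSelfAdjoint.star_eq] at this
    calc CFC.sqrt c * R * CFC.sqrt c ≤ CFC.sqrt c * R * CFC.sqrt c + CFC.sqrt c * Q * CFC.sqrt c :=
          le_add_of_nonneg_right hq
      _ = CFC.sqrt c * (R + Q) * CFC.sqrt c := by noncomm_ring
      _ ≤ c := c3
  have hgg1 : g * g ≤ 1 := (sq_le_self g0 g1).trans g1
  have hcg : CFC.sqrt c * (g * g) * CFC.sqrt c ≤ c := by
    have h1 := star_left_conjugate_le_conjugate hgg1 (CFC.sqrt c)
    rw [(CFC.sqrt_nonneg c).isSelfAdjoint.star_eq, mul_one, CFC.sqrt_mul_sqrt_self c c0] at h1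
    exact h1
  have hsq : star (CFC.sqrt c) = CFC.sqrt c := (CFC.sqrt_nonneg c).isSelfAdjoint.star_eq
  have key : ∀ i, star (u i) * (R + Q) * u i ≤ e := by
    intro i
    have h1 : star (u i) * (R + Q) * u i =
        star (z i) * (CFC.sqrt c * (R + Q) * CFC.sqrt c) * z i := by
      rw [uz i, star_mul, hsq]
      noncomm_ring
    have h2 : star (z i) * (CFC.sqrt c * (R + Q) * CFC.sqrt c) * z i ≤ star (z i) * c * z i :=
      star_left_conjugate_le_conjugate c3 (z i)
    have h3 : star (z i) * c * z i = e := by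
      have h4 := uu i i
      rw [if_pos rfl, uz i, star_mul, hsq] at h4
      rw [← h4]
      have h5 : c = CFC.sqrt c * CFC.sqrt c := (CFC.sqrt_mul_sqrt_self c c0).symm
      calc star (z i) * c * z i = star (z i) * (CFC.sqrt c * CFC.sqrt c) * z i := by rw [← h5]
        _ = star (z i) * CFC.sqrt c * (CFC.sqrt c * z i) := by noncomm_ring
    rw [h1]
    rw [h3] at h2
    exact h2
  have hle : ∀ i, star (u i) * R * u i ≤ e := fun i =>
    (star_left_conjugate_le_conjugate (le_add_of_nonneg_right hQ0) (u i)).trans (key i)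
  have hloc : IsLoc (β.R W X') u e := ⟨e0, e1, uu, hle⟩
  have hpen : ∀ i, ∑ l, star (β.b l * u i) * V * (β.b l * u i) ≤ (lam * β.N) • e := by
    intro i
    have h1 : ∑ l, star (β.b l * u i) * V * (β.b l * u i) = star (u i) * β.pen V * u i := by
      unfold Blk.pen
      rw [Finset.mul_sum, Finset.sum_mul]
      refine Finset.sum_congr rfl fun l _ => ?_
      rw [star_mul]
      noncomm_ring
    have h2 : β.pen V = (lam * β.N) • Q := by
      rw [hQ, smul_smul]
      rw [mul_one_div_cancel (by positivity), one_smul]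
    have h3 : star (u i) * Q * u i ≤ e :=
      (star_left_conjugate_le_conjugate (le_add_of_nonneg_left hR0) (u i)).trans (key i)
    rw [h1, h2, mul_smul_comm, smul_mul_assoc]
    exact smul_le_smul_of_nonneg_left h3 (by positivity)
  obtain ⟨s0a, s0b, s0c, s0d, s0e, s0T⟩ := hS0 A n X' W β u e hW hnW hN hloc
  set ω := 1 / √W with hω
  have hsW : 1 ≤ √W := Real.one_le_sqrt.2 hW
  have hω0 : 0 < ω := by positivity
  have hω1 : ω ≤ 1 := by
    rw [hω, div_le_one (by positivity)]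
    exact hsW
  set κ := (1 + n * ω)⁻¹ with hκd
  have hk1 : 0 < 1 + n * ω := by positivity
  have hκ0 : 0 ≤ κ := by positivity
  have hnω : 0 ≤ n * ω := by positivity
  have hκ1 : κ ≤ 1 := inv_le_one_of_one_le₀ (by linarith)
  have hκκ : κ * (1 + n * ω) = 1 := inv_mul_cancel₀ (by positivity)
  have hκ : 1 - κ ≤ n * ω := nm10 κ _ hκ0 hκ1 hnω hκκ
  have hS0p : ∀ i, 0 ≤ β.s0 u i i := (cpFacts _ (cpS0 β u)).2.1
  refine ⟨fun i j => κ • ((1 - V) * β.s0 u i j * (1 - V)), ?_, ?_, ?_⟩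
  · apply cpSmul _ κ hκ0
    have h1 := cpConj _ (1 - V) (cpS0 β u)
    rwa [hVs] at h1
  · have h1 : dsum (fun i j => κ • ((1 - V) * β.s0 u i j * (1 - V))) =
        κ • ((1 - V) * dsum (β.s0 u) * (1 - V)) := by
      unfold dsum
      rw [Finset.mul_sum, Finset.sum_mul, Finset.smul_sum]
    have h2 : (1 - V) * dsum (β.s0 u) * (1 - V) ≤ (1 - V) * ((1 + n / √W) • 1) * (1 - V) := by
      have := star_left_conjugate_le_conjugate s0a (1 - V)
      rwa [hVs] at this
    have h3 : (1 - V) * ((1 + (n:ℝ) / √W) • (1 : A)) * (1 - V) =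
        (1 + n * ω) • ((1 - V) * (1 - V)) := by
      rw [mul_smul_comm, smul_mul_assoc, mul_one, hω]
      congr 1
      ring
    rw [h3] at h2
    have h4 : κ • ((1 - V) * dsum (β.s0 u) * (1 - V)) ≤ (1 - V) * (1 - V) := by
      calc κ • ((1 - V) * dsum (β.s0 u) * (1 - V)) ≤ κ • ((1 + n * ω) • ((1 - V) * (1 - V))) :=
            smul_le_smul_of_nonneg_left h2 hκ0
        _ = (1 - V) * (1 - V) := by rw [smul_smul, hκκ, one_smul]
    rw [h1]
    calc V + κ • ((1 - V) * dsum (β.s0 u) * (1 - V)) ≤ V + (1 - V) * (1 - V) := by gcongr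
      _ = 1 - (V - V * V) := by noncomm_ring
      _ ≤ 1 := sub_le_self _ (sub_nonneg.2 (sq_le_self hV0 hV1))
  intro T
  obtain ⟨b1, b2, b3, b4, b5, b6, b7, b8, b9⟩ := hBAS A T
  have tr0 : tr T 0 = 0 := by simp [tr]
  have he0 : 0 ≤ tr T e := by
    have := b1 0 e e0
    rwa [tr0] at this
  have hpenT : 0 ≤ tr T (β.pen V) := by
    have := b1 0 _ hpen0
    rwa [tr0] at this
  obtain ⟨cT1, cT2, _⟩ := cT T
  obtain ⟨hT1, hT2⟩ := hT T
  set ccR := tr T (cc R) with hccR
  have hcT0 : 0 ≤ tr T c := by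
    have := b1 0 _ c0
    rwa [tr0] at this
  have hccR0 : 0 ≤ ccR := hcT0.trans cT1
  set α := β.N * tr T e with hα
  have hα0 : 0 ≤ α := by positivity
  have hmass : β.mass W X' T = β.N * ccR := rfl
  set M := μ * β.mass W X' T with hM
  have hM0 : 0 ≤ M := by rw [hM, hmass]; positivity
  set nd := β.N * δ' with hnd
  have hnd0 : 0 ≤ nd := by positivity
  set tg := tr T (CFC.sqrt c * (g * g) * CFC.sqrt c) with htg
  have htgc : tg ≤ tr T c := b1 _ _ hcg
  have hαM : n * α ≤ M + nd := by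
    have h1 := (abs_le.1 hT1).2
    have h1' := mul_le_mul_of_nonneg_left (htgc.trans cT1) hμ.le
    have h2 : n * tr T e ≤ μ * ccR + δ' := by linarith
    calc n * α = β.N * (n * tr T e) := by rw [hα]; ring
      _ ≤ β.N * (μ * ccR + δ') := by gcongr
      _ = M + nd := by rw [hM, hmass, hnd]; ring
  have hCnd : Cn n * nd ≤ δ := by
    rw [hnd, hδ', hD]
    have : Cn n * (β.N * (δ / (Cn n * (β.N + 1)))) = δ * (β.N / (β.N + 1)) := by
      field_simp
    exact nm11 _ _ (Cn n) δ this hNr hδ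
  set σ := √lam + ω with hσ
  have hsl0 : 0 ≤ √lam := Real.sqrt_nonneg _
  have hsl1 : √lam ≤ 1 := by rw [Real.sqrt_le_one]; exact hlam1
  have hll : lam ≤ √lam := nm4 hlam hlam1
  obtain ⟨cn1, cn2, cn3, cn4, cn5, cn6, cn7⟩ := cn1 n
  have hσ0 : 0 ≤ σ := by positivity
  have hσ2 : σ ≤ 2 := by linarith
  have hCnn : Cn n = 1000 * ((n : ℝ) + 1) ^ 3 := rfl
  have hNum : ∀ K : ℝ, 0 ≤ K → K ≤ Cn n → K * σ * α ≤ Cn n * σ * M + 2 * K * nd :=
    fun K hK0 hK => num n hn K σ α M nd hσ0 hσ2 hM0 hnd0 hαM hα0 hK0 hK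
  have hS3' := fun i j => hS3 A n X' W lam β u e V hW hnW hN hloc hV0 hV1 hlam hlam1 hpen T i j
  have hS4' := fun (G z1 : A) (hG : star G * G ≤ V) (hz : ‖z1‖ ≤ 1) (z : A) (hzX : z ∈ X') =>
    hS4 A n X' W lam β u e V hW hnW hβ hloc hV0 hV1 hlam hlam1 hpen T G z1 hG hz z hzX
      (hX' z hzX).1
  have hGle : ∀ i j, star (F j i) * F j i ≤ V := fun i j =>
    (Fle' j i).trans (Finset.single_le_sum (f := fun i => F i i) (fun k _ => Fdiag k)
      (Finset.mem_univ i))
  refine ⟨?_, ?_, ?_, ?_⟩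
  · -- traces
    intro x hx hxD i j
    have hdef := hDEFI A X' W β c g x δ' hW4 hβ c0 c1 hcR g0 g1 hx hδ'0.le (hg' x hx hxD) T
    rw [← htg] at hdef
    have hy := trace_norm_le (β.y x) (hβ.2 x hx).2
    have h3 := (hS3' i j).2.2.2 x (hX' x hx).1
    have h1 := hS1 A n X' W β u e hW hnW hβ hloc T x hx i j
    have h1' : ‖T.1.f (x * β.s0 u i j) -
        (if i = j then (β.y x).trace * ((tr T e : ℝ) : ℂ) else 0)‖ ≤ 4 * ω * α := by
      have : 4 / √W = 4 * ω := by rw [hω]; ring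
      rw [this] at h1
      exact h1
    have hD1 : ‖(if i = j then (β.y x).trace * ((tr T e : ℝ) : ℂ) else 0)‖ ≤ α := by
      by_cases hij : i = j
      · rw [if_pos hij, norm_mul, Complex.norm_real, Real.norm_of_nonneg he0]
        exact mul_le_mul_of_nonneg_right hy he0
      · rw [if_neg hij, norm_zero]
        exact hα0
    have hD2 : ‖(if i = j then (β.y x).trace * ((tr T e : ℝ) : ℂ) else 0) -
        (if i = j then ((μ / n : ℝ) : ℂ) * ((β.y x).trace * ((tr T (cc (β.R W X')) : ℝ) : ℂ))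
          else 0)‖ ≤ 2 * nd + 4 * ω * M + μ / lam * tr T (β.pen V) := by
      by_cases hij : i = j
      · rw [if_pos hij, if_pos hij]
        have e3 : (β.y x).trace * ((tr T e : ℝ) : ℂ) -
            ((μ / n : ℝ) : ℂ) * ((β.y x).trace * ((tr T (cc (β.R W X')) : ℝ) : ℂ)) =
            (β.y x).trace * ((tr T e - μ / n * ccR : ℝ) : ℂ) := by
          push_cast
          ring
        rw [e3, norm_mul, Complex.norm_real, Real.norm_eq_abs]
        have h5 : |tr T e - μ / n * ccR| ≤ δ' + μ * (tr T c - tg) + μ * tr T Q := by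
          have h6 : tr T e - μ / n * ccR = (1 / n) * ((n * tr T e - μ * tg) +
              (-(μ * (tr T c - tg) + μ * (ccR - tr T c)))) := by
            field_simp
            ring
          rw [h6, abs_mul, abs_of_nonneg (by positivity : (0:ℝ) ≤ 1 / n)]
          have h7 : |(n * tr T e - μ * tg) + (-(μ * (tr T c - tg) + μ * (ccR - tr T c)))| ≤
              δ' + μ * (tr T c - tg) + μ * tr T Q := by
            have h71 : |μ * (tr T c - tg) + μ * (ccR - tr T c)| ≤
                μ * (tr T c - tg) + μ * tr T Q := by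
              rw [abs_of_nonneg (add_nonneg (mul_nonneg hμ.le (sub_nonneg.2 htgc))
                (mul_nonneg hμ.le (sub_nonneg.2 cT1)))]
              exact add_le_add le_rfl (mul_le_mul_of_nonneg_left cT2 hμ.le)
            refine (abs_add_le _ _).trans ?_
            rw [abs_neg, add_assoc]
            exact add_le_add hT1 h71
          have h8 : (1:ℝ) / n ≤ 1 := by
            rw [div_le_one (by positivity)]
            exact hn'
          exact nm5 (by positivity) h8 (abs_nonneg _) h7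
        have h10 : tr T Q = 1 / (lam * β.N) * tr T (β.pen V) := by rw [hQ, tr_smul]
        have hQT : 0 ≤ tr T Q := by
          rw [h10]; positivity
        have hω4 : 4 / √W = 4 * ω := by rw [hω]; ring
        rw [hω4] at hdef
        have h13 : ‖(β.y x).trace‖ * (tr T c - tg) ≤ 4 * ω * (β.N * ccR) + 2 * nd := by
          have h14 : 4 * ω * (β.N * tr T c) ≤ 4 * ω * (β.N * ccR) := by gcongr
          have h15 : 2 * β.N * δ' = 2 * nd := by rw [hnd]; ring
          linarith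
        have h16 : μ * (‖(β.y x).trace‖ * (tr T c - tg)) ≤ 4 * ω * M + nd := by
          have h17 := mul_le_mul_of_nonneg_left h13 hμ.le
          have h18 : μ * (4 * ω * (β.N * ccR) + 2 * nd) = 4 * ω * M + 2 * μ * nd := by
            rw [hM, hmass]; ring
          have h19 : 2 * μ * nd ≤ nd := by nlinarith
          linarith
        have h20 : ‖(β.y x).trace‖ * |tr T e - μ / n * ccR| ≤
            ‖(β.y x).trace‖ * (δ' + μ * (tr T c - tg) + μ * tr T Q) :=
          mul_le_mul_of_nonneg_left h5 (norm_nonneg _)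
        have h21 : ‖(β.y x).trace‖ * (δ' + μ * (tr T c - tg) + μ * tr T Q) =
            ‖(β.y x).trace‖ * δ' + μ * (‖(β.y x).trace‖ * (tr T c - tg)) +
              ‖(β.y x).trace‖ * (μ * tr T Q) := by ring
        have h22 : ‖(β.y x).trace‖ * δ' ≤ nd := by
          rw [hnd]; exact mul_le_mul_of_nonneg_right hy hδ'0.le
        have h23 : ‖(β.y x).trace‖ * (μ * tr T Q) ≤ μ / lam * tr T (β.pen V) := by
          calc ‖(β.y x).trace‖ * (μ * tr T Q) ≤ β.N * (μ * tr T Q) :=
                mul_le_mul_of_nonneg_right hy (by positivity)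
            _ = μ / lam * tr T (β.pen V) := by
                rw [h10]
                field_simp
        linarith
      · rw [if_neg hij, if_neg hij, sub_zero, norm_zero]
        positivity
    have hp := part1 T x V (β.s0 u i j) _ _ κ lam ω α _ n hκ0 hκ1 hκ h3 h1' hD1 hD2
    refine hp.trans ?_
    have hK := bstepd_num (4 + n) σ α M nd n hn' hσ0 hσ2 hM0 hnd0 hαM hα0 (by positivity)
    have h11 : 4 * √lam * α + 4 * ω * α + n * ω * α ≤ (4 + n) * σ * α :=
      nm1 _ _ _ _ hsl0 hω0.le hα0 (by positivity)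
    obtain ⟨cn8, cn9⟩ := bstepd_cn n
    have h12 : (2 * (4 + (n:ℝ)) + 2) * nd ≤ Cn n * nd :=
      mul_le_mul_of_nonneg_right cn9 hnd0
    have h13 : 4 * ω * M ≤ 4 * σ * M := by
      apply mul_le_mul_of_nonneg_right _ hM0
      rw [hσ]; linarith
    have h14 : (4 + (n:ℝ)) * σ * M + 4 * σ * M ≤ Cn n * σ * M := by
      have : (4 + (n:ℝ)) * σ * M + 4 * σ * M = (8 + n) * (σ * M) := by ring
      rw [this, mul_assoc (Cn n)]
      exact mul_le_mul_of_nonneg_right cn8 (mul_nonneg hσ0 hM0)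
    clear_value σ α M nd
    linarith
  · -- commutators
    intro x hx i j
    obtain ⟨hx1, hx2, hx3⟩ := hX x hx
    have hxn := (hX' x hx1).1
    have hxs := (hX' x hx1).2
    have hxsn := (hX' _ hxs).1
    set G := F j i with hG
    have hGF : G = star (F i j) := (Fstar i j).symm
    have hGV : star G * G ≤ V := hGle i j
    set S := (1 - V) * β.s0 u i j * (1 - V) with hS
    have k1 : ‖T.1.f (1 * G * (star x * x) * S)‖ ≤ 4 * σ * α :=
      hS4' G 1 hGV (norm_le_one zero_le_one le_rfl) _ hx2 i j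
    have k2 : ‖T.1.f (x * G * star x * S)‖ ≤ 4 * σ * α := hS4' G x hGV hxn _ hxs i j
    have k3 : ‖T.1.f (star x * G * x * S)‖ ≤ 4 * σ * α := hS4' G (star x) hGV hxsn _ hx1 i j
    have k4 : ‖T.1.f (x * star x * G * 1 * S)‖ ≤ 4 * σ * α :=
      hS4' G (x * star x) hGV (hX' _ hx3).1 _ h1X' i j
    have hcr := cross_comm hBAS T x (F i j) G S hGF κ _ hκ0 hκ1 k1 k2 k3 k4
    have h2 := hS2 A n X' W β u e hW hnW hβ hloc T x hx1 hxs i j
    obtain ⟨q1, q2, q3, _⟩ := hS3' i j
    have hcs := n2_comm_s hBAS T x V (β.s0 u i j) hxn hVn _ _ κ hκ0 hκ1 q1 q2 h2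
    have e4 : x * (F i j + κ • S) - (F i j + κ • S) * x =
        (x * F i j - F i j * x) + (x * (κ • S) - κ • S * x) := by noncomm_ring
    rw [e4, n2_add hBAS]
    have hK := hNum 208 (by norm_num) cn3
    have h9 : 2 * (8 / W * (β.N * tr T e)) ≤ 16 * ω * α := nm7 W α hW hα0
    have h10 : 80 * (2 * lam * (β.N * tr T e)) ≤ 160 * √lam * α := nm8 lam α hlam hlam1 hα0
    have h11 : (2 * 208 : ℝ) * nd ≤ Cn n * nd := mul_le_mul_of_nonneg_right cn4 hnd0
    have h12 : 8 * (4 * σ * α) + 16 * ω * α + 160 * √lam * α ≤ 208 * σ * α :=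
      nm2 _ _ _ hsl0 hω0.le hα0
    linarith
  · -- defect
    have hdec : defect T (fun i j => F i j + κ • ((1 - V) * β.s0 u i j * (1 - V))) =
        defect T F + (n * ∑ i, tr T (κ • ((1 - V) * β.s0 u i i * (1 - V))) -
        ∑ i, ∑ j, (n2 T (κ • ((1 - V) * β.s0 u i j * (1 - V))) +
          2 * (T.1.f (star (F i j) * (κ • ((1 - V) * β.s0 u i j * (1 - V))))).re)) := by
      unfold defect dsum
      rw [tr_sum, tr_sum]
      simp only [tr_add, n2_add hBAS, Finset.sum_add_distrib, mul_add]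
      ring
    rw [hdec]
    have h1 : ∀ i, tr T (κ • ((1 - V) * β.s0 u i i * (1 - V))) ≤ (1 + ω) * α := by
      intro i
      rw [tr_smul]
      have a1 := tr_compress hBAS T V (β.s0 u i i) hV0 hV1 (hS0p i)
      have a2 := (abs_le.1 (s0T T i).1).2
      have a3 : 0 ≤ tr T ((1 - V) * β.s0 u i i * (1 - V)) := by
        have h5 := star_left_conjugate_nonneg (hS0p i) (1 - V)
        rw [hVs] at h5
        have := b1 0 _ h5
        rwa [tr0] at this
      have a4 : tr T (β.s0 u i i) ≤ (1 + ω) * α := by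
        rw [hα]
        linarith
      exact nm5 hκ0 hκ1 a3 (a1.trans a4)
    have h2 : ∀ i j, α - nd - (3 * ω + 18 * √lam + 8 * n * ω + 8 * σ) * α ≤
        n2 T (κ • ((1 - V) * β.s0 u i j * (1 - V))) +
          2 * (T.1.f (star (F i j) * (κ • ((1 - V) * β.s0 u i j * (1 - V))))).re := by
      intro i j
      obtain ⟨q1, q2, q3, _⟩ := hS3' i j
      have h5 := hS5 A n X' W β u e hW hnW hN hloc T i j
      have h6 : α - nd - 3 * ω * α ≤ n2 T (β.s0 u i j) := by
        have a1 : 3 / √W = 3 * ω := by rw [hω]; ring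
        rw [a1] at h5
        have a2 : α - nd ≤ β.N * tr T (e * e) := by
          rw [hα, hnd, ← mul_sub]
          apply mul_le_mul_of_nonneg_left _ hNr.le
          linarith
        rw [← hα] at h5
        linarith
      have h7 := n2_lower hBAS T V (β.s0 u i j) hVn hVn' lam α κ nd ω n hα0 hlam.le hκ0 hκ1 hκ
        (by positivity) (by rw [hα]; exact q1) (by rw [hα]; exact q2) (by rw [hα]; exact q3) h6
      have h8 : ‖T.1.f (1 * F j i * 1 * ((1 - V) * β.s0 u i j * (1 - V)))‖ ≤ 4 * σ * α :=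
        hS4' (F j i) 1 (hGle i j) (norm_le_one zero_le_one le_rfl) _ h1X' i j
      have h9 : (T.1.f (star (F i j) * (κ • ((1 - V) * β.s0 u i j * (1 - V))))).re ≥
          - (4 * σ * α) := by
        rw [mul_smul_comm, f_smul, Complex.re_ofReal_mul, Fstar i j]
        rw [one_mul, mul_one] at h8
        have a1 := Complex.abs_re_le_norm (T.1.f (F j i * ((1 - V) * β.s0 u i j * (1 - V))))
        have a2 := neg_abs_le (T.1.f (F j i * ((1 - V) * β.s0 u i j * (1 - V)))).re
        have a3 : 0 ≤ 4 * σ * α := by positivity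
        exact nm6 hκ0 hκ1 a3 (by linarith)
      exact nm9 _ _ _ _ _ _ _ _ h7 h9
    have h3 : ∑ i, tr T (κ • ((1 - V) * β.s0 u i i * (1 - V))) ≤ n * ((1 + ω) * α) := by
      calc ∑ i, tr T (κ • ((1 - V) * β.s0 u i i * (1 - V))) ≤ ∑ _i : Fin n, (1 + ω) * α :=
            Finset.sum_le_sum fun i _ => h1 i
        _ = n * ((1 + ω) * α) := by simp
    have h4 : (n:ℝ) * (n * (α - nd - (3 * ω + 18 * √lam + 8 * n * ω + 8 * σ) * α)) ≤
        ∑ i, ∑ j, (n2 T (κ • ((1 - V) * β.s0 u i j * (1 - V))) +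
          2 * (T.1.f (star (F i j) * (κ • ((1 - V) * β.s0 u i j * (1 - V))))).re) := by
      calc (n:ℝ) * (n * (α - nd - (3 * ω + 18 * √lam + 8 * n * ω + 8 * σ) * α))
          = ∑ _i : Fin n, ∑ _j : Fin n,
              (α - nd - (3 * ω + 18 * √lam + 8 * n * ω + 8 * σ) * α) := by
                rw [Finset.sum_const, Finset.sum_const, Finset.card_univ, Fintype.card_fin,
                  nsmul_eq_mul, nsmul_eq_mul]
        _ ≤ _ := Finset.sum_le_sum fun i _ => Finset.sum_le_sum fun j _ => h2 i j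
    have h5 : n * ∑ i, tr T (κ • ((1 - V) * β.s0 u i i * (1 - V))) ≤
        n * (n * ((1 + ω) * α)) := by gcongr
    have hnn : (0:ℝ) ≤ n := by positivity
    have hK := hNum ((n:ℝ) ^ 2 * (8 * n + 30)) (by positivity) cn5
    have h11 : (2 * ((n:ℝ) ^ 2 * (8 * n + 30)) + (n:ℝ) ^ 2) * nd ≤ Cn n * nd :=
      mul_le_mul_of_nonneg_right cn6 hnd0
    have h12 : (n:ℝ) * (n * ((1 + ω) * α)) -
        (n:ℝ) * (n * (α - nd - (3 * ω + 18 * √lam + 8 * n * ω + 8 * σ) * α)) ≤
        (n:ℝ) ^ 2 * (8 * n + 30) * σ * α + (n:ℝ) ^ 2 * nd :=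
      nm3 _ _ _ _ _ hsl0 hω0.le hα0 hnn
    have h13 : (2 * ((n:ℝ) ^ 2 * (8 * n + 30)) + (n:ℝ) ^ 2) * nd =
      2 * ((n:ℝ) ^ 2 * (8 * n + 30)) * nd + (n:ℝ) ^ 2 * nd := by ring
    rw [h13] at h11
    linarith
  · -- trace of the sum
    have h1 : tr T (dsum (fun i j => κ • ((1 - V) * β.s0 u i j * (1 - V)))) ≤
        ∑ _i : Fin n, (1 + ω) * α := by
      unfold dsum
      rw [tr_sum]
      refine Finset.sum_le_sum fun i _ => ?_
      rw [tr_smul]
      have a1 := tr_compress hBAS T V (β.s0 u i i) hV0 hV1 (hS0p i)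
      have a2 := (abs_le.1 (s0T T i).1).2
      have a3 : 0 ≤ tr T ((1 - V) * β.s0 u i i * (1 - V)) := by
        have h5 := star_left_conjugate_nonneg (hS0p i) (1 - V)
        rw [hVs] at h5
        have := b1 0 _ h5
        rwa [tr0] at this
      have a4 : tr T (β.s0 u i i) ≤ (1 + ω) * α := by
        rw [hα]
        linarith
      exact nm5 hκ0 hκ1 a3 (a1.trans a4)
    have h2 : ∑ _i : Fin n, (1 + ω) * α = (1 + ω) * (n * α) := by
      rw [Finset.sum_const, Finset.card_univ, Fintype.card_fin, nsmul_eq_mul]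
      ring
    rw [h2] at h1
    have h3 : (1 + ω) * (n * α) ≤ 2 * (n * α) := by
      apply mul_le_mul_of_nonneg_right (by linarith) (by positivity)
    have h4 : 2 * nd ≤ Cn n * nd := mul_le_mul_of_nonneg_right cn7 hnd0
    linarith

end Pool.Agent.H270R2.NU
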