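import Pool.Agent.H667R5.NX.NU.StubsI

/-!
# Non-unital Toms-Winter: DEFICIT, the part of a block not seen by `g`
-/

set_option autoImplicit false

namespace Pool.Agent.H270R2.NU

open Filter Topology Pool.Agent.H327R4.Pure Pool.Agent.H667R5.TW
open scoped CStarAlgebra ComplexOrder Matrix

universe u

theorem t_DEFI (hBAS : StBAS.{u}) (h0 : StS0.{u}) (h1 : StS1.{u}) : StDEFI.{u} := by
  intro E _ _ _ X W β c g x ε hW hV hc0 hc1 hR hg0 hg1 hx hε hb T
  obtain ⟨hmono, -, -, hn2, -, -, -, -, -⟩ := hBAS E T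
  have hN : 0 < β.N := hV.1
  have hNr : (1 : ℝ) ≤ β.N := by exact_mod_cast hN
  set s : E := CFC.sqrt c with hs
  have hs0 : 0 ≤ s := CFC.sqrt_nonneg c
  have hss : s * s = c := CFC.sqrt_mul_sqrt_self c hc0
  have hsa : star s = s := hs0.isSelfAdjoint
  have hga : star g = g := hg0.isSelfAdjoint
  have hgg0 : 0 ≤ g * g := by
    have := star_mul_self_nonneg g
    rwa [hga] at this
  have hgn : ‖g‖ ≤ 1 := (CStarAlgebra.norm_le_one_iff_of_nonneg g hg0).2 hg1
  have hgg1 : g * g ≤ 1 := by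
    apply (CStarAlgebra.norm_le_one_iff_of_nonneg (g * g) hgg0).1
    calc ‖g * g‖ ≤ ‖g‖ * ‖g‖ := norm_mul_le _ _
      _ ≤ 1 * 1 := by gcongr
      _ = 1 := one_mul 1
  have hk0 : 0 ≤ 1 - g * g := sub_nonneg.2 hgg1
  have hk1 : 1 - g * g ≤ 1 := sub_le_self _ hgg0
  set h : E := CFC.sqrt (1 - g * g) with hh
  have hh0 : 0 ≤ h := CFC.sqrt_nonneg _
  have hhh : h * h = 1 - g * g := CFC.sqrt_mul_sqrt_self _ hk0
  have hha : star h = h := hh0.isSelfAdjoint
  have hW1 : (1 : ℝ) ≤ W := by linarith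
  have hW2 : ((1 : ℕ) : ℝ) ^ 2 ≤ W := by norm_num; linarith
  have hconj : ∀ a b : E, a ≤ b → h * a * h ≤ h * b * h := by
    intro a b hab
    have := star_left_conjugate_le_conjugate hab h
    rwa [hha] at this
  -- the local matrix unit
  have hloc1 : IsLoc (β.R W X) (fun _ : Fin 1 => s * h) (h * c * h) := by
    refine ⟨?_, ?_, ?_, ?_⟩
    · have := hconj 0 c hc0
      simpa using this
    · have := hconj c 1 hc1
      rw [mul_one, hhh] at this
      exact this.trans hk1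
    · intro i j
      rw [if_pos (Subsingleton.elim i j), star_mul, hsa, hha, ← hss]
      noncomm_ring
    · intro i
      have e : star (s * h) * β.R W X * (s * h) = h * (s * β.R W X * s) * h := by
        rw [star_mul, hsa, hha]
        noncomm_ring
      rw [e]
      exact hconj _ _ hR
  have hloc2 : IsLoc (β.R W X) (fun _ : Fin 1 => s) c := by
    refine ⟨hc0, hc1, ?_, ?_⟩
    · intro i j
      rw [if_pos (Subsingleton.elim i j), hsa, hss]
    · intro i
      rw [hsa]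
      exact hR
  -- norms
  have hcn : ‖c‖ ≤ 1 := (CStarAlgebra.norm_le_one_iff_of_nonneg c hc0).2 hc1
  have hsn : ‖s‖ ≤ 1 := by
    have e : ‖s‖ * ‖s‖ = ‖c‖ := by
      rw [← hss, ← CStarRing.norm_star_mul_self, hsa]
    nlinarith [norm_nonneg s]
  have hbs : ∀ l, ‖β.b l * s‖ ≤ 2 := by
    intro l
    obtain ⟨-, -, h3, -⟩ := h0 E 1 X W β (fun _ : Fin 1 => s) c hW1 hW2 hN hloc2
    have hgl := h3 l l 0
    have hle1 : 1 / (√W * β.N) ≤ (1 : ℝ) := by
      rw [div_le_one (by positivity)]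
      have : (1 : ℝ) ≤ √W := Real.one_le_sqrt.2 hW1
      nlinarith
    have e : star (β.b l * s) * (β.b l * s) = c + s * (β.g l l * s) := by
      unfold Blk.g
      rw [if_pos rfl, star_mul, hsa, ← hss]
      noncomm_ring
    have e2 : ‖β.b l * s‖ * ‖β.b l * s‖ = ‖c + s * (β.g l l * s)‖ := by
      rw [← e, CStarRing.norm_star_mul_self]
    have e3 : ‖c + s * (β.g l l * s)‖ ≤ 2 := by
      calc ‖c + s * (β.g l l * s)‖ ≤ ‖c‖ + ‖s * (β.g l l * s)‖ := norm_add_le _ _
        _ ≤ ‖c‖ + ‖s‖ * ‖β.g l l * s‖ := by gcongr; exact norm_mul_le _ _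
        _ ≤ 1 + 1 * 1 := by gcongr; exact hgl.trans hle1
        _ = 2 := by norm_num
    nlinarith [norm_nonneg (β.b l * s)]
  -- traces
  have htr : tr T (h * c * h) = tr T c - tr T (s * (g * g) * s) := by
    unfold tr
    have e1 : T.1.f (h * c * h) = T.1.f (c * (1 - g * g)) := by
      rw [mul_assoc, T.1.tr, mul_assoc, hhh]
    have e2 : T.1.f (s * (g * g) * s) = T.1.f (c * (g * g)) := by
      rw [T.1.tr, ← mul_assoc, hss]
    rw [e1, e2, mul_sub, mul_one, map_sub, Complex.sub_re]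
  have htr0 : 0 ≤ tr T (h * c * h) := by
    have := hmono 0 _ hloc1.e0
    have z : tr T (0 : E) = 0 := by unfold tr; simp
    rwa [z] at this
  have htr1 : tr T (h * c * h) ≤ tr T c := by
    rw [htr]
    have z : tr T (0 : E) = 0 := by unfold tr; simp
    have h2 : 0 ≤ s * (g * g) * s := by
      have := star_left_conjugate_nonneg hgg0 s
      rwa [hsa] at this
    have := hmono 0 _ h2
    rw [z] at this
    linarith
  -- S1
  have hS1 := h1 E 1 X W β (fun _ : Fin 1 => s * h) (h * c * h) hW1 hW2 hV hloc1 T x hx 0 0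
  rw [if_pos rfl] at hS1
  have hTx : ‖T.1.f (x * β.s0 (fun _ : Fin 1 => s * h) 0 0)‖ ≤ 2 * β.N * ε := by
    have e : x * β.s0 (fun _ : Fin 1 => s * h) 0 0 =
        ∑ l, (x * β.b l * s * (1 - g * g)) * star (β.b l * s) := by
      unfold Blk.s0 Blk.amp
      rw [Finset.mul_sum]
      refine Finset.sum_congr rfl fun l _ => ?_
      rw [star_mul, star_mul, hsa, hha, ← hhh]
      noncomm_ring
    rw [e, map_sum]
    calc ‖∑ l, T.1.f ((x * β.b l * s * (1 - g * g)) * star (β.b l * s))‖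
        ≤ ∑ l, ‖T.1.f ((x * β.b l * s * (1 - g * g)) * star (β.b l * s))‖ := norm_sum_le _ _
      _ ≤ ∑ _l : Fin β.N, ε * 2 := by
          refine Finset.sum_le_sum fun l _ => ?_
          refine (hn2 _).2.2.2.trans ?_
          refine (norm_mul_le _ _).trans ?_
          rw [norm_star]
          exact mul_le_mul (hb l) (hbs l) (norm_nonneg _) hε
      _ = 2 * β.N * ε := by
          rw [Finset.sum_const, Finset.card_univ, Fintype.card_fin, nsmul_eq_mul]
          ring
  rw [← htr]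
  have hyt : ‖(β.y x).trace‖ * tr T (h * c * h) =
      ‖(β.y x).trace * ((tr T (h * c * h) : ℝ) : ℂ)‖ := by
    rw [norm_mul, Complex.norm_real, Real.norm_eq_abs, abs_of_nonneg htr0]
  rw [hyt]
  have hW0 : 0 ≤ 4 / √W := by positivity
  have hfin : 4 / √W * (β.N * tr T (h * c * h)) ≤ 4 / √W * (β.N * tr T c) := by gcongr
  calc ‖(β.y x).trace * ((tr T (h * c * h) : ℝ) : ℂ)‖
      = ‖T.1.f (x * β.s0 (fun _ : Fin 1 => s * h) 0 0) -
          (T.1.f (x * β.s0 (fun _ : Fin 1 => s * h) 0 0) -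
            (β.y x).trace * ((tr T (h * c * h) : ℝ) : ℂ))‖ := by congr 1; ring
    _ ≤ ‖T.1.f (x * β.s0 (fun _ : Fin 1 => s * h) 0 0)‖ +
          ‖T.1.f (x * β.s0 (fun _ : Fin 1 => s * h) 0 0) -
            (β.y x).trace * ((tr T (h * c * h) : ℝ) : ℂ)‖ := norm_sub_le _ _
    _ ≤ 2 * β.N * ε + 4 / √W * (β.N * tr T (h * c * h)) := add_le_add hTx hS1
    _ ≤ 4 / √W * (β.N * tr T c) + 2 * β.N * ε := by linarith

end Pool.Agent.H270R2.NU
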