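import Pool.Agent.H667R5.NX.NU.StubsII
import Pool.Agent.H667R5.NX.NU.TAUD

/-!
# Non-unital Toms-Winter, task FIND: local `Z`-stability from (SI) and matrix units
-/

set_option autoImplicit false

namespace Pool.Agent.H270R2.NU

open Pool.Agent.H327R4.Pure
open Pool.Agent.H667R5.TW (tr)

universe u

namespace FIND

variable {E : Type u} [CStarAlgebra E]

/-- compression, on the left of `x` -/
theorem L1 {p u x : E} {t : ℝ} (hp : ‖p‖ ≤ 1) (hu : ‖u‖ ≤ 1) (h1 : ‖p * x - x‖ ≤ t)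
    (h2 : ‖u * x - x * u‖ ≤ t) : ‖p * u * p * x - u * x‖ ≤ 4 * t := by
  have e : p * u * p * x - u * x = p * u * (p * x - x) + p * (u * x - x * u) + (p * x - x) * u +
      -(u * x - x * u) := by noncomm_ring
  rw [e]
  have a1 := norm_mul_le_of_le (norm_mul_le_of_le hp hu) h1
  have a2 := norm_mul_le_of_le hp h2
  have a3 := norm_mul_le_of_le h1 hu
  have a4 : ‖-(u * x - x * u)‖ ≤ t := by rwa [norm_neg]
  refine (norm_add_le_of_le (norm_add_le_of_le (norm_add_le_of_le a1 a2) a3) a4).trans ?_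
  linarith

/-- compression, on the right of `x` -/
theorem L2 {p u x : E} {t : ℝ} (hp : ‖p‖ ≤ 1) (hu : ‖u‖ ≤ 1) (h1 : ‖x * p - x‖ ≤ t)
    (h2 : ‖u * x - x * u‖ ≤ t) : ‖x * (p * u * p) - x * u‖ ≤ 4 * t := by
  have e : x * (p * u * p) - x * u = (x * p - x) * (u * p) + (-(u * x - x * u)) * p +
      u * (x * p - x) + (u * x - x * u) := by noncomm_ring
  rw [e]
  have a0 : ‖-(u * x - x * u)‖ ≤ t := by rwa [norm_neg]
  have a1 := norm_mul_le_of_le h1 (norm_mul_le_of_le hu hp)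
  have a2 := norm_mul_le_of_le a0 hp
  have a3 := norm_mul_le_of_le hu h1
  refine (norm_add_le_of_le (norm_add_le_of_le (norm_add_le_of_le a1 a2) a3) h2).trans ?_
  linarith

theorem nc {p u : E} (hp : ‖p‖ ≤ 1) (hu : ‖u‖ ≤ 1) : ‖p * u * p‖ ≤ 1 := by
  have := norm_mul_le_of_le (norm_mul_le_of_le hp hu) hp
  linarith

theorem LC {p u x : E} {t : ℝ} (hp : ‖p‖ ≤ 1) (hu : ‖u‖ ≤ 1) (h1 : ‖p * x - x‖ ≤ t)
    (h1' : ‖x * p - x‖ ≤ t) (h2 : ‖u * x - x * u‖ ≤ t) :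
    ‖p * u * p * x - x * (p * u * p)‖ ≤ 9 * t := by
  have e : p * u * p * x - x * (p * u * p) = (p * u * p * x - u * x) + (u * x - x * u) +
      -(x * (p * u * p) - x * u) := by noncomm_ring
  rw [e]
  have a1 := L1 hp hu h1 h2
  have a2 : ‖-(x * (p * u * p) - x * u)‖ ≤ 4 * t := by
    rw [norm_neg]
    exact L2 hp hu h1' h2
  refine (norm_add_le_of_le (norm_add_le_of_le a1 h2) a2).trans ?_
  linarith

theorem L3 {p u v x : E} {t : ℝ} (hp : ‖p‖ ≤ 1) (hu : ‖u‖ ≤ 1) (hv : ‖v‖ ≤ 1)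
    (h1 : ‖p * x - x‖ ≤ t) (h2 : ‖u * x - x * u‖ ≤ t) (h3 : ‖v * x - x * v‖ ≤ t) :
    ‖p * u * p * (p * v * p) * x - u * v * x‖ ≤ 10 * t := by
  have e : p * u * p * (p * v * p) * x - u * v * x =
      p * u * p * (p * v * p * x - v * x) + p * u * p * (v * x - x * v) +
      (p * u * p * x - u * x) * v + u * (-(v * x - x * v)) := by noncomm_ring
  rw [e]
  have a0 : ‖-(v * x - x * v)‖ ≤ t := by rwa [norm_neg]
  have a1 := norm_mul_le_of_le (nc hp hu) (L1 hp hv h1 h3)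
  have a2 := norm_mul_le_of_le (nc hp hu) h3
  have a3 := norm_mul_le_of_le (L1 hp hu h1 h2) hv
  have a4 := norm_mul_le_of_le hu a0
  refine (norm_add_le_of_le (norm_add_le_of_le (norm_add_le_of_le a1 a2) a3) a4).trans ?_
  linarith

/-- rescaling -/
theorem scal {s : E} {t : ℝ} (ht : 0 < t) (ht1 : t ≤ 1) (hs : ‖s‖ ≤ 1 + t) :
    ‖((1 + t)⁻¹ : ℝ) • s‖ ≤ 1 ∧
      ‖star (((1 + t)⁻¹ : ℝ) • s) * (((1 + t)⁻¹ : ℝ) • s) - star s * s‖ ≤ 3 * t := by
  have h0 : 0 < 1 + t := by linarith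
  have h1 : 0 < (1 + t)⁻¹ := inv_pos.2 h0
  have h2 : (1 + t)⁻¹ * (1 + t) = 1 := inv_mul_cancel₀ h0.ne'
  constructor
  · rw [norm_smul, Real.norm_of_nonneg h1.le]
    calc (1 + t)⁻¹ * ‖s‖ ≤ (1 + t)⁻¹ * (1 + t) := mul_le_mul_of_nonneg_left hs h1.le
      _ = 1 := h2
  · have e : star (((1 + t)⁻¹ : ℝ) • s) * (((1 + t)⁻¹ : ℝ) • s) - star s * s =
        ((1 + t)⁻¹ * (1 + t)⁻¹ - 1) • (star s * s) := by
      rw [star_smul, star_trivial, smul_mul_smul_comm, sub_smul, one_smul]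
    rw [e, norm_smul, CStarRing.norm_star_mul_self]
    have h3 : (1 + t)⁻¹ ≤ 1 := inv_le_one_of_one_le₀ (by linarith)
    have h4 : (1 + t)⁻¹ * (1 + t)⁻¹ ≤ 1 := mul_le_one₀ h3 h1.le h3
    rw [Real.norm_of_nonpos (by linarith)]
    have h5 : ‖s‖ * ‖s‖ ≤ (1 + t) * (1 + t) :=
      mul_le_mul hs hs (norm_nonneg _) h0.le
    calc -((1 + t)⁻¹ * (1 + t)⁻¹ - 1) * (‖s‖ * ‖s‖) ≤
        -((1 + t)⁻¹ * (1 + t)⁻¹ - 1) * ((1 + t) * (1 + t)) :=
          mul_le_mul_of_nonneg_left h5 (by linarith)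
      _ = (1 + t) * (1 + t) - ((1 + t)⁻¹ * (1 + t)) * ((1 + t)⁻¹ * (1 + t)) := by ring
      _ = (1 + t) * (1 + t) - 1 := by rw [h2, one_mul]
      _ ≤ 3 * t := by nlinarith

/-- the estimates for one element `x` -/
theorem one {p b c₁ c₂ e s s' x : E} {t M r : ℝ} (ht : 0 < t) (hM : 1 ≤ M)
    (hr0 : 0 ≤ r) (hr1 : r ≤ 1) (hs' : s' = r • s) (hss : ‖star s' * s' - star s * s‖ ≤ 3 * t)
    (hp : ‖p‖ ≤ 1) (hpp : star p = p) (hb : ‖b‖ ≤ 1) (h1 : ‖c₁‖ ≤ 1) (h2 : ‖c₂‖ ≤ 1)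
    (he : ‖e‖ ≤ 1) (hs : ‖s‖ ≤ 2) (hx : ‖x‖ ≤ M)
    (hpx : ‖p * x - x‖ ≤ t) (hxp : ‖x * p - x‖ ≤ t) (hbx : ‖b * x - x‖ ≤ t)
    (hc1 : ‖c₁ * x - x * c₁‖ ≤ t) (hc2 : ‖c₂ * x - x * c₂‖ ≤ t)
    (hc3 : ‖star c₂ * x - x * star c₂‖ ≤ t) (hex : ‖e * x - x * e‖ ≤ t)
    (hsx : ‖s * x - x * s‖ ≤ t) (hse : ‖star s * s - b * e * b‖ ≤ t) (hcs : ‖c₁ * s - s‖ ≤ t)
    (hw : ‖c₁ * star c₂ * p‖ ≤ t) (r1 : c₂ * star c₂ = c₁ * c₁)
    (r2 : c₁ * c₁ + star c₂ * c₂ + e = 1) :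
    ‖p * c₁ * p * x - x * (p * c₁ * p)‖ ≤ 28 * t * M ∧
    ‖p * c₂ * p * x - x * (p * c₂ * p)‖ ≤ 28 * t * M ∧ ‖s' * x - x * s'‖ ≤ 28 * t * M ∧
    ‖p * c₁ * p * star (p * c₂ * p) * x‖ ≤ 28 * t * M ∧
    ‖(p * c₂ * p * star (p * c₂ * p) - p * c₁ * p * (p * c₁ * p)) * x‖ ≤ 28 * t * M ∧
    ‖(p * c₁ * p * (p * c₁ * p) + star (p * c₂ * p) * (p * c₂ * p) + star s' * s' - 1) * x‖ ≤
      28 * t * M ∧ ‖(p * c₁ * p * s' - s') * x‖ ≤ 28 * t * M := by
  have htM : t ≤ t * M := le_mul_of_one_le_right ht.le hM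
  have h2' : ‖star c₂‖ ≤ 1 := by rwa [norm_star]
  have est : star (p * c₂ * p) = p * star c₂ * p := by
    rw [star_mul, star_mul, hpp, mul_assoc]
  rw [est]
  refine ⟨?_, ?_, ?_, ?_, ?_, ?_, ?_⟩
  · have := LC hp h1 hpx hxp hc1
    linarith
  · have := LC hp h2 hpx hxp hc2
    linarith
  · rw [hs', smul_mul_assoc, mul_smul_comm, ← smul_sub, norm_smul, Real.norm_of_nonneg hr0]
    have := mul_le_mul hr1 hsx (norm_nonneg _) zero_le_one
    linarith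
  · have a1 := L3 hp h1 h2' hpx hc1 hc3
    have a2 : ‖c₁ * star c₂ * (x - p * x)‖ ≤ 1 * 1 * t := by
      refine norm_mul_le_of_le (norm_mul_le_of_le h1 h2') ?_
      rwa [norm_sub_rev]
    have a3 := norm_mul_le_of_le hw hx
    have e1 : p * c₁ * p * (p * star c₂ * p) * x =
        (p * c₁ * p * (p * star c₂ * p) * x - c₁ * star c₂ * x) +
        c₁ * star c₂ * (x - p * x) + c₁ * star c₂ * p * x := by noncomm_ring
    rw [e1]
    refine (norm_add_le_of_le (norm_add_le_of_le a1 a2) a3).trans ?_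
    linarith
  · have a1 := L3 hp h2 h2' hpx hc2 hc3
    have a2 := L3 hp h1 h1 hpx hc1 hc1
    have e1 : (p * c₂ * p * (p * star c₂ * p) - p * c₁ * p * (p * c₁ * p)) * x =
        (p * c₂ * p * (p * star c₂ * p) * x - c₂ * star c₂ * x) -
        (p * c₁ * p * (p * c₁ * p) * x - c₁ * c₁ * x) := by
      rw [r1]
      noncomm_ring
    rw [e1]
    refine (norm_sub_le_of_le a1 a2).trans ?_
    linarith
  · have a1 := L3 hp h1 h1 hpx hc1 hc1
    have a2 := L3 hp h2' h2 hpx hc3 hc2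
    have a3 := norm_mul_le_of_le hss hx
    have a4 := norm_mul_le_of_le hse hx
    have a5 := L1 hb he hbx hex
    have e1 : (p * c₁ * p * (p * c₁ * p) + p * star c₂ * p * (p * c₂ * p) + star s' * s' - 1) * x
        = (p * c₁ * p * (p * c₁ * p) * x - c₁ * c₁ * x) +
        (p * star c₂ * p * (p * c₂ * p) * x - star c₂ * c₂ * x) +
        (star s' * s' - star s * s) * x + (star s * s - b * e * b) * x +
        (b * e * b * x - e * x) := by
      rw [← r2]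
      noncomm_ring
    rw [e1]
    refine (norm_add_le_of_le (norm_add_le_of_le (norm_add_le_of_le (norm_add_le_of_le a1 a2) a3)
      a4) a5).trans ?_
    linarith
  · have a1 := norm_mul_le_of_le (nc hp h1) hsx
    have a2 := norm_mul_le_of_le (L1 hp h1 hpx hc1) hs
    have a0 : ‖-(s * x - x * s)‖ ≤ t := by rwa [norm_neg]
    have a3 := norm_mul_le_of_le h1 a0
    have a4 := norm_mul_le_of_le hcs hx
    have e1 : (p * c₁ * p * s - s) * x = p * c₁ * p * (s * x - x * s) +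
        (p * c₁ * p * x - c₁ * x) * s + c₁ * (-(s * x - x * s)) + (c₁ * s - s) * x := by
      noncomm_ring
    have a5 : ‖(p * c₁ * p * s - s) * x‖ ≤ 1 * t + 4 * t * 2 + 1 * t + t * M := by
      rw [e1]
      exact norm_add_le_of_le (norm_add_le_of_le (norm_add_le_of_le a1 a2) a3) a4
    rw [hs', mul_smul_comm, ← smul_sub, smul_mul_assoc, norm_smul, Real.norm_of_nonneg hr0]
    have := mul_le_mul hr1 a5 (norm_nonneg _) zero_le_one
    linarith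

end FIND

open FIND in
theorem t_FIND : StFIND.{u} := by
  intro E _ _ _ D hC hMC hSI hT m x ε hx hε
  classical
  have nle : ∀ a : E, 0 ≤ a → a ≤ 1 → ‖a‖ ≤ 1 := fun a h0 h1 =>
    (CStarAlgebra.norm_le_one_iff_of_nonneg a h0).2 h1
  have sq : ∀ g : E, 0 ≤ g → g ≤ 1 → 0 ≤ g * g ∧ g * g ≤ 1 := by
    intro g h0 h1
    have h2 : 0 ≤ g * g := (IsSelfAdjoint.of_nonneg h0).mul_self_nonneg
    refine ⟨h2, (CStarAlgebra.norm_le_one_iff_of_nonneg _ h2).1 ?_⟩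
    have := norm_mul_le_of_le (nle g h0 h1) (nle g h0 h1)
    linarith
  -- a nonzero weight `a`
  obtain ⟨x0, hx0, hx0'⟩ := hC.nonzero
  have hx0n : 0 < ‖x0‖ := norm_pos_iff.2 hx0'
  obtain ⟨a, haD, ha0, ha1, hag⟩ := t_AUD E D hC.toCore0 {x0} (‖x0‖ / 2) (by simpa using hx0)
    (by positivity)
  have ha : a * a ≠ 0 := by
    intro h
    have h1 := (hag x0 (by simp)).1
    rw [h, sub_zero, mul_one] at h1
    linarith
  obtain ⟨η, hη, hlow⟩ := hC.low (a * a) (hC.mul_left a a haD) (sq a ha0 ha1).1 ha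
  have hN1 : ∀ T : TS E, N1 D T → η / 2 ≤ tr T (a * a) := by
    intro T hT1
    obtain ⟨d, hd, hd0, hd1, hd2⟩ := hT1 (1 / 2) (by norm_num)
    have h1 := hlow T d hd hd0 hd1
    nlinarith
  -- constants
  obtain ⟨M, hM1, hM⟩ : ∃ M : ℝ, 1 ≤ M ∧ ∀ j, ‖x j‖ ≤ M := by
    refine ⟨1 + ∑ j, ‖x j‖, ?_, fun j => ?_⟩
    · have : 0 ≤ ∑ j, ‖x j‖ := Finset.sum_nonneg fun _ _ => norm_nonneg _
      linarith
    · have := Finset.single_le_sum (f := fun j => ‖x j‖) (fun _ _ => norm_nonneg _)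
        (Finset.mem_univ j)
      linarith
  have hM0 : 0 < M := by linarith
  obtain ⟨t, ht, ht1, htε⟩ : ∃ t : ℝ, 0 < t ∧ t ≤ 1 ∧ 28 * t * M ≤ ε := by
    refine ⟨min 1 (ε / (28 * M)), lt_min one_pos (by positivity), min_le_left _ _, ?_⟩
    calc 28 * min 1 (ε / (28 * M)) * M ≤ 28 * (ε / (28 * M)) * M := by
          have := min_le_right 1 (ε / (28 * M))
          gcongr
      _ = ε := by field_simp
  obtain ⟨b, G, k, y, K, δ, hbD, hb0, hb1, hGD, hG0, hG1, hδ, hyD, hbx, hS⟩ :=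
    hSI m x a (η / 8) t hx haD ha0 ha1 (by positivity) ht
  obtain ⟨g, hgD, hg0, hg1, hgx⟩ := t_AUD E D hC.toCore0 (Finset.image x Finset.univ) t
    (by
      intro z hz
      obtain ⟨j, -, rfl⟩ := Finset.mem_image.1 hz
      exact hx j) ht
  obtain ⟨p, hpg⟩ : ∃ p : E, p = g * g := ⟨_, rfl⟩
  have hpD : p ∈ D := hpg ▸ hC.mul_left g g hgD
  have hp0 : 0 ≤ p := hpg ▸ (sq g hg0 hg1).1
  have hp1 : p ≤ 1 := hpg ▸ (sq g hg0 hg1).2
  have hpx : ∀ j, ‖p * x j - x j‖ ≤ t ∧ ‖x j * p - x j‖ ≤ t := by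
    intro j
    have h1 := hgx (x j) (Finset.mem_image_of_mem _ (Finset.mem_univ j))
    rw [← hpg, mul_sub, mul_one, sub_mul, one_mul] at h1
    rw [norm_sub_rev, norm_sub_rev (x j * p)]
    exact ⟨h1.2, h1.1⟩
  -- matrix units
  obtain ⟨τ, hτ, hτt, hτδ, hτη⟩ : ∃ τ : ℝ, 0 < τ ∧ τ ≤ t ∧ τ ≤ δ ∧ τ ≤ η / 8 :=
    ⟨min t (min δ (η / 8)), lt_min ht (lt_min hδ (by positivity)), min_le_left _ _,
      (min_le_right _ _).trans (min_le_left _ _), (min_le_right _ _).trans (min_le_right _ _)⟩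
  obtain ⟨c₁, c₂, e, hc0, hc1, hc2, he0, he1, r1, r2, hw, hcom, htr⟩ :=
    hMC (m + (m + k)) 3 (Fin.append x (Fin.append (fun j => star (x j)) y)) ![a, G, p] K τ
      (by
        intro j
        refine Fin.addCases (fun i => ?_) (fun i => ?_) j
        · rw [Fin.append_left]
          exact hx i
        · rw [Fin.append_right]
          refine Fin.addCases (fun i' => ?_) (fun i' => ?_) i
          · rw [Fin.append_left]
            exact hC.star _ (hx i')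
          · rw [Fin.append_right]
            exact hyD i')
      (by
        intro i
        fin_cases i
        · exact ⟨haD, ha0, ha1⟩
        · exact ⟨hGD, hG0, hG1⟩
        · exact ⟨hpD, hp0, hp1⟩) hτ
  have hcx : ∀ j, ‖c₁ * x j - x j * c₁‖ ≤ t ∧ ‖c₂ * x j - x j * c₂‖ ≤ t ∧
      ‖e * x j - x j * e‖ ≤ t := by
    intro j
    have h := hcom (Fin.castAdd (m + k) j)
    rw [Fin.append_left] at h
    exact ⟨h.1.trans hτt, h.2.1.trans hτt, h.2.2.trans hτt⟩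
  have hcx' : ∀ j, ‖star c₂ * x j - x j * star c₂‖ ≤ t := by
    intro j
    have h := hcom (Fin.natAdd m (Fin.castAdd k j))
    rw [Fin.append_right, Fin.append_left] at h
    have h2 := h.2.1.trans hτt
    rw [← norm_star, star_sub, star_mul, star_mul, star_star, norm_sub_rev] at h2
    exact h2
  have hcy : ∀ j, ‖e * y j - y j * e‖ ≤ δ ∧ ‖c₁ * y j - y j * c₁‖ ≤ δ := by
    intro j
    have h := hcom (Fin.natAdd m (Fin.natAdd m j))
    rw [Fin.append_right, Fin.append_right] at h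
    exact ⟨h.2.2.trans hτδ, h.1.trans hτδ⟩
  have hwp : ‖c₁ * star c₂ * p‖ ≤ t := by
    have h := hw 2
    exact h.trans hτt
  obtain ⟨s, hsD, hs1, hs2, hs3⟩ := hS e c₁ he0 he1 hc0 hc1 hcy (by
    intro T hT1
    have h0 := htr T 0
    have h1 := htr T 1
    refine ⟨h1.1.trans hτδ, ?_⟩
    have h2 := h0.2
    have h3 := hN1 T hT1
    refine le_trans ?_ h2
    change η / 8 ≤ tr T (a * a) / 2 - τ
    linarith)
  have hcn : ‖c₁‖ ≤ 1 := nle c₁ hc0 hc1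
  have hen : ‖e‖ ≤ 1 := nle e he0 he1
  have hbn : ‖b‖ ≤ 1 := nle b hb0 hb1
  have hpn : ‖p‖ ≤ 1 := nle p hp0 hp1
  have hsn : ‖s‖ ≤ 1 + t := by
    have h1 : ‖star s * s‖ ≤ 1 + t := by
      have e1 : star s * s = b * e * b + (star s * s - b * e * b) := by abel
      rw [e1]
      exact norm_add_le_of_le (nc hbn hen) hs1
    rw [CStarRing.norm_star_mul_self] at h1
    nlinarith [norm_nonneg s]
  obtain ⟨hsn', hss⟩ := scal ht ht1 hsn
  have hr0 : 0 < (1 + t)⁻¹ := inv_pos.2 (by linarith)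
  have hr1 : (1 + t)⁻¹ ≤ 1 := inv_le_one_of_one_le₀ (by linarith)
  have hpp : star p = p := (IsSelfAdjoint.of_nonneg hp0).star_eq
  refine ⟨p * c₁ * p, p * c₂ * p, (((1 + t)⁻¹ : ℝ) • s), ?_, ?_, ?_, ?_, nc hpn hcn, nc hpn hc2,
    hsn', ?_⟩
  · exact hC.mul_left _ _ hpD
  · exact hC.mul_left _ _ hpD
  · have h := hC.smul (((1 + t)⁻¹ : ℝ) : ℂ) s hsD
    rwa [Complex.coe_smul] at h
  · have h := star_right_conjugate_nonneg hc0 p
    rwa [hpp] at h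
  · intro j
    obtain ⟨q1, q2, q3, q4, q5, q6, q7⟩ := one (x := x j) ht hM1 hr0.le hr1 rfl hss hpn hpp hbn hcn
      hc2 hen (by linarith) (hM j) (hpx j).1 (hpx j).2 (hbx j).1 (hcx j).1 (hcx j).2.1 (hcx' j)
      (hcx j).2.2 (hs3 j) hs1 hs2 hwp r1 r2
    exact ⟨q1.trans htε, q2.trans htε, q3.trans htε, q4.trans htε, q5.trans htε, q6.trans htε,
      q7.trans htε⟩

end Pool.Agent.H270R2.NU
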