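import Pool.Agent.H667R5.NX.NU.StubsI

/-!
# Non-unital Toms-Winter: the iteration
-/

set_option autoImplicit false

namespace Pool.Agent.H270R2.NU

open Filter Topology Pool.Agent.H327R4.Pure Pool.Agent.H667R5.TW
open scoped CStarAlgebra ComplexOrder Matrix

universe u

section

variable {A : Type u} [CStarAlgebra A] [PartialOrder A] [StarOrderedRing A]

theorem TITD_n2_smul (T : TS A) (r : ℝ) (z : A) : n2 T (r • z) = r ^ 2 * n2 T z := by
  unfold n2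
  have h1 : star (r • z) * (r • z) = (r ^ 2) • (star z * z) := by
    rw [star_smul, smul_mul_smul_comm]
    simp [sq]
  have h2 : T.1.f ((r ^ 2) • (star z * z)) = ((r ^ 2 : ℝ) : ℂ) * T.1.f (star z * z) := by
    rw [← Complex.coe_smul, map_smul, smul_eq_mul]
  rw [h1, h2, Complex.re_ofReal_mul]

theorem TITD_n2_zero (T : TS A) : n2 T (0 : A) = 0 := by
  unfold n2
  simp

end

theorem t_ITD (hS : StSTEP1D.{u}) (hC : StCPB.{u}) (hB : StBAS.{u}) : StITD.{u} := by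
  intro A _ _ _ D n hn hCore hT X a ε hXD haD ha0 ha1 hε
  obtain ⟨K, hK1, hKX⟩ : ∃ K : ℝ, 1 ≤ K ∧ ∀ x ∈ X, ‖x‖ ≤ K := by
    refine ⟨1 + ∑ x ∈ X, ‖x‖, ?_, fun x hx => ?_⟩
    · have : 0 ≤ ∑ x ∈ X, ‖x‖ := Finset.sum_nonneg fun x _ => norm_nonneg _
      linarith
    · have h1 : ‖x‖ ≤ ∑ x ∈ X, ‖x‖ :=
        Finset.single_le_sum (f := fun x => ‖x‖) (fun x _ => norm_nonneg _) hx
      linarith
  have hK0 : (0 : ℝ) < K := by linarith
  have hKK : (1 : ℝ) ≤ K ^ 2 := by nlinarith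
  have hna : ‖a‖ ≤ 1 := (CStarAlgebra.norm_le_one_iff_of_nonneg a ha0).2 ha1
  classical
  obtain ⟨Y, hY⟩ : ∃ Y : Finset A, Y = insert a (X.image (fun x => (K⁻¹ : ℝ) • x)) := ⟨_, rfl⟩
  have haY : a ∈ Y := by rw [hY]; exact Finset.mem_insert_self _ _
  have hY1 : ∀ y ∈ Y, ‖y‖ ≤ 1 ∧ y ∈ D := by
    intro y hy
    rw [hY, Finset.mem_insert, Finset.mem_image] at hy
    rcases hy with rfl | ⟨x, hx, rfl⟩
    · exact ⟨hna, haD⟩
    · refine ⟨?_, ?_⟩
      · rw [norm_smul, Real.norm_eq_abs, abs_of_pos (inv_pos.2 hK0)]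
        calc K⁻¹ * ‖x‖ ≤ K⁻¹ * K := mul_le_mul_of_nonneg_left (hKX x hx) (inv_pos.2 hK0).le
          _ = 1 := inv_mul_cancel₀ hK0.ne'
      · have h := hCore.smul ((K⁻¹ : ℝ) : ℂ) x (hXD x hx)
        rwa [Complex.coe_smul] at h
  obtain ⟨a₀, ha⟩ : ∃ a₀ : ℝ, a₀ = 10 * (n : ℝ) ^ 2 := ⟨_, rfl⟩
  have hn1 : (1 : ℝ) ≤ n := by exact_mod_cast hn
  have ha₀0 : 0 ≤ a₀ := by rw [ha]; positivity
  have ha₀2 : 2 * (n : ℝ) ≤ a₀ := by rw [ha]; nlinarith
  obtain ⟨L, hL⟩ := exists_nat_gt (max 1 (-Real.log (ε / 4)))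
  have hL1 : (1 : ℝ) < L := lt_of_le_of_lt (le_max_left _ _) hL
  have hL2 : Real.exp (-(L : ℝ)) ≤ ε / 4 := by
    have h1 : -Real.log (ε / 4) < L := lt_of_le_of_lt (le_max_right _ _) hL
    calc Real.exp (-(L : ℝ)) ≤ Real.exp (Real.log (ε / 4)) := Real.exp_le_exp.2 (by linarith)
      _ = ε / 4 := Real.exp_log (by positivity)
  obtain ⟨G, hG⟩ : ∃ G : ℝ, G = Real.exp (a₀ * L) := ⟨_, rfl⟩
  have hG1 : 1 ≤ G := by
    rw [hG]
    exact Real.one_le_exp (by positivity)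
  have hG0 : 0 < G := by linarith
  have hL0 : (0 : ℝ) < L := by linarith
  obtain ⟨Λ, hΛ⟩ : ∃ Λ : ℝ, Λ = L * G := ⟨_, rfl⟩
  have hΛ1 : 1 ≤ Λ := by rw [hΛ]; nlinarith
  have hΛ0 : 0 < Λ := by linarith
  obtain ⟨Q, hQ⟩ : ∃ Q : ℝ, Q = 10 * (n : ℝ) ^ 3 * Λ + (n : ℝ) ^ 2 + 2 := ⟨_, rfl⟩
  have hQ1 : 1 ≤ Q := by
    rw [hQ]
    have h1 : 0 ≤ 10 * (n : ℝ) ^ 3 * Λ := by positivity
    have h2 : 0 ≤ (n : ℝ) ^ 2 := by positivity
    linarith
  have hQ0 : 0 < Q := by linarith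
  obtain ⟨δ, hδ⟩ : ∃ δ : ℝ, δ = min 1 (ε / (2 * Q * K ^ 2)) := ⟨_, rfl⟩
  have hδ0 : 0 < δ := by
    rw [hδ]
    exact lt_min one_pos (by positivity)
  have hδ1 : δ ≤ 1 := by rw [hδ]; exact min_le_left _ _
  have hδ2 : δ * Q * K ^ 2 ≤ ε / 2 := by
    have h1 : δ ≤ ε / (2 * Q * K ^ 2) := by rw [hδ]; exact min_le_right _ _
    calc δ * Q * K ^ 2 = δ * (Q * K ^ 2) := by ring
      _ ≤ ε / (2 * Q * K ^ 2) * (Q * K ^ 2) := mul_le_mul_of_nonneg_right h1 (by positivity)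
      _ = ε / 2 := by
          have : Q * K ^ 2 ≠ 0 := by positivity
          field_simp
  have hδQ : δ * Q ≤ ε / 2 := by
    refine le_trans ?_ hδ2
    exact le_mul_of_one_le_right (by positivity) hKK
  have hδK : K ^ 2 * δ ^ 2 ≤ ε / 2 := by
    refine le_trans ?_ hδ2
    have h1 : δ ^ 2 ≤ δ * Q := by nlinarith
    calc K ^ 2 * δ ^ 2 ≤ K ^ 2 * (δ * Q) := mul_le_mul_of_nonneg_left h1 (by positivity)
      _ = _ := by ring
  have hδδ : δ ^ 2 ≤ ε / 2 := by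
    refine le_trans ?_ hδK
    exact le_mul_of_one_le_left (by positivity) hKK
  obtain ⟨ε1, hε1⟩ : ∃ ε1 : ℝ, ε1 = δ ^ 2 / Λ := ⟨_, rfl⟩
  have he0 : 0 < ε1 := by rw [hε1]; positivity
  have heΛ : ε1 * Λ = δ ^ 2 := by rw [hε1]; field_simp
  have heδ : ε1 ≤ δ := by
    have h1 : ε1 ≤ δ ^ 2 := by
      rw [← heΛ]
      exact le_mul_of_one_le_right he0.le hΛ1
    nlinarith
  have he1 : ε1 ≤ 1 := heδ.trans hδ1
  obtain ⟨B, hBd⟩ : ∃ B : ℝ, B = 10 * (n : ℝ) ^ 3 * δ + ε1 := ⟨_, rfl⟩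
  have hB0 : 0 ≤ B := by rw [hBd]; positivity
  obtain ⟨R, hR⟩ : ∃ R : ℝ, R = B * Λ + (n : ℝ) ^ 2 * δ + ε1 := ⟨_, rfl⟩
  have hR0 : 0 ≤ R := by rw [hR]; positivity
  have hRε : R ≤ ε / 2 := by
    refine le_trans ?_ hδQ
    rw [hR, hBd, hQ]
    have h1 : (10 * (n : ℝ) ^ 3 * δ + ε1) * Λ = 10 * (n : ℝ) ^ 3 * Λ * δ + δ ^ 2 := by
      rw [add_mul, heΛ]
      ring
    rw [h1]
    nlinarith
  have hBΛ : B * Λ ≤ ε / 2 := by
    refine le_trans ?_ hRε
    rw [hR]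
    have : 0 ≤ (n : ℝ) ^ 2 * δ := by positivity
    linarith
  obtain ⟨m0, hm0, hstep⟩ := hS A D n hn hCore hT ε1 he0 he1
  obtain ⟨J, hJ⟩ := exists_nat_gt (L / min m0 1)
  have hmin : 0 < min m0 1 := lt_min hm0 one_pos
  have hJ0 : (0 : ℝ) < J := lt_of_le_of_lt (by positivity) hJ
  obtain ⟨m, hm⟩ : ∃ m : ℝ, m = L / J := ⟨_, rfl⟩
  have hmpos : 0 < m := by rw [hm]; positivity
  have hmle : m ≤ min m0 1 := by
    rw [hm, div_le_iff₀ hJ0]
    rw [div_lt_iff₀ hmin] at hJ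
    linarith
  have hmm0 : m ≤ m0 := hmle.trans (min_le_left _ _)
  have hm1 : m ≤ 1 := hmle.trans (min_le_right _ _)
  have hmJ : m * J = L := by
    rw [hm]
    field_simp
  obtain ⟨q, hq⟩ : ∃ q : ℝ, q = 1 + a₀ * m := ⟨_, rfl⟩
  have hq1 : 1 ≤ q := by
    rw [hq]
    have := mul_nonneg ha₀0 hmpos.le
    linarith
  have hq0 : 0 < q := by linarith
  have hqJ : q ^ J ≤ G := by
    have h1 : q ≤ Real.exp (a₀ * m) := by
      rw [hq]
      have := Real.add_one_le_exp (a₀ * m)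
      linarith
    calc q ^ J ≤ (Real.exp (a₀ * m)) ^ J := pow_le_pow_left₀ hq0.le h1 J
      _ = Real.exp (a₀ * L) := by
          rw [← Real.exp_nat_mul, ← hmJ]
          congr 1
          ring
      _ = G := hG.symm
  have hdj : ∀ c : ℝ, 0 ≤ c → ∀ j : ℕ, j ≤ J → c * m * j * q ^ j ≤ c * Λ := by
    intro c hc j hj
    have h1 : (j : ℝ) ≤ J := by exact_mod_cast hj
    have h2 : q ^ j ≤ G := (pow_le_pow_right₀ hq1 hj).trans hqJ
    calc c * m * j * q ^ j ≤ c * m * J * G := by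
          apply mul_le_mul _ h2 (by positivity) (by positivity)
          exact mul_le_mul_of_nonneg_left h1 (by positivity)
      _ = c * Λ := by rw [hΛ, ← hmJ]; ring
  have hpow : ∀ c : ℝ, 0 ≤ c → ∀ j : ℕ,
      q * (c * m * j * q ^ j) + c * m ≤ c * m * ((j + 1 : ℕ) : ℝ) * q ^ (j + 1) := by
    intro c hc j
    have h1 : 1 ≤ q ^ (j + 1) := one_le_pow₀ hq1
    have h2 : c * m ≤ c * m * q ^ (j + 1) := le_mul_of_one_le_right (by positivity) h1
    have h3 : c * m * ((j + 1 : ℕ) : ℝ) * q ^ (j + 1) =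
        q * (c * m * j * q ^ j) + c * m * q ^ (j + 1) := by
      push_cast
      ring
    rw [h3]
    linarith
  have hind : ∀ j : ℕ, j ≤ J → ∃ P : Fin n → Fin n → A, IsCP P ∧ dsum P ≤ 1 ∧ ∀ T : TS A,
      tr T (a * (1 - dsum P) * a) ≤ (1 - m) ^ j + R ∧
      wdef T a P ≤ B * m * j * q ^ j ∧ ∀ y ∈ Y, comm T P y ≤ ε1 * m * j * q ^ j := by
    intro j
    induction j with
    | zero =>
      intro _
      refine ⟨fun _ _ => 0, (hC A n).2.2.2.1, ?_, fun T => ⟨?_, ?_, ?_⟩⟩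
      · have : dsum (fun _ _ : Fin n => (0 : A)) = 0 := by simp [dsum]
        rw [this]
        exact zero_le_one' A
      · have : dsum (fun _ _ : Fin n => (0 : A)) = 0 := by simp [dsum]
        rw [this, sub_zero, mul_one]
        have h1 : tr T (a * a) = n2 T a := by
          unfold tr n2
          rw [(IsSelfAdjoint.of_nonneg ha0).star_eq]
        have h2 := ((hB A T).2.2.2.1 a).2.2.1
        have h3 : ‖a‖ ^ 2 ≤ 1 := pow_le_one₀ (norm_nonneg a) hna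
        rw [h1, pow_zero]
        linarith
      · unfold wdef
        simp [tr]
      · intro y _
        unfold H667R5.TW.comm
        simp [TITD_n2_zero]
    | succ j ih =>
      intro hj
      obtain ⟨P, hP1, hP2, hP3⟩ := ih (by omega)
      obtain ⟨P', hP'1, hP'2, hP'3⟩ := hstep m hmpos hmm0 Y a hY1 haY ha0 ha1 P hP1 hP2
      refine ⟨P', hP'1, hP'2, fun T => ?_⟩
      obtain ⟨h1, h2, h3⟩ := hP3 T
      obtain ⟨h4, h5, h6⟩ := hP'3 T
      have hcomm : comm T P a ≤ δ ^ 2 := by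
        rw [← heΛ]
        exact (h3 a haY).trans (hdj ε1 he0.le j (by omega))
      have hsq : √(comm T P a) ≤ δ := by
        rw [← Real.sqrt_sq hδ0.le]
        exact Real.sqrt_le_sqrt hcomm
      have hw : wdef T a P ≤ B * Λ := h2.trans (hdj B hB0 j (by omega))
      refine ⟨?_, ?_, fun y hy => ?_⟩
      · have h7 : (1 - m) * tr T (a * (1 - dsum P) * a) ≤ (1 - m) * ((1 - m) ^ j + R) :=
          mul_le_mul_of_nonneg_left h1 (by linarith)
        have h8 : m * (wdef T a P + (n : ℝ) ^ 2 * √(comm T P a)) ≤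
            m * (B * Λ + (n : ℝ) ^ 2 * δ) := by
          refine mul_le_mul_of_nonneg_left ?_ hmpos.le
          exact add_le_add hw (mul_le_mul_of_nonneg_left hsq (by positivity))
        calc tr T (a * (1 - dsum P') * a)
            ≤ (1 - m) * tr T (a * (1 - dsum P) * a) +
              m * (wdef T a P + (n : ℝ) ^ 2 * √(comm T P a)) + ε1 * m := h4
          _ ≤ (1 - m) * ((1 - m) ^ j + R) + m * (B * Λ + (n : ℝ) ^ 2 * δ) + ε1 * m := by
              linarith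
          _ = (1 - m) ^ (j + 1) + R := by rw [hR]; ring
      · refine le_trans ?_ (hpow B hB0 j)
        have h7 : (1 + 2 * (n : ℝ) * m) * wdef T a P ≤ (1 + 2 * (n : ℝ) * m) *
            (B * m * j * q ^ j) := mul_le_mul_of_nonneg_left h2 (by positivity)
        have h8 : (1 + 2 * (n : ℝ) * m) * (B * m * j * q ^ j) ≤ q * (B * m * j * q ^ j) := by
          refine mul_le_mul_of_nonneg_right ?_ (by positivity)
          rw [hq]
          have := mul_le_mul_of_nonneg_right ha₀2 hmpos.le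
          linarith
        have h9 : 10 * (n : ℝ) ^ 3 * m * √(comm T P a) + ε1 * m ≤ B * m := by
          have : 10 * (n : ℝ) ^ 3 * m * √(comm T P a) ≤ 10 * (n : ℝ) ^ 3 * m * δ :=
            mul_le_mul_of_nonneg_left hsq (by positivity)
          rw [hBd]
          linarith
        linarith
      · refine le_trans ?_ (hpow ε1 he0.le j)
        have h7 : (1 + 10 * (n : ℝ) ^ 2 * m) * comm T P y ≤ (1 + 10 * (n : ℝ) ^ 2 * m) *
            (ε1 * m * j * q ^ j) := mul_le_mul_of_nonneg_left (h3 y hy) (by positivity)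
        have h8 : (1 + 10 * (n : ℝ) ^ 2 * m) = q := by rw [hq, ha]
        have h9 := h6 y hy
        rw [h8] at h7 h9
        linarith
  obtain ⟨P, hP1, hP2, hP3⟩ := hind J le_rfl
  refine ⟨P, hP1, hP2, fun T => ?_⟩
  obtain ⟨h1, h2, h3⟩ := hP3 T
  refine ⟨?_, ?_, ?_, fun x hx i j => ?_⟩
  · have h4 : (1 - m) ^ J ≤ ε / 4 := by
      calc (1 - m) ^ J ≤ (Real.exp (-m)) ^ J :=
            pow_le_pow_left₀ (by linarith) (Real.one_sub_le_exp_neg m) J
        _ = Real.exp (-(L : ℝ)) := by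
            rw [← Real.exp_nat_mul, ← hmJ]
            congr 1
            ring
        _ ≤ ε / 4 := hL2
    linarith
  · have := hdj B hB0 J le_rfl
    linarith
  · have h4 := (h3 a haY).trans (hdj ε1 he0.le J le_rfl)
    rw [heΛ] at h4
    linarith
  · have hy : (K⁻¹ : ℝ) • x ∈ Y := by
      rw [hY]
      exact Finset.mem_insert_of_mem (Finset.mem_image_of_mem _ hx)
    have h4 := (h3 _ hy).trans (hdj ε1 he0.le J le_rfl)
    rw [heΛ] at h4
    have h5 : n2 T ((K⁻¹ : ℝ) • x * P i j - P i j * ((K⁻¹ : ℝ) • x)) ≤ comm T P ((K⁻¹ : ℝ) • x) := by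
      have h6 : ∀ z : A, 0 ≤ n2 T z := fun z => ((hB A T).2.2.2.1 z).2.1
      unfold H667R5.TW.comm
      refine le_trans ?_ (Finset.single_le_sum (f := fun i => ∑ j,
        n2 T ((K⁻¹ : ℝ) • x * P i j - P i j * ((K⁻¹ : ℝ) • x)))
        (fun i _ => Finset.sum_nonneg fun j _ => h6 _) (Finset.mem_univ i))
      exact Finset.single_le_sum (f := fun j =>
        n2 T ((K⁻¹ : ℝ) • x * P i j - P i j * ((K⁻¹ : ℝ) • x)))
        (fun j _ => h6 _) (Finset.mem_univ j)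
    have h7 : x * P i j - P i j * x = K • ((K⁻¹ : ℝ) • x * P i j - P i j * ((K⁻¹ : ℝ) • x)) := by
      rw [smul_sub, smul_mul_assoc, mul_smul_comm, smul_smul, smul_smul, mul_inv_cancel₀ hK0.ne',
        one_smul, one_smul]
    rw [h7, TITD_n2_smul]
    calc K ^ 2 * n2 T ((K⁻¹ : ℝ) • x * P i j - P i j * ((K⁻¹ : ℝ) • x))
        ≤ K ^ 2 * δ ^ 2 :=
          mul_le_mul_of_nonneg_left (h5.trans h4) (by positivity)
      _ ≤ ε := by linarith

end Pool.Agent.H270R2.NU
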