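import Pool.Agent.H667R5.NX.NU.StubsII
import Pool.Agent.H327R4.SI.TLIFT

set_option autoImplicit false
set_option linter.unusedSectionVars false

namespace Pool.Agent.H270R2.NU

open Filter Topology Pool.Agent.H327R4.Pure
open Pool.Agent.H667R5.TW (tr n2)
open Pool.Agent.H327R4.SI (StQC StFCOM)
open Pool.Agent.H327R4.SI.LiftAux (tr_mono tr_one tr_nonneg tr_ge tr_mul_le sqt sqt_nonneg
  sqt_mul_self sqt_le_one pow_le_pow' n2l n2r na ns nn nstar pow_norm_le le_one_of_norm
  norm_le_one_of spec_le)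

universe u

namespace LIFTD

section tr

variable {A : Type u} [CStarAlgebra A] [PartialOrder A] [StarOrderedRing A]

lemma re_real (T : TS A) (x : A) : (T.1.f x).re = (T.1.f (realPart x : A)).re := by
  have h1 := realPart_add_I_smul_imaginaryPart x
  have h2 := (mt_holds A T.1).2.2 (imaginaryPart x : A) (imaginaryPart x).2
  conv_lhs => rw [← h1]
  rw [map_add, map_smul, Complex.add_re, smul_eq_mul, Complex.mul_re, h2]
  simp

lemma re_star (T : TS A) (x : A) : (T.1.f (star x)).re = (T.1.f x).re := by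
  have e : (realPart (star x) : A) = (realPart x : A) := by
    rw [realPart_apply_coe, realPart_apply_coe, star_star, add_comm]
  rw [re_real T (star x), re_real T x, e]

lemma sandwich (T : TS A) (s z : A) (hs : IsSelfAdjoint s) (hz : ‖z‖ ≤ 1) :
    (T.1.f (s * z * s)).re ≤ (T.1.f (s * s)).re := by
  rw [re_real]
  have e1 : (realPart (s * z * s) : A) = s * (realPart z : A) * s := by
    rw [realPart_apply_coe, realPart_apply_coe, star_mul, star_mul, hs.star_eq, mul_smul_comm,
      smul_mul_assoc, mul_add, add_mul, mul_assoc s (star z) s]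
  rw [e1]
  have h1 : (realPart z : A) ≤ 1 := le_one_of_norm (realPart z).2 ((realPart.norm_le z).trans hz)
  have h2 := star_left_conjugate_le_conjugate h1 s
  rw [hs.star_eq, mul_one] at h2
  exact tr_mono T h2

lemma ecut (T : TS A) (e z : A) (he : 0 ≤ e) (hz : ‖z‖ ≤ 1) :
    |(T.1.f (z * e)).re| ≤ (T.1.f e).re := by
  have hs : CFC.sqrt e * CFC.sqrt e = e := CFC.sqrt_mul_sqrt_self e he
  have hsa : IsSelfAdjoint (CFC.sqrt e) := IsSelfAdjoint.of_nonneg (CFC.sqrt_nonneg e)
  have key : ∀ z : A, T.1.f (z * e) = T.1.f (CFC.sqrt e * z * CFC.sqrt e) := by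
    intro z
    conv_lhs => rw [← hs]
    rw [← mul_assoc, T.1.tr, ← mul_assoc]
  have h1 := sandwich T (CFC.sqrt e) z hsa hz
  have h2 := sandwich T (CFC.sqrt e) (-z) hsa (nn hz)
  rw [← key, hs] at h1 h2
  rw [neg_mul, map_neg, Complex.neg_re] at h2
  rw [abs_le]
  constructor <;> linarith

/-- `a` and `b` cannot be distinguished by `T` up to `r` -/
def Cl (T : TS A) (r : ℝ) (a b : A) : Prop := ∀ x y : A, ‖x‖ ≤ 1 → ‖y‖ ≤ 1 →
  |(T.1.f (x * a * y)).re - (T.1.f (x * b * y)).re| ≤ r

lemma Cl.refl (T : TS A) (a : A) : Cl T 0 a a := by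
  intro x y _ _
  rw [sub_self, abs_zero]

lemma Cl.q (T : TS A) (e : A) (he : 0 ≤ e) (r : ℝ) (hT : (T.1.f e).re ≤ r) :
    Cl T r (1 - e) 1 := by
  intro x y hx hy
  have e1 : x * (1 - e) * y = x * 1 * y - x * e * y := by noncomm_ring
  have e2 : T.1.f (x * e * y) = T.1.f ((y * x) * e) := by
    rw [T.1.tr, ← mul_assoc]
  rw [e1, map_sub, Complex.sub_re, e2]
  have h := ecut T e (y * x) he (n2l hy hx)
  rw [sub_sub_cancel_left, abs_neg]
  exact h.trans hT

lemma Cl.mul {T : TS A} {r s : ℝ} {a b c d : A} (h1 : Cl T r a b) (h2 : Cl T s c d)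
    (hc : ‖c‖ ≤ 1) (hb : ‖b‖ ≤ 1) : Cl T (r + s) (a * c) (b * d) := by
  intro x y hx hy
  have g1 := h1 x (c * y) hx (n2l hc hy)
  have g2 := h2 (x * b) y (n2l hx hb) hy
  have e1 : x * (a * c) * y = x * a * (c * y) := by noncomm_ring
  have e2 : x * (b * d) * y = x * b * d * y := by noncomm_ring
  have e3 : x * b * (c * y) = x * b * c * y := by noncomm_ring
  rw [e3] at g1
  rw [e1, e2]
  calc |(T.1.f (x * a * (c * y))).re - (T.1.f (x * b * d * y)).re|
      ≤ |(T.1.f (x * a * (c * y))).re - (T.1.f (x * b * c * y)).re| +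
        |(T.1.f (x * b * c * y)).re - (T.1.f (x * b * d * y)).re| := abs_sub_le _ _ _
    _ ≤ r + s := add_le_add g1 g2

lemma Cl.pow {T : TS A} {r : ℝ} {a b : A} (h : Cl T r a b) (ha : ‖a‖ ≤ 1) (hb : ‖b‖ ≤ 1)
    (n : ℕ) : Cl T (n * r) (a ^ n) (b ^ n) := by
  induction n with
  | zero =>
    have := Cl.refl T (1 : A)
    simpa using this
  | succ n ih =>
    have h1 := ih.mul h ha (pow_norm_le hb n)
    rw [pow_succ, pow_succ]
    have e : ((n + 1 : ℕ) : ℝ) * r = n * r + r := by push_cast; ring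
    rw [e]
    exact h1

lemma n2_nonneg (T : TS A) (x : A) : 0 ≤ n2 T x := tr_nonneg T (star_mul_self_nonneg x)

lemma n2_norm (T : TS A) (x : A) (r : ℝ) (hx : ‖x‖ ≤ r) : n2 T x ≤ r * r := by
  have h := tr_ge T (-(star x * x))
  rw [map_neg, Complex.neg_re, norm_neg] at h
  have h2 : ‖star x * x‖ ≤ r * r :=
    (norm_mul_le _ _).trans (mul_le_mul (by rwa [norm_star]) hx (norm_nonneg _)
      ((norm_nonneg _).trans hx))
  unfold n2
  linarith

lemma n2_add (T : TS A) (x y : A) : n2 T (x + y) ≤ 2 * n2 T x + 2 * n2 T y := by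
  have h := n2_nonneg T (x - y)
  have e : n2 T (x + y) + n2 T (x - y) = 2 * n2 T x + 2 * n2 T y := by
    unfold n2
    have e1 : star (x + y) * (x + y) + star (x - y) * (x - y) =
        (star x * x + star x * x) + (star y * y + star y * y) := by
      rw [star_add, star_sub]
      noncomm_ring
    have e2 := congrArg (fun z => (T.1.f z).re) e1
    simp only [map_add, Complex.add_re] at e2 ⊢
    linarith
  linarith

lemma cs (T : TS A) (x y : A) (d : ℝ) (hd : 0 < d) (hx : n2 T x ≤ 1) (hy : n2 T y ≤ d ^ 2) :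
    |(T.1.f (star x * y)).re| ≤ d := by
  have key : ∀ y : A, n2 T y ≤ d ^ 2 → (T.1.f (star x * y)).re ≤ d := by
    intro y hy
    have h := n2_nonneg T ((d : ℂ) • x - y)
    unfold n2 at h hx hy
    have e1 : star ((d : ℂ) • x - y) * ((d : ℂ) • x - y) = ((d ^ 2 : ℝ) : ℂ) • (star x * x) -
        (d : ℂ) • (star x * y) - (d : ℂ) • (star y * x) + star y * y := by
      rw [star_sub, star_smul]
      simp only [Complex.star_def, Complex.conj_ofReal, sub_mul, mul_sub, smul_mul_assoc,
        mul_smul_comm, smul_smul, smul_sub]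
      push_cast
      rw [sq]
      abel
    have e2 : (T.1.f (star y * x)).re = (T.1.f (star x * y)).re := by
      rw [← re_star T (star x * y), star_mul, star_star]
    rw [e1] at h
    simp only [map_add, map_sub, map_smul, Complex.add_re, Complex.sub_re, smul_eq_mul,
      Complex.re_ofReal_mul] at h
    rw [e2] at h
    have h3 : d ^ 2 * (T.1.f (star x * x)).re ≤ d ^ 2 * 1 :=
      mul_le_mul_of_nonneg_left hx (by positivity)
    have h4 : 2 * (d * (T.1.f (star x * y)).re) ≤ 2 * (d * d) := by nlinarith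
    have h5 : d * (T.1.f (star x * y)).re ≤ d * d := by linarith
    exact le_of_mul_le_mul_left h5 hd
  have h1 := key y hy
  have h2 := key (-y) (by
    have : n2 T (-y) = n2 T y := by unfold n2; rw [star_neg, neg_mul_neg]
    rw [this]; exact hy)
  rw [mul_neg, map_neg, Complex.neg_re] at h2
  rw [abs_le]
  constructor <;> linarith

/-- change of the weight -/
lemma weight (T : TS A) (w a Q : A) (hw0 : 0 ≤ w) (hw : ‖w‖ ≤ 1) (ha0 : 0 ≤ a) (ha : ‖a‖ ≤ 1)
    (hQ0 : 0 ≤ Q) (hQ : ‖Q‖ ≤ 1) (η : ℝ) (h1 : ‖w * (1 - a)‖ ≤ η) (h2 : ‖(1 - a) * w‖ ≤ η) :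
    (T.1.f (w * Q * w)).re ≤ (T.1.f (a * Q * a)).re + 2 * η := by
  have e1 : w * Q * w = w * (a * Q * a) * w + w * (1 - a) * Q * w + w * a * Q * ((1 - a) * w) := by
    noncomm_ring
  rw [e1, map_add, map_add, Complex.add_re, Complex.add_re]
  have g1 : (T.1.f (w * (a * Q * a) * w)).re ≤ (T.1.f (a * Q * a)).re := by
    have e2 : T.1.f (w * (a * Q * a) * w) = T.1.f ((w * w) * (a * Q * a)) := by
      rw [T.1.tr, ← mul_assoc]
    rw [e2]
    refine tr_mul_le T ?_ ?_
    · refine le_one_of_norm ?_ (n2l hw hw)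
      show star (w * w) = w * w
      rw [star_mul, (IsSelfAdjoint.of_nonneg hw0).star_eq]
    · have := star_left_conjugate_nonneg hQ0 a
      rwa [(IsSelfAdjoint.of_nonneg ha0).star_eq] at this
  have g2 : (T.1.f (w * (1 - a) * Q * w)).re ≤ η := by
    have h := tr_ge T (-(w * (1 - a) * Q * w))
    rw [map_neg, Complex.neg_re, norm_neg] at h
    have h' : ‖w * (1 - a) * Q * w‖ ≤ η := n2l (n2l h1 hQ) hw
    linarith
  have g3 : (T.1.f (w * a * Q * ((1 - a) * w))).re ≤ η := by
    have h := tr_ge T (-(w * a * Q * ((1 - a) * w)))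
    rw [map_neg, Complex.neg_re, norm_neg] at h
    have h' : ‖w * a * Q * ((1 - a) * w)‖ ≤ η := n2r (n2l (n2l hw ha) hQ) h2
    linarith
  linarith

lemma sub_sq_nonneg {B : A} (h0 : 0 ≤ B) (h1 : B ≤ 1) : 0 ≤ B - B * B := by
  have hx : IsSelfAdjoint B := IsSelfAdjoint.of_nonneg h0
  have e1 : B - B * B = cfc (fun t : ℝ => t - t ^ 2) B := by
    rw [cfc_sub (fun t : ℝ => t) (fun t : ℝ => t ^ 2) B (by fun_prop) (by fun_prop),
      cfc_id' ℝ B, cfc_pow_id B 2, pow_two]
  rw [e1]
  apply cfc_nonneg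
  intro t ht
  obtain ⟨ht0, ht1⟩ := spec_le h0 h1 t ht
  nlinarith

lemma sub_pow_le {B : A} (h0 : 0 ≤ B) (h1 : B ≤ 1) (n : ℕ) :
    B - B ^ (n + 1) ≤ ((n : ℝ) : ℂ) • (B - B * B) := by
  have hx : IsSelfAdjoint B := IsSelfAdjoint.of_nonneg h0
  have e1 : B - B * B = cfc (fun t : ℝ => t - t ^ 2) B := by
    rw [cfc_sub (fun t : ℝ => t) (fun t : ℝ => t ^ 2) B (by fun_prop) (by fun_prop),
      cfc_id' ℝ B, cfc_pow_id B 2, pow_two]
  have e2 : B - B ^ (n + 1) = cfc (fun t : ℝ => t - t ^ (n + 1)) B := by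
    rw [cfc_sub (fun t : ℝ => t) (fun t : ℝ => t ^ (n + 1)) B (by fun_prop) (by fun_prop),
      cfc_id' ℝ B, cfc_pow_id B (n + 1)]
  have e3 : ((n : ℝ) : ℂ) • cfc (fun t : ℝ => t - t ^ 2) B =
      cfc (fun t : ℝ => (n : ℝ) * (t - t ^ 2)) B := by
    rw [cfc_const_mul (n : ℝ) (fun t : ℝ => t - t ^ 2) B (by fun_prop), Complex.coe_smul]
  rw [e1, e2, e3]
  refine cfc_mono ?_ (by fun_prop) (by fun_prop)
  intro t ht
  obtain ⟨ht0, ht1⟩ := spec_le h0 h1 t ht
  have h2 : 1 + (n : ℝ) * (t - 1) ≤ (1 + (t - 1)) ^ n :=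
    one_add_mul_le_pow (by linarith) n
  rw [add_sub_cancel] at h2
  have h3 : t - t ^ (n + 1) = t * (1 - t ^ n) := by ring
  have h4 : (n : ℝ) * (t - t ^ 2) = t * ((n : ℝ) * (1 - t)) := by ring
  rw [h3, h4]
  refine mul_le_mul_of_nonneg_left ?_ ht0
  linarith

end tr

/-! ### approximate unit -/

section au

variable {E : Type u} [CStarAlgebra E] [PartialOrder E] [StarOrderedRing E]

theorem base (h : E) (hh : 0 ≤ h) (r : ℝ) (hr : 0 < r) :
    ∃ m k : E, 0 ≤ h * m ∧ h * m ≤ 1 ∧ IsSelfAdjoint k ∧ 1 - h * m = k ∧ ‖k * h * k‖ ≤ r := by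
  have hsa : IsSelfAdjoint h := IsSelfAdjoint.of_nonneg hh
  have hspec : ∀ t ∈ spectrum ℝ h, 0 ≤ t := fun t ht => spectrum_nonneg_of_nonneg hh ht
  have hne : ∀ t ∈ spectrum ℝ h, t + r ≠ 0 := fun t ht => by
    have := hspec t ht
    positivity
  have hc1 : ContinuousOn (fun t : ℝ => 1 / (t + r)) (spectrum ℝ h) :=
    ContinuousOn.div (by fun_prop) (by fun_prop) hne
  have hc2 : ContinuousOn (fun t : ℝ => r / (t + r)) (spectrum ℝ h) :=
    ContinuousOn.div (by fun_prop) (by fun_prop) hne
  have hc3 : ContinuousOn (fun t : ℝ => t) (spectrum ℝ h) := by fun_prop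
  have hc4 : ContinuousOn (fun t : ℝ => t * (1 / (t + r))) (spectrum ℝ h) := hc3.mul hc1
  have hm : h * cfc (fun t : ℝ => 1 / (t + r)) h = cfc (fun t : ℝ => t * (1 / (t + r))) h := by
    rw [cfc_mul (fun t : ℝ => t) (fun t : ℝ => 1 / (t + r)) h hc3 hc1, cfc_id' ℝ h]
  refine ⟨cfc (fun t : ℝ => 1 / (t + r)) h, cfc (fun t : ℝ => r / (t + r)) h, ?_, ?_, ?_, ?_, ?_⟩
  · rw [hm]
    apply cfc_nonneg
    intro t ht
    have := hspec t ht
    positivity
  · rw [hm]
    apply cfc_le_one
    intro t ht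
    have h0 := hspec t ht
    rw [mul_one_div, div_le_one (by positivity)]
    linarith
  · exact cfc_predicate _ _
  · rw [hm, ← cfc_const_one ℝ h, ← cfc_sub (fun _ : ℝ => 1) (fun t : ℝ => t * (1 / (t + r))) h
      (by fun_prop) hc4]
    apply cfc_congr
    intro t ht
    have h0 := hne t ht
    simp only
    field_simp
    ring
  · have e1 : cfc (fun t : ℝ => r / (t + r)) h * h * cfc (fun t : ℝ => r / (t + r)) h =
        cfc (fun t : ℝ => r / (t + r) * t * (r / (t + r))) h := by
      rw [cfc_mul (fun t : ℝ => r / (t + r) * t) (fun t : ℝ => r / (t + r)) h (hc2.mul hc3) hc2,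
        cfc_mul (fun t : ℝ => r / (t + r)) (fun t : ℝ => t) h hc2 hc3, cfc_id' ℝ h]
    rw [e1]
    apply norm_cfc_le hr.le
    intro t ht
    have h0 := hspec t ht
    rw [Real.norm_of_nonneg (by positivity)]
    have e2 : r / (t + r) * t * (r / (t + r)) = r * (r * t / (t + r) ^ 2) := by
      field_simp
    rw [e2]
    have e3 : r * t / (t + r) ^ 2 ≤ 1 := by
      rw [div_le_one (by positivity)]
      nlinarith
    nlinarith

theorem nbd {x h k : E} {r : ℝ} (hr : 0 ≤ r) (hk : IsSelfAdjoint k) (hkh : ‖k * h * k‖ ≤ r ^ 2)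
    (hx : star x * x ≤ h) : ‖x * k‖ ≤ r := by
  have h1 : ‖x * k‖ * ‖x * k‖ ≤ r ^ 2 := by
    rw [← CStarRing.norm_star_mul_self, star_mul]
    refine le_trans ?_ hkh
    have h2 : star k * star x * (x * k) = star k * (star x * x) * k := by
      simp only [mul_assoc]
    have h3 : star k * (star x * x) * k ≤ star k * h * k := star_left_conjugate_le_conjugate hx k
    rw [h2]
    have h4 : 0 ≤ star k * (star x * x) * k := by
      have := star_mul_self_nonneg (x * k)
      rwa [star_mul, h2] at this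
    have h5 := CStarAlgebra.norm_le_norm_of_nonneg_of_le h4 h3
    rwa [hk.star_eq] at h5 ⊢
  have h6 : ‖x * k‖ ^ 2 ≤ r ^ 2 := by rw [sq (‖x * k‖)]; exact h1
  exact le_of_sq_le_sq h6 hr

/-- approximate units of the ideal -/
theorem au {D : Set E} (hD : Core0 E D) (p : ℕ) (w : Fin p → E) (hw : ∀ i, w i ∈ D) (ε : ℝ)
    (hε : 0 < ε) : ∃ a : E, a ∈ D ∧ 0 ≤ a ∧ a ≤ 1 ∧
      ∀ i, ‖w i * (1 - a)‖ ≤ ε ∧ ‖(1 - a) * w i‖ ≤ ε := by
  classical
  set h : E := ∑ i, (star (w i) * w i + w i * star (w i)) with hh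
  have hpos : ∀ x : E, 0 ≤ star x * x + x * star x := fun x =>
    add_nonneg (star_mul_self_nonneg x) (mul_star_self_nonneg x)
  have h0 : 0 ≤ h := Finset.sum_nonneg fun i _ => hpos (w i)
  have hmem : h ∈ D := by
    have : ∀ s : Finset (Fin p), (∑ i ∈ s, (star (w i) * w i + w i * star (w i))) ∈ D := by
      intro s
      induction s using Finset.induction_on with
      | empty => simpa using hD.zero
      | insert b s hb ih =>
        rw [Finset.sum_insert hb]
        exact hD.add _ _ (hD.add _ _ (hD.mul_left _ _ (hw b)) (hD.mul_right _ _ (hw b))) ih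
    exact this Finset.univ
  obtain ⟨m, k, h1, h2, h3, h4, h5⟩ := base h h0 (ε ^ 2) (by positivity)
  refine ⟨h * m, hD.mul_right _ _ hmem, h1, h2, ?_⟩
  intro i
  have h6 : star (w i) * w i + w i * star (w i) ≤ h :=
    Finset.single_le_sum (f := fun j => star (w j) * w j + w j * star (w j))
      (fun y _ => hpos (w y)) (Finset.mem_univ i)
  have h7 : star (w i) * w i ≤ h :=
    le_trans (le_add_of_nonneg_right (mul_star_self_nonneg (w i))) h6
  have h8 : star (star (w i)) * star (w i) ≤ h := by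
    rw [star_star]
    exact le_trans (le_add_of_nonneg_left (star_mul_self_nonneg (w i))) h6
  rw [h4]
  refine ⟨nbd hε.le h3 h5 h7, ?_⟩
  have h9 := nbd hε.le h3 h5 h8
  have h10 : k * w i = star (star (w i) * k) := by rw [star_mul, star_star, h3.star_eq]
  rw [h10, norm_star]
  exact h9

end au

/-! ### the data -/

section core

variable {A : Type u} [CStarAlgebra A] [PartialOrder A] [StarOrderedRing A]

/-- the data -/
structure Data (A : Type u) [CStarAlgebra A] [PartialOrder A] [StarOrderedRing A]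
    (η : ℝ) (v q : A) : Prop where
  vv : star v * v + v * star v ≤ 1
  q0 : 0 ≤ q
  q1 : q ≤ 1
  cv : ‖q * v - v * q‖ ≤ η

variable {η : ℝ} {v q : A}

lemma Data.hv (D : Data A η v q) : ‖v‖ ≤ 1 := by
  have h1 : star v * v ≤ 1 := le_trans (le_add_of_nonneg_right (mul_star_self_nonneg v)) D.vv
  have h2 : ‖star v * v‖ ≤ 1 :=
    (CStarAlgebra.norm_le_one_iff_of_nonneg _ (star_mul_self_nonneg v)).2 h1
  rw [CStarRing.norm_star_mul_self] at h2
  nlinarith [norm_nonneg v]

lemma Data.nq (D : Data A η v q) : ‖q‖ ≤ 1 :=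
  (CStarAlgebra.norm_le_one_iff_of_nonneg q D.q0).2 D.q1

lemma Data.sq (D : Data A η v q) : star q = q := (IsSelfAdjoint.of_nonneg D.q0).star_eq

lemma Data.nc (D : Data A η v q) : ‖q * v * q‖ ≤ 1 := n2l (n2l D.nq D.hv) D.nq

lemma Data.sc (D : Data A η v q) : star (q * v * q) = q * star v * q := by
  rw [star_mul, star_mul, D.sq, ← mul_assoc]

lemma Data.qq (D : Data A η v q) : q * q ≤ 1 := by
  refine le_one_of_norm ?_ (n2l D.nq D.nq)
  show star (q * q) = q * q
  rw [star_mul, D.sq]

lemma Data.e0 (D : Data A η v q) : (q * v * q) * star (q * v * q) +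
    star (q * v * q) * (q * v * q) ≤ 1 := by
  have h1 : (q * v * q) * star (q * v * q) ≤ q * (v * star v) * q := by
    have h := star_right_conjugate_le_conjugate D.qq (q * v)
    rw [star_mul, D.sq, mul_one] at h
    have e1 : (q * v * q) * star (q * v * q) = q * v * (q * q) * (star v * q) := by
      rw [D.sc]; noncomm_ring
    have e2 : q * (v * star v) * q = q * v * (star v * q) := by noncomm_ring
    rw [e1, e2]
    exact h
  have h2 : star (q * v * q) * (q * v * q) ≤ q * (star v * v) * q := by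
    have h := star_right_conjugate_le_conjugate D.qq (q * star v)
    rw [star_mul, star_star, D.sq, mul_one] at h
    have e1 : star (q * v * q) * (q * v * q) = q * star v * (q * q) * (v * q) := by
      rw [D.sc]; noncomm_ring
    have e2 : q * (star v * v) * q = q * star v * (v * q) := by noncomm_ring
    rw [e1, e2]
    exact h
  have h3 : q * (star v * v + v * star v) * q ≤ q * 1 * q := by
    have h := star_left_conjugate_le_conjugate D.vv q
    rwa [D.sq] at h
  have h4 : q * (star v * v + v * star v) * q = q * (v * star v) * q + q * (star v * v) * q := by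
    noncomm_ring
  rw [h4, mul_one] at h3
  exact (add_le_add h1 h2).trans (h3.trans D.qq)

lemma Data.ca (D : Data A η v q) {a : A} (h1 : ‖q * a - a * q‖ ≤ η)
    (h2 : ‖q * (v * a - a * v)‖ ≤ 2 * η) :
    ‖(q * v * q) * a - a * (q * v * q)‖ ≤ 4 * η := by
  have e1 : (q * v * q) * a - a * (q * v * q) = q * v * (q * a - a * q) +
      q * (v * a - a * v) * q + (q * a - a * q) * (v * q) := by
    noncomm_ring
  rw [e1]
  have := na (na (n2r (n2l D.nq D.hv) h1) (n2l h2 D.nq)) (n2l h1 (n2l D.hv D.nq))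
  linarith

lemma Data.cA {c a : A} {r : ℝ} (hc : ‖c‖ ≤ 1) (h1 : ‖c * a - a * c‖ ≤ r)
    (h2 : ‖c * star a - star a * c‖ ≤ r) :
    ‖(c * star c) * a - a * (c * star c)‖ ≤ 2 * r := by
  have e1 : (c * star c) * a - a * (c * star c) =
      (c * a - a * c) * star c - c * star (c * star a - star a * c) := by
    simp only [star_mul, star_sub, star_star]
    noncomm_ring
  rw [e1]
  have := ns (n2l h1 (nstar hc)) (n2r hc (nstar h2))
  linarith

lemma Data.cB {c a : A} {r : ℝ} (hc : ‖c‖ ≤ 1) (h1 : ‖c * a - a * c‖ ≤ r)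
    (h2 : ‖c * star a - star a * c‖ ≤ r) :
    ‖(star c * c) * a - a * (star c * c)‖ ≤ 2 * r := by
  have e1 : (star c * c) * a - a * (star c * c) =
      star c * (c * a - a * c) - star (c * star a - star a * c) * c := by
    simp only [star_mul, star_sub, star_star]
    noncomm_ring
  rw [e1]
  have := ns (n2r (nstar hc) h1) (n2l (nstar h2) hc)
  linarith

lemma Data.wcc (D : Data A η v q) {w : A} (hw : ‖w‖ ≤ 1) (h1 : ‖q * w - w * q‖ ≤ η)
    (h2 : ‖q * (v * w - w * v)‖ ≤ 2 * η) (h3 : ‖q * (v * v * w)‖ ≤ η) :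
    ‖w * (q * v * q) * (q * v * q)‖ ≤ 12 * η := by
  have hc := D.nc
  have hcw := D.ca h1 h2
  have e1 : w * (q * v * q) * (q * v * q) = (q * v * q) * (q * v * q) * w -
      ((q * v * q) * w - w * (q * v * q)) * (q * v * q) -
      (q * v * q) * ((q * v * q) * w - w * (q * v * q)) := by noncomm_ring
  have e2 : (q * v * q) * (q * v * q) * w = q * v * q * (q * v) * (q * w - w * q) +
      (q * q * (q * (v * v * w)) * q - q * q * (q * v - v * q) * (v * w * q) -
        q * (q * v - v * q) * (q * (v * w * q))) := by noncomm_ring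
  have h4 : ‖(q * v * q) * (q * v * q) * w‖ ≤ η + (η + η + η) := by
    rw [e2]
    refine na (n2r (n2l hc (n2l D.nq D.hv)) h1) (ns (ns ?_ ?_) ?_)
    · exact n2l (n2r (n2l D.nq D.nq) h3) D.nq
    · exact n2l (n2r (n2l D.nq D.nq) D.cv) (n2l (n2l D.hv hw) D.nq)
    · exact n2l (n2r D.nq D.cv) (n2l D.nq (n2l (n2l D.hv hw) D.nq))
  rw [e1]
  have := ns (ns h4 (n2l hcw hc)) (n2r hc hcw)
  linarith

end core

open Classical in
theorem core (hQC : StQC.{u}) (hF : StFCOM.{u}) {E : Type u} [CStarAlgebra E] [PartialOrder E]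
    [StarOrderedRing E] {D : Set E} (hD : Core0 E D) (hU : UMD E D) (r p : ℕ) (y : Fin r → E)
    (w : Fin p → E) (hyD : ∀ j, y j ∈ D) (hy : ∀ j, ‖y j‖ ≤ 1)
    (hst : ∀ j, ∃ j', y j' = star (y j)) (hw : ∀ i, w i ∈ D ∧ 0 ≤ w i ∧ w i ≤ 1)
    (hwy : ∀ i, ∃ j, y j = w i) (K : ℕ) (ε : ℝ) (hε : 0 < ε) :
    ∃ c₁ c₂ e : E, 0 ≤ c₁ ∧ c₁ ≤ 1 ∧ ‖c₂‖ ≤ 1 ∧ 0 ≤ e ∧ e ≤ 1 ∧ c₂ * star c₂ = c₁ * c₁ ∧
      c₁ * c₁ + star c₂ * c₂ + e = 1 ∧ (∀ i, ‖c₁ * star c₂ * w i‖ ≤ ε) ∧
      (∀ j, ‖c₁ * y j - y j * c₁‖ ≤ ε ∧ ‖c₂ * y j - y j * c₂‖ ≤ ε ∧ ‖e * y j - y j * e‖ ≤ ε) ∧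
      ∀ (T : TS E) (i : Fin p), tr T (w i * e * w i) ≤ ε ∧
        tr T (w i * w i) / 2 - ε ≤ tr T (w i * c₁ ^ K * w i) := by
  obtain ⟨δs, hδs, hsq⟩ := hF Real.sqrt ε Real.continuous_sqrt.continuousOn hε
  set η : ℝ := min (min (ε / 16) (δs / 8)) (min 1 (ε / (7 * K + 3))) with hη
  have hη0 : 0 < η := by rw [hη]; positivity
  have hη1 : 16 * η ≤ ε := by
    have : η ≤ ε / 16 := (min_le_left _ _).trans (min_le_left _ _)
    linarith
  have hη2 : 8 * η ≤ δs := by
    have : η ≤ δs / 8 := (min_le_left _ _).trans (min_le_right _ _)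
    linarith
  have hη4 : η ≤ 1 := (min_le_right _ _).trans (min_le_left _ _)
  have hη3 : (7 * K + 3) * η ≤ ε := by
    have h1 : η ≤ ε / (7 * K + 3) := (min_le_right _ _).trans (min_le_right _ _)
    have h2 : (0 : ℝ) < 7 * K + 3 := by positivity
    rw [le_div_iff₀ h2] at h1
    linarith
  obtain ⟨δ, hδ, hqc⟩ := hQC (r + 1) (r + p) η hη0
  set ζ : ℝ := min η (δ / 4) with hζ
  have hζ0 : 0 < ζ := by rw [hζ]; positivity
  have hζη : ζ ≤ η := min_le_left _ _
  have hζδ : ζ ≤ δ / 4 := min_le_right _ _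
  obtain ⟨a, haD, ha0, ha1, hwa⟩ := au hD p w (fun i => (hw i).1) ζ hζ0
  have han : ‖a‖ ≤ 1 := (CStarAlgebra.norm_le_one_iff_of_nonneg a ha0).2 ha1
  have hwn : ∀ i, ‖w i‖ ≤ 1 := fun i =>
    (CStarAlgebra.norm_le_one_iff_of_nonneg _ (hw i).2.1).2 (hw i).2.2
  have hwsa : ∀ i, star (w i) = w i := fun i => (IsSelfAdjoint.of_nonneg (hw i).2.1).star_eq
  set κ : ℝ := min (min δ (δ / 4)) (η ^ 2) with hκ
  have hκ0 : 0 < κ := by rw [hκ]; positivity
  have hκ1 : κ ≤ δ := (min_le_left _ _).trans (min_le_left _ _)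
  have hκ2 : κ ≤ δ / 4 := (min_le_left _ _).trans (min_le_right _ _)
  have hκ3 : κ ≤ η ^ 2 := min_le_right _ _
  have hκ4 : κ ≤ η := by nlinarith
  obtain ⟨v, hvv, hvT⟩ := hU (Finset.univ.image y) a κ (by
    intro x hx
    obtain ⟨j, -, rfl⟩ := Finset.mem_image.1 hx
    exact hyD j) haD ha0 ha1 hκ0
  have hcomm : ∀ (T : TS E) (j : Fin r), n2 T (v * y j - y j * v) ≤ κ := fun T j =>
    (hvT T).1 (y j) (Finset.mem_image_of_mem y (Finset.mem_univ j))
  have hv : ‖v‖ ≤ 1 := by
    have h1 : star v * v ≤ 1 := le_trans (le_add_of_nonneg_right (mul_star_self_nonneg v)) hvv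
    have h2 : ‖star v * v‖ ≤ 1 :=
      (CStarAlgebra.norm_le_one_iff_of_nonneg _ (star_mul_self_nonneg v)).2 h1
    rw [CStarRing.norm_star_mul_self] at h2
    nlinarith [norm_nonneg v]
  -- the list `z`
  have hvvw : ∀ (T : TS E) (i : Fin p), n2 T (v * v * w i) ≤ δ := by
    intro T i
    have e1 : v * v * w i = v * v * a * w i + v * v * ((1 - a) * w i) := by noncomm_ring
    rw [e1]
    have h1 := n2_add T (v * v * a * w i) (v * v * ((1 - a) * w i))
    have h2 : n2 T (v * v * ((1 - a) * w i)) ≤ ζ * ζ :=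
      n2_norm T _ _ (n2r (n2l hv hv) (hwa i).2)
    have h3 : n2 T (v * v * a * w i) ≤ n2 T (v * v * a) := by
      unfold n2
      have e2 : T.1.f (star (v * v * a * w i) * (v * v * a * w i)) =
          T.1.f ((w i * w i) * (star (v * v * a) * (v * v * a))) := by
        rw [star_mul (v * v * a) (w i), hwsa,
          show w i * star (v * v * a) * (v * v * a * w i) =
            w i * (star (v * v * a) * (v * v * a)) * w i by noncomm_ring, T.1.tr, ← mul_assoc]
      rw [e2]
      refine tr_mul_le T ?_ (star_mul_self_nonneg _)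
      refine le_one_of_norm ?_ (n2l (hwn i) (hwn i))
      show star (w i * w i) = w i * w i
      rw [star_mul, hwsa]
    have h4 := (hvT T).2.1
    have h5 : ζ * ζ ≤ ζ := by nlinarith
    linarith
  set z : Fin (r + p) → E := Fin.append (fun j => (1 / 2 : ℂ) • (v * y j - y j * v))
    (fun i => v * v * w i) with hz
  set x : Fin (r + 1) → E := Fin.cons v y with hx
  obtain ⟨e0, he0, he1, hcx, hcz, hTe⟩ := hqc E x z (by
    intro i
    refine Fin.cases ?_ (fun j => ?_) i
    · simpa [hx] using hv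
    · simpa [hx] using hy j) (by
    intro i
    refine Fin.addCases (fun j => ?_) (fun j => ?_) i
    · simp only [hz, Fin.append_left]
      rw [norm_smul]
      have := ns (n2l hv (hy j)) (n2l (hy j) hv)
      have e1 : ‖(1 / 2 : ℂ)‖ = 1 / 2 := by simp
      rw [e1]
      linarith
    · simp only [hz, Fin.append_right]
      exact n2l (n2l hv hv) (hwn j)) (by
    intro T i
    refine Fin.addCases (fun j => ?_) (fun j => ?_) i
    · simp only [hz, Fin.append_left]
      have e1 : ((1 / 2 : ℂ) • (v * y j - y j * v)) * star ((1 / 2 : ℂ) • (v * y j - y j * v)) =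
          (1 / 4 : ℂ) • ((v * y j - y j * v) * star (v * y j - y j * v)) := by
        rw [star_smul, smul_mul_smul_comm]
        congr 1
        simp
        norm_num
      rw [e1, map_smul, T.1.tr]
      have h1 := hcomm T j
      have h0 := n2_nonneg T (v * y j - y j * v)
      unfold n2 at h1 h0
      have h2 : (((1 / 4 : ℂ)) • T.1.f (star (v * y j - y j * v) * (v * y j - y j * v))).re =
          1 / 4 * (T.1.f (star (v * y j - y j * v) * (v * y j - y j * v))).re := by
        have e2 : (1 / 4 : ℂ) = ((1 / 4 : ℝ) : ℂ) := by push_cast; ring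
        rw [e2, smul_eq_mul, Complex.re_ofReal_mul]
      rw [h2]
      linarith
    · simp only [hz, Fin.append_right]
      rw [T.1.tr]
      exact hvvw T j)
  set q : E := 1 - e0 with hq
  have hqx : ∀ y : E, q * y - y * q = -(e0 * y - y * e0) := by
    intro y; rw [hq]; noncomm_ring
  have hqy : ∀ y : E, q * y = y - e0 * y := by
    intro y; rw [hq]; noncomm_ring
  have Dt : Data E η v q := by
    refine ⟨hvv, ?_, ?_, ?_⟩
    · rw [hq]; exact sub_nonneg.2 he1
    · rw [hq]; exact sub_le_self _ he0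
    · rw [hqx]
      have := hcx 0
      simp only [hx, Fin.cons_zero] at this
      exact nn this
  have hca : ∀ j, ‖q * y j - y j * q‖ ≤ η := by
    intro j
    rw [hqx]
    have := hcx j.succ
    simp only [hx, Fin.cons_succ] at this
    exact nn this
  have hcva : ∀ j, ‖q * (v * y j - y j * v)‖ ≤ 2 * η := by
    intro j
    have := (hcz (Fin.castAdd p j)).1
    simp only [hz, Fin.append_left] at this
    rw [mul_smul_comm, ← smul_sub, ← hqy, norm_smul] at this
    have e1 : ‖(1 / 2 : ℂ)‖ = 1 / 2 := by simp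
    rw [e1] at this
    linarith
  have hcvw : ∀ i, ‖q * (v * v * w i)‖ ≤ η := by
    intro i
    have := (hcz (Fin.natAdd r i)).1
    simp only [hz, Fin.append_right] at this
    rw [hqy]
    exact this
  have hc2a : ∀ j, ‖(q * v * q) * y j - y j * (q * v * q)‖ ≤ 4 * η :=
    fun j => Dt.ca (hca j) (hcva j)
  have hc2s : ∀ j, ‖(q * v * q) * star (y j) - star (y j) * (q * v * q)‖ ≤ 4 * η := by
    intro j
    obtain ⟨j', hj'⟩ := hst j
    rw [← hj']
    exact hc2a j'
  have hnc := Dt.nc
  set c : E := q * v * q with hc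
  set h : E := c * star c with hh
  have hh0 : 0 ≤ h := mul_star_self_nonneg _
  have hg0 : 0 ≤ star c * c := star_mul_self_nonneg _
  have hhn : ‖h‖ ≤ 1 := n2l hnc (nstar hnc)
  have hh1 : h ≤ 1 := (CStarAlgebra.norm_le_one_iff_of_nonneg _ hh0).1 hhn
  have hcc : sqt h * sqt h = h := sqt_mul_self hh0
  have hsqsa : star (sqt h) = sqt h := (IsSelfAdjoint.of_nonneg (sqt_nonneg h)).star_eq
  have hA : ∀ j, ‖h * y j - y j * h‖ ≤ 8 * η := by
    intro j
    have := Data.cA hnc (hc2a j) (hc2s j)
    linarith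
  have hB : ∀ j, ‖(star c * c) * y j - y j * (star c * c)‖ ≤ 8 * η := by
    intro j
    have := Data.cB hnc (hc2a j) (hc2s j)
    linarith
  refine ⟨sqt h, c, 1 - h - star c * c, sqt_nonneg h, sqt_le_one hh0 hh1, hnc, ?_, ?_, hcc.symm,
    ?_, ?_, ?_, ?_⟩
  · rw [sub_sub]
    exact sub_nonneg.2 Dt.e0
  · rw [sub_sub]
    exact sub_le_self _ (add_nonneg hh0 hg0)
  · rw [hcc]; abel
  · intro i
    have h1 : ‖sqt h * star c * w i‖ * ‖sqt h * star c * w i‖ = ‖w i * c * c‖ * ‖w i * c * c‖ := by
      rw [← CStarRing.norm_star_mul_self, ← CStarRing.norm_self_mul_star]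
      congr 1
      have e1 : star (sqt h * star c * w i) * (sqt h * star c * w i) =
          w i * c * (sqt h * sqt h) * star c * w i := by
        rw [star_mul, star_mul, star_star, hsqsa, hwsa]
        noncomm_ring
      have e2 : star (w i * c * c) = star c * (star c * w i) := by
        rw [star_mul (w i * c) c, star_mul (w i) c, hwsa]
      rw [e1, hcc, e2, hh]
      noncomm_ring
    have h2 : ‖sqt h * star c * w i‖ = ‖w i * c * c‖ :=
      (mul_self_inj (norm_nonneg _) (norm_nonneg _)).1 h1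
    rw [h2]
    obtain ⟨j, hj⟩ := hwy i
    have g1 := hca j
    have g2 := hcva j
    rw [hj] at g1 g2
    have := Dt.wcc (hwn i) g1 g2 (hcvw i)
    linarith
  · intro j
    refine ⟨?_, (hc2a j).trans (by linarith), ?_⟩
    · exact hsq E h (y j) hh0 hh1 (hy j) ((hA j).trans hη2)
    · have e1 : (1 - h - star c * c) * y j - y j * (1 - h - star c * c) =
          -(h * y j - y j * h) - ((star c * c) * y j - y j * (star c * c)) := by noncomm_ring
      rw [e1]
      have := ns (nn (hA j)) (hB j)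
      linarith
  · intro T i
    -- traces
    have hTE : (T.1.f e0).re ≤ η := hTe T
    have cq : Cl T η q 1 := by rw [hq]; exact Cl.q T e0 he0 η hTE
    have hn1 : ‖(1 : E)‖ ≤ 1 := by
      rcases subsingleton_or_nontrivial E with h' | h'
      · rw [Subsingleton.elim (1 : E) 0]; simp
      · rw [norm_one]
    have cc : Cl T (2 * η) c v := by
      have h1 := ((cq.mul (Cl.refl T v) hv hn1).mul cq Dt.nq (n2r hn1 hv))
      rw [one_mul, mul_one] at h1
      have e : η + 0 + η = 2 * η := by ring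
      rw [e] at h1
      exact h1
    have ccs : Cl T (2 * η) (star c) (star v) := by
      have h1 := ((cq.mul (Cl.refl T (star v)) (nstar hv) hn1).mul cq Dt.nq (n2r hn1 (nstar hv)))
      rw [one_mul, mul_one] at h1
      have e : η + 0 + η = 2 * η := by ring
      rw [e] at h1
      rw [hc, Dt.sc]
      exact h1
    have cA : Cl T (4 * η) h (v * star v) := by
      have h1 := cc.mul ccs (nstar hnc) hv
      have e : 2 * η + 2 * η = 4 * η := by ring
      rw [e] at h1
      exact h1
    have cB : Cl T (4 * η) (star c * c) (star v * v) := by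
      have h1 := ccs.mul cc hnc (nstar hv)
      have e : 2 * η + 2 * η = 4 * η := by ring
      rw [e] at h1
      exact h1
    have hB0 : 0 ≤ v * star v := mul_star_self_nonneg v
    have hC0 : 0 ≤ star v * v := star_mul_self_nonneg v
    have hB1 : v * star v ≤ 1 := le_trans (le_add_of_nonneg_left hC0) hvv
    have hBn : ‖v * star v‖ ≤ 1 := (CStarAlgebra.norm_le_one_iff_of_nonneg _ hB0).2 hB1
    have hP0 : 0 ≤ 1 - (star v * v + v * star v) := sub_nonneg.2 hvv
    have hPn : ‖1 - (star v * v + v * star v)‖ ≤ 1 :=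
      (CStarAlgebra.norm_le_one_iff_of_nonneg _ hP0).2 (sub_le_self _ (add_nonneg hC0 hB0))
    have hwaL : ‖w i * (1 - a)‖ ≤ η := (hwa i).1.trans hζη
    have hwaR : ‖(1 - a) * w i‖ ≤ η := (hwa i).2.trans hζη
    have tP : (T.1.f (w i * (1 - (star v * v + v * star v)) * w i)).re ≤ 3 * η := by
      have h1 := weight T (w i) a _ (hw i).2.1 (hwn i) ha0 han hP0 hPn η hwaL hwaR
      have h2 := (hvT T).2.2.1
      unfold tr at h2
      linarith
    have hS0 : 0 ≤ v * star v - v * star v * (v * star v) := sub_sq_nonneg hB0 hB1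
    have hSn : ‖v * star v - v * star v * (v * star v)‖ ≤ 1 := by
      refine (CStarAlgebra.norm_le_one_iff_of_nonneg _ hS0).2 ((sub_le_self _ ?_).trans hB1)
      have := star_mul_self_nonneg (v * star v)
      rwa [star_mul, star_star] at this
    have tS : (T.1.f (w i * (v * star v - v * star v * (v * star v)) * w i)).re ≤ 3 * η := by
      have h1 := weight T (w i) a _ (hw i).2.1 (hwn i) ha0 han hS0 hSn η hwaL hwaR
      have h2 := (hvT T).2.2.2
      unfold tr at h2
      linarith
    have eP : (T.1.f (w i * (1 - (star v * v + v * star v)) * w i)).re =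
        (T.1.f (w i * w i)).re - (T.1.f (w i * (star v * v) * w i)).re -
          (T.1.f (w i * (v * star v) * w i)).re := by
      rw [show w i * (1 - (star v * v + v * star v)) * w i = w i * w i - w i * (star v * v) * w i -
        w i * (v * star v) * w i by noncomm_ring, map_sub, map_sub, Complex.sub_re, Complex.sub_re]
    constructor
    · unfold tr
      rw [show w i * (1 - h - star c * c) * w i = w i * w i - w i * h * w i -
        w i * (star c * c) * w i by noncomm_ring, map_sub, map_sub, Complex.sub_re, Complex.sub_re]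
      have h1 := (abs_le.1 (cA (w i) (w i) (hwn i) (hwn i))).1
      have h2 := (abs_le.1 (cB (w i) (w i) (hwn i) (hwn i))).1
      linarith
    · unfold tr
      have hww0 : 0 ≤ (T.1.f (w i * w i)).re := by
        have := tr_nonneg T (star_mul_self_nonneg (w i))
        rwa [hwsa] at this
      rcases Nat.eq_zero_or_pos K with hK | hK
      · subst hK
        rw [pow_zero, mul_one]
        linarith
      · obtain ⟨n, rfl⟩ : ∃ n, K = n + 1 := ⟨K - 1, by omega⟩
        -- comparison of the two corners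
        have hbc : (T.1.f (w i * (star v * v) * w i)).re - 2 * η ≤
            (T.1.f (w i * (v * star v) * w i)).re := by
          have e1 : T.1.f (w i * (v * star v) * w i) = T.1.f (star (w i * v) * (w i * v)) := by
            rw [T.1.tr (star (w i * v)) (w i * v), star_mul, hwsa]
            congr 1
            noncomm_ring
          have e2 : w i * (star v * v) * w i = star (v * w i) * (v * w i) := by
            rw [star_mul, hwsa]
            noncomm_ring
          have hg : n2 T (v * w i - w i * v) ≤ η ^ 2 := by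
            obtain ⟨j, hj⟩ := hwy i
            rw [← hj]
            exact (hcomm T j).trans hκ3
          have hα : n2 T (w i * v) ≤ 1 := by
            have := n2_norm T (w i * v) 1 (n2l (hwn i) hv)
            linarith
          have hβ : n2 T (v * w i) ≤ 1 := by
            have := n2_norm T (v * w i) 1 (n2l hv (hwn i))
            linarith
          have g1 := (abs_le.1 (cs T (w i * v) (v * w i - w i * v) η hη0 hα hg)).2
          have g2 := (abs_le.1 (cs T (v * w i) (v * w i - w i * v) η hη0 hβ hg)).2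
          have g3 : (T.1.f (star (v * w i - w i * v) * (w i * v))).re =
              (T.1.f (star (w i * v) * (v * w i - w i * v))).re := by
            rw [← re_star T (star (w i * v) * (v * w i - w i * v)), star_mul, star_star]
          have e3 : star (v * w i) * (v * w i) = star (w i * v) * (w i * v) +
              star (v * w i) * (v * w i - w i * v) + star (v * w i - w i * v) * (w i * v) := by
            rw [star_sub]
            noncomm_ring
          rw [e2, e3, map_add, map_add, Complex.add_re, Complex.add_re, g3, e1]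
          linarith
        have hlow : (T.1.f (w i * (v * star v) ^ (n + 1) * w i)).re ≥
            (T.1.f (w i * (v * star v) * w i)).re - n * (3 * η) := by
          have h1 := sub_pow_le hB0 hB1 n
          have h2 := star_left_conjugate_le_conjugate h1 (w i)
          rw [hwsa] at h2
          have h3 := tr_mono T h2
          rw [mul_smul_comm, smul_mul_assoc, map_smul, smul_eq_mul, Complex.re_ofReal_mul,
            mul_sub, sub_mul, map_sub, Complex.sub_re] at h3
          have h4 : (n : ℝ) * (T.1.f (w i * (v * star v - v * star v * (v * star v)) * w i)).re ≤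
              n * (3 * η) := mul_le_mul_of_nonneg_left tS (by positivity)
          linarith
        have hup : (T.1.f (w i * h ^ (n + 1) * w i)).re ≤
            (T.1.f (w i * sqt h ^ (n + 1) * w i)).re := by
          have h1 := pow_le_pow' (sqt_nonneg h) (sqt_le_one hh0 hh1) (n + 1)
          rw [hcc] at h1
          have h2 := star_left_conjugate_le_conjugate h1 (w i)
          rw [hwsa] at h2
          exact tr_mono T h2
        have hcl := (abs_le.1 ((cA.pow hhn hBn (n + 1)) (w i) (w i) (hwn i) (hwn i))).1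
        have hη3' : (7 * ((n : ℝ) + 1) + 3) * η ≤ ε := by
          have := hη3
          push_cast at this
          exact this
        have hcl' : -(((n : ℝ) + 1) * (4 * η)) ≤ (T.1.f (w i * h ^ (n + 1) * w i)).re -
            (T.1.f (w i * (v * star v) ^ (n + 1) * w i)).re := by
          have := hcl
          push_cast at this
          exact this
        nlinarith

end LIFTD

open LIFTD in
theorem t_LIFTD (hQC : StQC.{u}) (hF : StFCOM.{u}) : StLIFTD.{u} := by
  intro E _ _ _ D hD hU m p x w K ε hx hw hε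
  set M : ℝ := 1 + ∑ j, ‖x j‖ with hM
  have hM1 : 1 ≤ M := by
    rw [hM]
    have : 0 ≤ ∑ j, ‖x j‖ := Finset.sum_nonneg fun _ _ => norm_nonneg _
    linarith
  have hM0 : 0 < M := by linarith
  have haM : ∀ j, ‖x j‖ ≤ M := by
    intro j
    have := Finset.single_le_sum (f := fun j => ‖x j‖) (fun _ _ => norm_nonneg _)
      (Finset.mem_univ j)
    linarith
  set b : Fin m → E := fun j => ((M⁻¹ : ℝ) : ℂ) • x j with hb
  have hcn : ‖((M⁻¹ : ℝ) : ℂ)‖ = M⁻¹ := by
    rw [Complex.norm_real, Real.norm_eq_abs, abs_of_pos (inv_pos.2 hM0)]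
  have hbn : ∀ j, ‖b j‖ ≤ 1 := by
    intro j
    simp only [hb]
    rw [norm_smul, hcn, inv_mul_le_iff₀ hM0, mul_one]
    exact haM j
  have hbD : ∀ j, b j ∈ D := fun j => hD.smul _ _ (hx j)
  have key : ∀ (c : E) (j : Fin m), ‖c * b j - b j * c‖ ≤ ε / M → ‖c * x j - x j * c‖ ≤ ε := by
    intro c j h
    simp only [hb] at h
    rw [mul_smul_comm, smul_mul_assoc, ← smul_sub, norm_smul, hcn, inv_mul_eq_div,
      div_le_div_iff_of_pos_right hM0] at h
    exact h
  have hεM : ε / M ≤ ε := div_le_self hε.le hM1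
  obtain ⟨c₁, c₂, e, h1, h2, h3, h4, h5, h6, h7, h8, h9, h10⟩ :=
    core hQC hF hD hU (m + m + p) p
      (Fin.append (Fin.append b (fun j => star (b j))) w) w
      (by
        intro j
        refine Fin.addCases (fun i => ?_) (fun i => ?_) j
        · rw [Fin.append_left]
          refine Fin.addCases (fun i => ?_) (fun i => ?_) i
          · rw [Fin.append_left]; exact hbD i
          · rw [Fin.append_right]; exact hD.star _ (hbD i)
        · rw [Fin.append_right]; exact (hw i).1)
      (by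
        intro j
        refine Fin.addCases (fun i => ?_) (fun i => ?_) j
        · rw [Fin.append_left]
          refine Fin.addCases (fun i => ?_) (fun i => ?_) i
          · rw [Fin.append_left]; exact hbn i
          · rw [Fin.append_right, norm_star]; exact hbn i
        · rw [Fin.append_right]
          exact (CStarAlgebra.norm_le_one_iff_of_nonneg _ (hw i).2.1).2 (hw i).2.2)
      (by
        intro j
        refine Fin.addCases (fun i => ?_) (fun i => ?_) j
        · refine Fin.addCases (fun i => ?_) (fun i => ?_) i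
          · refine ⟨Fin.castAdd p (Fin.natAdd m i), ?_⟩
            rw [Fin.append_left, Fin.append_left, Fin.append_left, Fin.append_right]
          · refine ⟨Fin.castAdd p (Fin.castAdd m i), ?_⟩
            rw [Fin.append_left, Fin.append_left, Fin.append_left, Fin.append_right, star_star]
        · refine ⟨Fin.natAdd (m + m) i, ?_⟩
          rw [Fin.append_right, (IsSelfAdjoint.of_nonneg (hw i).2.1).star_eq])
      hw
      (fun i => ⟨Fin.natAdd (m + m) i, by rw [Fin.append_right]⟩)
      K (ε / M) (by positivity)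
  refine ⟨c₁, c₂, e, h1, h2, h3, h4, h5, h6, h7, fun i => (h8 i).trans hεM, ?_, ?_⟩
  · intro j
    have := h9 (Fin.castAdd p (Fin.castAdd m j))
    rw [Fin.append_left, Fin.append_left] at this
    exact ⟨key _ _ this.1, key _ _ this.2.1, key _ _ this.2.2⟩
  · intro T i
    refine ⟨(h10 T i).1.trans hεM, ?_⟩
    have := (h10 T i).2
    linarith

end Pool.Agent.H270R2.NU
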