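import Pool.Agent.H667R5.NX.NU.StubsI

set_option autoImplicit false
set_option linter.unusedSectionVars false

namespace Pool.Agent.H270R2.NU

open Filter Topology Pool.Agent.H327R4.Pure Pool.Agent.H667R5.TW
open scoped CStarAlgebra ComplexOrder Matrix

universe u v

section loc

variable {A : Type u} [CStarAlgebra A] [PartialOrder A] [StarOrderedRing A]

private lemma LOCD_loc_tr_add (T : TS A) (x y : A) : tr T (x + y) = tr T x + tr T y := by
  simp [tr]

private lemma LOCD_loc_tr_sub (T : TS A) (x y : A) : tr T (x - y) = tr T x - tr T y := by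
  simp [tr]

private lemma LOCD_loc_tr_zero (T : TS A) : tr T (0 : A) = 0 := by
  simp [tr]

private lemma LOCD_loc_tr_smul (T : TS A) (r : ℝ) (x : A) : tr T (r • x) = r * tr T x := by
  have : (r • x : A) = ((r : ℂ) • x : A) := by simp
  rw [this]
  simp [tr]

private lemma LOCD_loc_tr_sum (T : TS A) {ι : Type v} (s : Finset ι) (f : ι → A) :
    tr T (∑ i ∈ s, f i) = ∑ i ∈ s, tr T (f i) := by
  simp [tr, map_sum]

private lemma LOCD_loc_tr_comm (T : TS A) (x y : A) : tr T (x * y) = tr T (y * x) := by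
  simp only [tr]
  rw [T.1.tr]

/-- the cut-off function -/
private noncomputable def LOCD_locf (t : ℝ) : ℝ := (√(max t (1 / 2)))⁻¹

private lemma LOCD_locf_cont : Continuous LOCD_locf := by
  unfold LOCD_locf
  apply Continuous.inv₀
  · fun_prop
  · intro t
    have : (0 : ℝ) < max t (1 / 2) := lt_of_lt_of_le (by norm_num) (le_max_right _ _)
    exact (Real.sqrt_pos.2 this).ne'

private lemma LOCD_locf_sq (t : ℝ) : LOCD_locf t * LOCD_locf t = (max t (1 / 2))⁻¹ := by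
  unfold LOCD_locf
  have : (0 : ℝ) < max t (1 / 2) := lt_of_lt_of_le (by norm_num) (le_max_right _ _)
  rw [← mul_inv, Real.mul_self_sqrt this.le]

private noncomputable def LOCD_locg (t : ℝ) : ℝ := LOCD_locf t * (t * t) * LOCD_locf t

private lemma LOCD_locg_cont : Continuous LOCD_locg := by
  unfold LOCD_locg
  have := LOCD_locf_cont
  fun_prop

private lemma LOCD_locg_eq (t : ℝ) : LOCD_locg t = (t * t) / (max t (1 / 2)) := by
  unfold LOCD_locg
  have := LOCD_locf_sq t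
  rw [div_eq_mul_inv, ← this]
  ring

private lemma LOCD_locg_ge {t : ℝ} (h : 1 / 2 ≤ t) : LOCD_locg t = t := by
  rw [LOCD_locg_eq, max_eq_left h]
  have : t ≠ 0 := by
    intro h0; rw [h0] at h; norm_num at h
  field_simp

private lemma LOCD_locg_lt {t : ℝ} (h : t ≤ 1 / 2) : LOCD_locg t = 2 * (t * t) := by
  rw [LOCD_locg_eq, max_eq_right h]
  ring

private lemma LOCD_locg_all {t : ℝ} (h0 : 0 ≤ t) (h1 : t ≤ 1) : 0 ≤ LOCD_locg t ∧ LOCD_locg t ≤ 1 ∧ LOCD_locg t ≤ t ∧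
    t - LOCD_locg t ≤ 2 * (t - t * t) ∧ LOCD_locg t - LOCD_locg t * LOCD_locg t ≤ 2 * (t - t * t) := by
  rcases le_total t (1 / 2) with h | h
  · rw [LOCD_locg_lt h]
    refine ⟨by positivity, by nlinarith, by nlinarith, by nlinarith, ?_⟩
    have : 0 ≤ (2 * (t * t)) * (2 * (t * t)) := by positivity
    nlinarith
  · rw [LOCD_locg_ge h]
    refine ⟨h0, h1, le_rfl, by nlinarith, by nlinarith⟩

private lemma LOCD_loc_alg {n K : ℕ} (v : Fin n → Fin K → A) (a' : Fin K → A)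
    (hv : ∀ i k j l, star (v i k) * v j l = if i = j ∧ k = l then a' k else 0) (i₀ i j : Fin n) :
    star (∑ k, v i k * star (v i₀ k)) * (∑ k, v j k * star (v i₀ k)) =
      if i = j then ∑ k, v i₀ k * a' k * star (v i₀ k) else 0 := by
  rw [star_sum, Finset.sum_mul_sum]
  have h1 : ∀ k l, star (v i k * star (v i₀ k)) * (v j l * star (v i₀ l)) =
      if k = l then (if i = j then v i₀ k * a' k * star (v i₀ k) else 0) else 0 := by
    intro k l
    rw [star_mul, star_star]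
    have : v i₀ k * star (v i k) * (v j l * star (v i₀ l)) =
        v i₀ k * (star (v i k) * v j l) * star (v i₀ l) := by noncomm_ring
    rw [this, hv]
    by_cases h : i = j
    · by_cases h' : k = l
      · subst h; subst h'; simp
      · simp [h']
    · simp [h]
  simp only [h1]
  by_cases h : i = j
  · simp [h]
  · simp [h]

private lemma LOCD_loc_phi (c : A) (h0 : 0 ≤ c) (h1 : c ≤ 1) : phi 1 c = c := by
  unfold phi
  have hn : ‖c‖ ≤ 1 := by
    rwa [CStarAlgebra.norm_le_one_iff_of_nonneg c h0]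
  conv_rhs => rw [← cfcₙ_id' ℝ c]
  apply cfcₙ_congr
  intro x hx
  have : ‖x‖ ≤ ‖c‖ := NonUnitalIsometricContinuousFunctionalCalculus.norm_quasispectrum_le (𝕜 := ℝ) c hx
  have hx1 : x ≤ 1 := (le_abs_self x).trans (this.trans hn)
  simp [hx1]

private lemma LOCD_loc_le_one (w : A) (h0 : 0 ≤ w) (hw : w * w ≤ w) : w ≤ 1 := by
  have hsa : IsSelfAdjoint w := IsSelfAdjoint.of_nonneg h0
  have hww : 0 ≤ w * w := by
    have := star_mul_self_nonneg w
    rwa [hsa.star_eq] at this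
  have h1 : ‖w * w‖ ≤ ‖w‖ := CStarAlgebra.norm_le_norm_of_nonneg_of_le hww hw
  have h2 : ‖w * w‖ = ‖w‖ * ‖w‖ := by
    have := CStarRing.norm_star_mul_self (x := w)
    rwa [hsa.star_eq] at this
  rw [← CStarAlgebra.norm_le_one_iff_of_nonneg w h0]
  rw [h2] at h1
  by_contra h
  push Not at h
  nlinarith

private lemma LOCD_loc_spec (w : A) (h0 : 0 ≤ w) (h1 : w ≤ 1) : ∀ x ∈ spectrum ℝ w, 0 ≤ x ∧ x ≤ 1 := by
  intro x hx
  refine ⟨spectrum_nonneg_of_nonneg h0 hx, ?_⟩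
  have hsa : IsSelfAdjoint w := IsSelfAdjoint.of_nonneg h0
  have h2 : w ≤ algebraMap ℝ A 1 := by simpa using h1
  exact (le_algebraMap_iff_spectrum_le (A := A) (a := w) (r := (1 : ℝ)) hsa).1 h2 x hx

private lemma LOCD_loc_cfc (w : A) (h0 : 0 ≤ w) (hw : w * w ≤ w) :
    cfc LOCD_locf w * (w * w) * cfc LOCD_locf w = cfc LOCD_locg w ∧ star (cfc LOCD_locf w) = cfc LOCD_locf w ∧
    0 ≤ cfc LOCD_locg w ∧ cfc LOCD_locg w ≤ 1 ∧ cfc LOCD_locg w ≤ w ∧ w - cfc LOCD_locg w ≤ (2 : ℝ) • (w - w * w) ∧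
    cfc LOCD_locg w - cfc LOCD_locg w * cfc LOCD_locg w ≤ (2 : ℝ) • (w - w * w) := by
  have h1 := LOCD_loc_le_one w h0 hw
  have hsp := LOCD_loc_spec w h0 h1
  have hsa : IsSelfAdjoint w := IsSelfAdjoint.of_nonneg h0
  have cf := LOCD_locf_cont
  have cg := LOCD_locg_cont
  have e1 : cfc (fun t : ℝ => t) w = w := cfc_id' ℝ w
  have e2 : cfc (fun t : ℝ => t * t) w = w * w := by
    rw [cfc_mul (fun t : ℝ => t) (fun t : ℝ => t) w, e1]
  have e3 : cfc (fun t : ℝ => 2 * (t - t * t)) w = (2 : ℝ) • (w - w * w) := by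
    have : (fun t : ℝ => 2 * (t - t * t)) = fun t : ℝ => (2 : ℝ) • (t - t * t) := by
      ext t; simp
    rw [this, cfc_smul (2 : ℝ) (fun t : ℝ => t - t * t) w (by fun_prop),
      cfc_sub (fun t : ℝ => t) (fun t : ℝ => t * t) w, e1, e2]
  have e4 : cfc (fun t : ℝ => t - LOCD_locg t) w = w - cfc LOCD_locg w := by
    rw [cfc_sub (fun t : ℝ => t) LOCD_locg w (by fun_prop) (by fun_prop), e1]
  have e5 : cfc (fun t : ℝ => LOCD_locg t - LOCD_locg t * LOCD_locg t) w = cfc LOCD_locg w - cfc LOCD_locg w * cfc LOCD_locg w := by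
    rw [cfc_sub LOCD_locg (fun t => LOCD_locg t * LOCD_locg t) w (by fun_prop) (by fun_prop),
      cfc_mul LOCD_locg LOCD_locg w (by fun_prop) (by fun_prop)]
  refine ⟨?_, ?_, ?_, ?_, ?_, ?_, ?_⟩
  · rw [← e2, ← cfc_mul LOCD_locf (fun t : ℝ => t * t) w (by fun_prop) (by fun_prop),
      ← cfc_mul (fun t => LOCD_locf t * (t * t)) LOCD_locf w (by fun_prop) (by fun_prop)]
    rfl
  · exact (IsSelfAdjoint.cfc (f := LOCD_locf) (a := w)).star_eq
  · exact cfc_nonneg fun x hx => (LOCD_locg_all (hsp x hx).1 (hsp x hx).2).1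
  · exact cfc_le_one _ _ fun x hx => (LOCD_locg_all (hsp x hx).1 (hsp x hx).2).2.1
  · conv_rhs => rw [← e1]
    exact cfc_mono (fun x hx => (LOCD_locg_all (hsp x hx).1 (hsp x hx).2).2.2.1) (by fun_prop) (by fun_prop)
  · rw [← e3, ← e4]
    exact cfc_mono (fun x hx => (LOCD_locg_all (hsp x hx).1 (hsp x hx).2).2.2.2.1) (by fun_prop)
      (by fun_prop)
  · rw [← e3, ← e5]
    exact cfc_mono (fun x hx => (LOCD_locg_all (hsp x hx).1 (hsp x hx).2).2.2.2.2) (by fun_prop)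
      (by fun_prop)

private lemma LOCD_loc_mul_tr (hB : StBAS.{u}) (T : TS A) (x y : A) (r s : ℝ) (hx : ‖x‖ ≤ r)
    (hy : ‖y‖ ≤ s) : tr T (x * y) ≤ r * s := by
  obtain ⟨-, -, -, h, -⟩ := hB A T
  have h1 := (h (x * y)).2.2.2
  have h2 : tr T (x * y) ≤ ‖T.1.f (x * y)‖ := (le_abs_self _).trans (Complex.abs_re_le_norm _)
  have h3 := norm_mul_le x y
  have h4 : ‖x‖ * ‖y‖ ≤ r * s := mul_le_mul hx hy (norm_nonneg _) ((norm_nonneg _).trans hx)
  linarith

/-- the cut element -/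
private lemma LOCD_loc_cut (hB : StBAS.{u}) (hCT : StCT.{u}) (T : TS A) (a : A) (ε : ℝ) (hε : 0 ≤ ε)
    (h0 : 0 ≤ a) (h1 : a ≤ 1) : |tr T (cut ε a) - tr T a| ≤ ε ∧
      tr T (cut ε a) - tr T (cut ε a * cut ε a) ≤ tr T a - tr T (a * a) + 2 * ε := by
  obtain ⟨c1, c2, -, -, -, c3, -⟩ := hCT A a h0
  obtain ⟨m1, -, -, m2, -⟩ := hB A T
  have hn : ‖a‖ ≤ 1 := by rwa [CStarAlgebra.norm_le_one_iff_of_nonneg a h0]
  have hc : ‖cut ε a‖ ≤ 1 := (CStarAlgebra.norm_le_norm_of_nonneg_of_le (c1 ε) (c2 ε hε)).trans hn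
  have hd := c3 ε hε
  have hm : tr T (cut ε a) ≤ tr T a := m1 _ _ (c2 ε hε)
  have h2 : tr T a - tr T (cut ε a) ≤ ε := by
    rw [← LOCD_loc_tr_sub]
    have h3 := (m2 (a - cut ε a)).2.2.2
    have h4 : tr T (a - cut ε a) ≤ ‖T.1.f (a - cut ε a)‖ :=
      (le_abs_self _).trans (Complex.abs_re_le_norm _)
    linarith
  refine ⟨by rw [abs_le]; constructor <;> linarith, ?_⟩
  have h5 : tr T (a * a) - tr T (cut ε a * cut ε a) ≤ 2 * ε := by
    have e1 : a * a - cut ε a * cut ε a = (a - cut ε a) * a + cut ε a * (a - cut ε a) := by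
      noncomm_ring
    rw [← LOCD_loc_tr_sub, e1, LOCD_loc_tr_add]
    have h6 := LOCD_loc_mul_tr hB T (a - cut ε a) a ε 1 hd hn
    have h7 := LOCD_loc_mul_tr hB T (cut ε a) (a - cut ε a) 1 ε hc hd
    linarith
  linarith

end loc

/-- the trace of `c` is positive for traces which do not vanish on `D` -/
private lemma LOCD_pos (hB : StBAS.{u}) {E : Type u} [CStarAlgebra E] [PartialOrder E]
    [StarOrderedRing E] {D : Set E} (hC : Core E D) {c : E} (hcD : c ∈ D) (hc0 : 0 ≤ c)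
    (hcz : c ≠ 0) (T : TS E) (hT : NV D T) : 0 < tr T c := by
  obtain ⟨d, hd, hd0⟩ := hT
  obtain ⟨η, hη, hlow⟩ := hC.low c hcD hc0 hcz
  have hcs := (hB E T).2.1 1 d
  rw [star_one, one_mul] at hcs
  have hn1 : n2 T (1 : E) ≤ 1 := by
    have h := ((hB E T).2.2.2.1 (1 : E)).2.2.1
    have h' : ‖(1 : E)‖ ≤ 1 := by
      rw [CStarAlgebra.norm_le_one_iff_of_nonneg (1 : E) zero_le_one]
    nlinarith [norm_nonneg (1 : E)]
  have hn10 := ((hB E T).2.2.2.1 (1 : E)).2.1
  have hnd0 := ((hB E T).2.2.2.1 d).2.1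
  have hpos : 0 < n2 T d := by
    have h1 : 0 < ‖T.1.f d‖ ^ 2 := by
      have := norm_pos_iff.2 hd0
      positivity
    rcases hnd0.eq_or_lt with h | h
    · rw [← h] at hcs
      nlinarith
    · exact h
  have hdz : d ≠ 0 := by
    intro h
    rw [h] at hd0
    exact hd0 (map_zero _)
  have hnd : 0 < ‖d‖ := norm_pos_iff.2 hdz
  set r : ℝ := (‖d‖ * ‖d‖)⁻¹ with hr
  have hr0 : 0 < r := by positivity
  have hd1 : r • (star d * d) ∈ D := by
    have : (r • (star d * d) : E) = ((r : ℂ) • (star d * d) : E) := by simp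
    rw [this]
    exact hC.smul _ _ (hC.mul_left _ _ hd)
  have hd2 : 0 ≤ r • (star d * d) := smul_nonneg hr0.le (star_mul_self_nonneg d)
  have hd3 : r • (star d * d) ≤ 1 := by
    rw [← CStarAlgebra.norm_le_one_iff_of_nonneg _ hd2, norm_smul, CStarRing.norm_star_mul_self,
      Real.norm_of_nonneg hr0.le, hr]
    rw [inv_mul_cancel₀ (by positivity)]
  have h4 := hlow T _ hd1 hd2 hd3
  rw [LOCD_loc_tr_smul] at h4
  have h5 : tr T (star d * d) = n2 T d := rfl
  rw [h5] at h4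
  have : 0 < η * (r * n2 T d) := by positivity
  linarith

theorem t_LOCD (hB : StBAS.{u}) (hTH : StTH1D.{u}) (hRW : StRWD.{u}) (hCT : StCT.{u})
    (hRK : StRK.{u}) : StLOCD.{u} := by
  intro A _ _ _ D hC hSC n c μ δ hn hcD hc0 hc1 hμ0 hμ1 hδ
  by_cases hcz : c = 0
  · subst hcz
    refine ⟨fun _ => 0, fun _ => 0, 0, le_rfl, zero_le_one, ?_, ?_, ?_⟩
    · intro i j; simp
    · intro i; simp
    · intro T
      simp [LOCD_loc_tr_zero, hδ.le]
  have hn0 : (0 : ℝ) < n := by exact_mod_cast hn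
  have hn1 : (1 : ℝ) ≤ n := by exact_mod_cast hn
  have hmem : (μ / n) • c ∈ D := by
    have : ((μ / n) • c : A) = (((μ / n : ℝ) : ℂ) • c : A) := by
      rw [Complex.coe_smul]
    rw [this]
    exact hC.smul _ _ hcD
  obtain ⟨K, a, haD, hT⟩ := hTH A D hC ((μ / n) • c) (δ / (6 * n)) hmem
    (smul_nonneg (by positivity) hc0) (by positivity)
  have ha : ∀ j, 0 ≤ a j ∧ a j ≤ 1 := fun j => (haD j).2
  have hrk : ∀ T : TS A, NV D T → (n : ℝ) * ∑ j, rk T.1 (a j) < rk T.1 c := by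
    intro T hNV
    obtain ⟨-, -, h3⟩ := hT T
    rw [LOCD_loc_tr_smul] at h3
    have h4 : 0 < tr T c := LOCD_pos hB hC hcD hc0 hcz T hNV
    have h5 : tr T c ≤ rk T.1 c := by
      have := (hRK A T.1 c hc0).1 1 one_pos
      rwa [LOCD_loc_phi c hc0 hc1] at this
    have h6 : (n : ℝ) * ∑ j, rk T.1 (a j) ≤ n * (μ / n * tr T c) :=
      mul_le_mul_of_nonneg_left h3 hn0.le
    have h7 : (n : ℝ) * (μ / n * tr T c) = μ * tr T c := by field_simp
    rw [h7] at h6
    nlinarith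
  set ε : ℝ := δ / (10 * n * (K + 1)) with hε
  have hε0 : 0 < ε := by positivity
  obtain ⟨v, z, hvz, hv⟩ := hRW A D hC.toCore0 hSC n K a c ε
    (fun j => ⟨(haD j).1, (haD j).2.1⟩) hcD hc0 hcz hε0 hrk
  let i₀ : Fin n := ⟨0, by omega⟩
  have halg := LOCD_loc_alg v (fun k => cut ε (a k)) hv i₀
  set w : A := ∑ k, v i₀ k * star (v i₀ k) with hw
  have hw0 : 0 ≤ w := Finset.sum_nonneg fun k _ => mul_star_self_nonneg _
  have hwsa : star w = w := (IsSelfAdjoint.of_nonneg hw0).star_eq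
  have hww : w * w = ∑ k, v i₀ k * cut ε (a k) * star (v i₀ k) := by
    have := halg i₀ i₀
    rw [if_pos rfl, ← hw, hwsa] at this
    exact this
  have hcut : ∀ k, 0 ≤ cut ε (a k) ∧ cut ε (a k) ≤ 1 := fun k =>
    ⟨(hCT A (a k) (ha k).1).1 ε, ((hCT A (a k) (ha k).1).2.1 ε hε0.le).trans (ha k).2⟩
  have hwle : w * w ≤ w := by
    rw [hww, hw]
    apply Finset.sum_le_sum
    intro k _
    have := star_right_conjugate_le_conjugate (hcut k).2 (v i₀ k)
    simpa using this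
  obtain ⟨f1, f2, f3, f4, f5, f6, f7⟩ := LOCD_loc_cfc w hw0 hwle
  refine ⟨fun i => (∑ k, v i k * star (v i₀ k)) * cfc LOCD_locf w,
    fun i => (∑ k, z i k * star (v i₀ k)) * cfc LOCD_locf w, cfc LOCD_locg w, f3, f4, ?_, ?_, ?_⟩
  · intro i j
    have e1 : star ((∑ k, v i k * star (v i₀ k)) * cfc LOCD_locf w) *
        ((∑ k, v j k * star (v i₀ k)) * cfc LOCD_locf w) =
        cfc LOCD_locf w * (star (∑ k, v i k * star (v i₀ k)) * (∑ k, v j k * star (v i₀ k))) *
          cfc LOCD_locf w := by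
      rw [star_mul, f2]
      noncomm_ring
    simp only
    rw [e1, halg i j]
    by_cases h : i = j
    · rw [if_pos h, if_pos h, ← hww, f1]
    · rw [if_neg h, if_neg h]; simp
  · intro i
    simp only
    rw [← mul_assoc, Finset.mul_sum]
    congr 1
    apply Finset.sum_congr rfl
    intro k _
    rw [hvz i k, mul_assoc]
  · intro T
    obtain ⟨h1, h2, -⟩ := hT T
    rw [LOCD_loc_tr_smul] at h1
    have hmono := (hB A T).1
    have t1 : tr T w = ∑ k, tr T (cut ε (a k)) := by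
      rw [hw, LOCD_loc_tr_sum]
      apply Finset.sum_congr rfl
      intro k _
      rw [LOCD_loc_tr_comm, hv]
      simp
    have t2 : tr T (w * w) = ∑ k, tr T (cut ε (a k) * cut ε (a k)) := by
      rw [hww, LOCD_loc_tr_sum]
      apply Finset.sum_congr rfl
      intro k _
      rw [mul_assoc, LOCD_loc_tr_comm, mul_assoc, hv]
      simp
    have t3 : |∑ k, tr T (cut ε (a k)) - ∑ k, tr T (a k)| ≤ K * ε := by
      rw [← Finset.sum_sub_distrib]
      refine (Finset.abs_sum_le_sum_abs _ _).trans ?_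
      refine (Finset.sum_le_sum fun k _ => (LOCD_loc_cut hB hCT T (a k) ε hε0.le (ha k).1 (ha k).2).1).trans ?_
      simp
    have t4 : tr T w - tr T (w * w) ≤ δ / (6 * n) + 2 * (K * ε) := by
      rw [t1, t2, ← Finset.sum_sub_distrib]
      refine (Finset.sum_le_sum fun k _ => (LOCD_loc_cut hB hCT T (a k) ε hε0.le (ha k).1 (ha k).2).2).trans ?_
      rw [Finset.sum_add_distrib]
      have : ∑ _k : Fin K, 2 * ε = 2 * (K * ε) := by simp; ring
      rw [this]
      linarith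
    have hKε : n * (K * ε) ≤ δ / 10 := by
      have : (n : ℝ) * (K * ε) = δ / 10 * (K / (K + 1)) := by
        rw [hε]; field_simp
      rw [this]
      have h : (K : ℝ) / (K + 1) ≤ 1 := by
        rw [div_le_one (by positivity)]; linarith
      nlinarith
    have hKε0 : 0 ≤ (K : ℝ) * ε := by positivity
    have hKε1 : (K : ℝ) * ε ≤ δ / 10 := by nlinarith
    have hδn : (n : ℝ) * (δ / (6 * n)) = δ / 6 := by field_simp
    have hδn0 : 0 ≤ δ / (6 * n) := by positivity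
    have hδn1 : δ / (6 * n) ≤ δ / 6 := by nlinarith
    have m5 := hmono _ _ f5
    have m6 := hmono _ _ f6
    have m7 := hmono _ _ f7
    rw [LOCD_loc_tr_smul, LOCD_loc_tr_sub, LOCD_loc_tr_sub] at m6 m7
    have key : |tr T (cfc LOCD_locg w) - μ / n * tr T c| ≤ 3 * (δ / (6 * n)) + 5 * (K * ε) := by
      rw [t1] at m5 m6 t4
      rw [abs_le] at h1 t3 ⊢
      constructor <;> linarith [h1.1, h1.2, t3.1, t3.2]
    constructor
    · have e1 : (n : ℝ) * tr T (cfc LOCD_locg w) - μ * tr T c =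
          n * (tr T (cfc LOCD_locg w) - μ / n * tr T c) := by field_simp
      rw [e1, abs_mul, abs_of_pos hn0]
      have := mul_le_mul_of_nonneg_left key hn0.le
      nlinarith
    · linarith

end Pool.Agent.H270R2.NU
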