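import Pool.Agent.H667R5.NX.NU.StubsI

/-!
# LOCG from LOCD
-/

set_option autoImplicit false
set_option linter.unusedSectionVars false

namespace Pool.Agent.H270R2.NU

open Filter Topology Pool.Agent.H327R4.Pure Pool.Agent.H667R5.TW
open scoped CStarAlgebra ComplexOrder Matrix

universe u

namespace LOCGaux

section

variable {E : Type u} [CStarAlgebra E] [PartialOrder E] [StarOrderedRing E]

lemma tr_sub (T : TS E) (x y : E) : tr T (x - y) = tr T x - tr T y := by
  simp [tr]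

/-- the function `max (x - d) 0 / max x d` -/
noncomputable def K1 (d x : ℝ) : ℝ := max (x - d) 0 / max x d

/-- the function `sqrt (max (x - d) 0) / max x d` -/
noncomputable def K2 (d x : ℝ) : ℝ := Real.sqrt (max (x - d) 0) / max x d

lemma maxpos {d : ℝ} (hd : 0 < d) (x : ℝ) : 0 < max x d := lt_of_lt_of_le hd (le_max_right _ _)

lemma K1_cont {d : ℝ} (hd : 0 < d) : Continuous (K1 d) := by
  unfold K1
  refine Continuous.div (by fun_prop) (by fun_prop) fun x => (maxpos hd x).ne'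

lemma K2_cont {d : ℝ} (hd : 0 < d) : Continuous (K2 d) := by
  unfold K2
  refine Continuous.div (by fun_prop) (by fun_prop) fun x => (maxpos hd x).ne'

lemma K1_mul {d : ℝ} (hd : 0 < d) (x : ℝ) : x * K1 d x = max (x - d) 0 := by
  unfold K1
  rcases le_total x d with h | h
  · rw [max_eq_right (by linarith : x - d ≤ 0)]
    simp
  · rw [max_eq_left h]
    have : x ≠ 0 := by intro h0; rw [h0] at h; linarith
    field_simp

lemma K2_mul {d : ℝ} (hd : 0 < d) (x : ℝ) : x * K2 d x = Real.sqrt (max (x - d) 0) := by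
  unfold K2
  rcases le_total x d with h | h
  · rw [max_eq_right (by linarith : x - d ≤ 0)]
    simp
  · rw [max_eq_left h]
    have : x ≠ 0 := by intro h0; rw [h0] at h; linarith
    field_simp

lemma cut_eq_cfc (c : E) (_h0 : 0 ≤ c) {d : ℝ} (hd : 0 < d) :
    cut d c = cfc (fun x : ℝ => max (x - d) 0) c := by
  unfold cut
  exact cfcₙ_eq_cfc (by fun_prop) (by simp [hd.le])

lemma cut_mul (c : E) (h0 : 0 ≤ c) {d : ℝ} (hd : 0 < d) : cut d c = c * cfc (K1 d) c := by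
  have hsa : IsSelfAdjoint c := IsSelfAdjoint.of_nonneg h0
  have cK := K1_cont hd
  rw [cut_eq_cfc c h0 hd]
  conv_rhs => rw [← cfc_id' ℝ c]
  conv_rhs => rw [cfc_id' ℝ c]
  have e : cfc (fun x : ℝ => x * K1 d x) c = c * cfc (K1 d) c := by
    rw [cfc_mul (fun x : ℝ => x) (K1 d) c (by fun_prop) (by fun_prop), cfc_id' ℝ c]
  rw [← e]
  congr 1
  funext x
  rw [K1_mul hd]

lemma sqrt_cut (c : E) (h0 : 0 ≤ c) {d : ℝ} (hd : 0 < d) :
    CFC.sqrt (cut d c) = c * cfc (K2 d) c := by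
  have hsa : IsSelfAdjoint c := IsSelfAdjoint.of_nonneg h0
  have cK := K2_cont hd
  have e : cfc (fun x : ℝ => Real.sqrt (max (x - d) 0)) c = c * cfc (K2 d) c := by
    have : (fun x : ℝ => Real.sqrt (max (x - d) 0)) = fun x : ℝ => x * K2 d x := by
      funext x
      rw [K2_mul hd]
    rw [this, cfc_mul (fun x : ℝ => x) (K2 d) c (by fun_prop) (by fun_prop), cfc_id' ℝ c]
  rw [← e]
  refine CFC.sqrt_unique ?_ (cfc_nonneg fun x _ => Real.sqrt_nonneg _)
  rw [← cfc_mul (fun x : ℝ => Real.sqrt (max (x - d) 0))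
    (fun x : ℝ => Real.sqrt (max (x - d) 0)) c (by fun_prop) (by fun_prop),
    cut_eq_cfc c h0 hd]
  congr 1
  funext x
  exact Real.mul_self_sqrt (le_max_right _ _)

end

end LOCGaux

open LOCGaux in
theorem t_LOCG (hB : StBAS.{u}) (hCT : StCT.{u}) (hL : StLOCD.{u}) : StLOCG.{u} := by
  intro E _ _ _ D hC hS n c g μ δ hn hc0 hc1 hgD hg0 hg1 hμ0 hμ1 hδ
  have hsg : star g = g := (IsSelfAdjoint.of_nonneg hg0).star_eq
  have hs0 : 0 ≤ CFC.sqrt c := CFC.sqrt_nonneg c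
  have hss : star (CFC.sqrt c) = CFC.sqrt c := (IsSelfAdjoint.of_nonneg hs0).star_eq
  set c1 : E := CFC.sqrt c * (g * g) * CFC.sqrt c with hc1def
  have hc1eq : c1 = star (g * CFC.sqrt c) * (g * CFC.sqrt c) := by
    rw [star_mul, hsg, hss, hc1def]
    noncomm_ring
  have h10 : 0 ≤ c1 := by rw [hc1eq]; exact star_mul_self_nonneg _
  have hc1D : c1 ∈ D := hC.mul_right _ _ (hC.mul_left _ _ (hC.mul_left _ _ hgD))
  have hcn : ‖c‖ ≤ 1 := by rwa [CStarAlgebra.norm_le_one_iff_of_nonneg c hc0]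
  have hgn : ‖g‖ ≤ 1 := by rwa [CStarAlgebra.norm_le_one_iff_of_nonneg g hg0]
  have hsn : ‖CFC.sqrt c‖ ≤ 1 := by
    have h := CStarRing.norm_star_mul_self (x := CFC.sqrt c)
    rw [hss, CFC.sqrt_mul_sqrt_self c hc0] at h
    by_contra hh
    push Not at hh
    nlinarith
  have hn1 : ‖c1‖ ≤ 1 := by
    rw [hc1eq, CStarRing.norm_star_mul_self]
    have h := norm_mul_le g (CFC.sqrt c)
    have h2 : ‖g‖ * ‖CFC.sqrt c‖ ≤ 1 := mul_le_one₀ hgn (norm_nonneg _) hsn
    have h3 : ‖g * CFC.sqrt c‖ ≤ 1 := h.trans h2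
    exact mul_le_one₀ h3 (norm_nonneg _) h3
  set d : ℝ := δ / 4 with hd
  have hd0 : 0 < d := by positivity
  obtain ⟨a1, a2, -, -, -, a3, -⟩ := hCT E c1 h10
  set c2 : E := cut d c1 with hc2def
  have h20 : 0 ≤ c2 := a1 d
  have h21 : c2 ≤ 1 := by
    have : c1 ≤ 1 := by rwa [← CStarAlgebra.norm_le_one_iff_of_nonneg c1 h10]
    exact (a2 d hd0.le).trans this
  have hc2D : c2 ∈ D := by
    rw [hc2def, cut_mul c1 h10 hd0]
    exact hC.mul_right _ _ hc1D
  obtain ⟨u, z, e, he0, he1, hue, huz, hT⟩ := hL E D hC hS n c2 μ (δ / 2) hn hc2D h20 h21 hμ0 hμ1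
    (by positivity)
  refine ⟨u, fun i => (g * g) * CFC.sqrt c * cfc (K2 d) c1 * z i, e, he0, he1, hue, ?_, ?_⟩
  · intro i
    rw [huz i, hc2def, sqrt_cut c1 h10 hd0, hc1def]
    noncomm_ring
  · intro T
    obtain ⟨t1, t2⟩ := hT T
    obtain ⟨m1, -, -, m2, -⟩ := hB E T
    have hcut : |tr T c2 - tr T c1| ≤ d := by
      rw [← tr_sub]
      have h3 := (m2 (c2 - c1)).2.2.2
      have h4 : |tr T (c2 - c1)| ≤ ‖T.1.f (c2 - c1)‖ := Complex.abs_re_le_norm _
      have h5 : ‖c2 - c1‖ ≤ d := by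
        rw [norm_sub_rev]
        exact a3 d hd0.le
      linarith
    refine ⟨?_, by linarith⟩
    have h6 : |μ * (tr T c2 - tr T c1)| ≤ d := by
      rw [abs_mul, abs_of_pos hμ0]
      nlinarith [abs_nonneg (tr T c2 - tr T c1)]
    have h7 : (n : ℝ) * tr T e - μ * tr T c1 =
        ((n : ℝ) * tr T e - μ * tr T c2) + μ * (tr T c2 - tr T c1) := by ring
    rw [h7]
    refine (abs_add_le _ _).trans ?_
    have : d ≤ δ / 2 := by rw [hd]; linarith
    linarith

end Pool.Agent.H270R2.NU
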