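import Pool.Agent.H667R5.NX.NU.StubsI

/-!
# MULTID: all blocks, seen by the ideal (adapted from H667R5/TW/TMULTI)
-/

set_option autoImplicit false

namespace Pool.Agent.H270R2.NU

open Pool.Agent.H327R4.Pure Pool.Agent.H667R5.TW
open scoped CStarAlgebra ComplexOrder Matrix

universe u

section

variable {A : Type u} [CStarAlgebra A] [PartialOrder A] [StarOrderedRing A]

omit [PartialOrder A] [StarOrderedRing A] in
theorem multid_tr_sum (T : TS A) {ι : Type*} (s : Finset ι) (f : ι → A) :
    tr T (∑ i ∈ s, f i) = ∑ i ∈ s, tr T (f i) := by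
  simp [tr]

theorem multid_pen_mono (hS : StBAS.{u}) (T : TS A) (β : Blk A) {V V' : A} (h : V ≤ V') :
    tr T (β.pen V) ≤ tr T (β.pen V') := by
  unfold Blk.pen
  rw [multid_tr_sum, multid_tr_sum]
  exact Finset.sum_le_sum fun l _ => (hS A T).2.2.2.2.2.2.1 _ _ _ h

end

theorem t_MULTID (hC : StCPB.{u}) (hS : StBAS.{u}) : StMULTID.{u} := by
  intro A _ _ _ D hB n X X' W lam m δ M
  induction M generalizing δ with
  | zero =>
    intro w β hn hX' h1 hX hW hnW hl0 hl1 hm0 hm hδ hv
    refine ⟨fun _ _ => 0, (hC A n).2.2.2.1, ?_, ?_⟩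
    · simp [dsum]
    · intro T
      refine ⟨?_, ?_, ?_, ?_⟩
      · intro x hx hxD i j
        simp [hδ.le]
      · intro x hx i j
        simp [hδ.le, n2]
      · simp [hδ.le, n2, defect, dsum, tr]
      · simp [hδ.le, dsum, tr]
  | succ M ih =>
    intro w β hn hX' h1 hX hW hnW hl0 hl1 hm0 hm hδ hv
    obtain ⟨F, hF, hF1, hFT⟩ := ih (δ / 2) (fun s => w s.castSucc) (fun s => β s.castSucc) hn hX'
      h1 hX hW hnW hl0 hl1 hm0 hm (half_pos hδ) (fun s => hv _)
    rcases (hv (Fin.last M)).1.eq_or_lt with h0 | hpos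
    · refine ⟨F, hF, hF1, fun T => ?_⟩
      obtain ⟨a1, a2, a3, a4⟩ := hFT T
      simp only [Fin.sum_univ_castSucc, ← h0, zero_mul, add_zero, Complex.ofReal_zero]
      exact ⟨fun x hx hxD i j => (a1 x hx hxD i j).trans (by linarith),
        fun x hx i j => (a2 x hx i j).trans (by linarith), a3.trans (by linarith),
        a4.trans (by linarith)⟩
    · have hμ0 : 0 < m * w (Fin.last M) := mul_pos hm0 hpos
      have hμ1 : m * w (Fin.last M) ≤ 1 / 2 := by
        have := (hv (Fin.last M)).2.1
        nlinarith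
      obtain ⟨s, hs, hFs, hsT⟩ := hB n X X' W lam (m * w (Fin.last M)) (δ / 2)
        (β (Fin.last M)) F hn hX' h1 hX hW hnW hl0 hl1 hμ0 hμ1 (half_pos hδ) (hv _).2.2 hF hF1
      have hds : dsum (fun i j => F i j + s i j) = dsum F + dsum s := by
        simp [dsum, Finset.sum_add_distrib]
      have hmono : dsum F ≤ dsum (fun i j => F i j + s i j) := by
        rw [hds]
        exact le_add_of_nonneg_right ((hC A n).2.2.2.2.2 s hs).2.2.1
      refine ⟨fun i j => F i j + s i j, (hC A n).1 F s hF hs, by rw [hds]; exact hFs,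
        fun T => ?_⟩
      obtain ⟨a1, a2, a3, a4⟩ := hFT T
      obtain ⟨b1, b2, b3, b4⟩ := hsT T
      refine ⟨?_, ?_, ?_, ?_⟩
      · intro x hx hxD i j
        have e1 := a1 x hx hxD i j
        have e2 := b1 x hx hxD i j
        have key : T.1.f (x * (F i j + s i j)) - (if i = j then ((m / n : ℝ) : ℂ) *
            ∑ t, ((w t : ℝ) : ℂ) * (((β t).y x).trace * ((tr T (cc ((β t).R W X')) : ℝ) : ℂ))
            else 0) = (T.1.f (x * F i j) - (if i = j then ((m / n : ℝ) : ℂ) *
            ∑ t : Fin M, ((w t.castSucc : ℝ) : ℂ) * (((β t.castSucc).y x).trace *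
              ((tr T (cc ((β t.castSucc).R W X')) : ℝ) : ℂ)) else 0)) +
            (T.1.f (x * s i j) - (if i = j then
              ((m * w (Fin.last M) / n : ℝ) : ℂ) * (((β (Fin.last M)).y x).trace *
                ((tr T (cc ((β (Fin.last M)).R W X')) : ℝ) : ℂ)) else 0)) := by
          rw [mul_add, map_add, Fin.sum_univ_castSucc]
          split_ifs
          · push_cast
            ring
          · ring
        have hp1 : ∑ t : Fin M, w t.castSucc * tr T ((β t.castSucc).pen (dsum F)) ≤
            ∑ t : Fin M, w t.castSucc * tr T ((β t.castSucc).pen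
              (dsum (fun i j => F i j + s i j))) :=
          Finset.sum_le_sum fun t _ =>
            mul_le_mul_of_nonneg_left (multid_pen_mono hS T _ hmono) (hv _).1
        have hp2 : w (Fin.last M) * tr T ((β (Fin.last M)).pen (dsum F)) ≤
            w (Fin.last M) * tr T ((β (Fin.last M)).pen (dsum (fun i j => F i j + s i j))) :=
          mul_le_mul_of_nonneg_left (multid_pen_mono hS T _ hmono) hpos.le
        have hml : 0 ≤ m / lam := (div_pos hm0 hl0).le
        have hp1' := mul_le_mul_of_nonneg_left hp1 hml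
        have hp2' := mul_le_mul_of_nonneg_left hp2 hml
        have hre : m * w (Fin.last M) / lam * tr T ((β (Fin.last M)).pen (dsum F)) =
            m / lam * (w (Fin.last M) * tr T ((β (Fin.last M)).pen (dsum F))) := by
          ring
        show ‖T.1.f (x * (F i j + s i j)) - _‖ ≤ _
        rw [key]
        refine (norm_add_le _ _).trans ((add_le_add e1 e2).trans ?_)
        rw [Fin.sum_univ_castSucc, Fin.sum_univ_castSucc, hre]
        nlinarith [hp1', hp2']
      · intro x hx i j
        have e1 := a2 x hx i j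
        have e2 := b2 x hx i j
        refine e2.trans ?_
        rw [Fin.sum_univ_castSucc]
        nlinarith [e1]
      · refine b3.trans ?_
        rw [Fin.sum_univ_castSucc]
        nlinarith [a3]
      · rw [hds]
        have : tr T (dsum F + dsum s) = tr T (dsum F) + tr T (dsum s) := by simp [tr]
        rw [this, Fin.sum_univ_castSucc]
        nlinarith [a4, b4]

end Pool.Agent.H270R2.NU
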