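import Pool.Agent.H667R5.NX.NU.StubsI
import Pool.Agent.H667R5.TW.TRW

set_option autoImplicit false

/-! # RWD: strict comparison gives orthogonal rows below `c` (adaptation of TRW) -/

namespace Pool.Agent.H270R2.NU

open Pool.Agent.H327R4.Pure Pool.Agent.H667R5.TW
open scoped CStarAlgebra ComplexOrder Matrix

universe u

theorem t_RWD (hdiag : StDIAG.{u}) (hexa : StEXA.{u}) (hrk : StRK.{u}) : StRWD.{u} := by
  intro A _ _ _ D hD hsc n K a c ε haD hcD hc hc0 hε hT
  have ha : ∀ j, 0 ≤ a j := fun j => (haD j).2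
  -- the two diagonal matrices
  set fa : Fin (n * K + 1) → A :=
    Fin.snoc (α := fun _ => A) (fun p : Fin (n * K) => a (finProdFinEquiv.symm p).2) 0 with hfa
  set fb : Fin (n * K + 1) → A :=
    Fin.snoc (α := fun _ => A) (fun _ : Fin (n * K) => (0 : A)) c with hfb
  have fa1 : ∀ p : Fin (n * K), fa (Fin.castSucc p) = a (finProdFinEquiv.symm p).2 := by
    intro p; rw [hfa, Fin.snoc_castSucc]
  have fa2 : fa (Fin.last _) = 0 := by rw [hfa, Fin.snoc_last]
  have fb1 : ∀ p : Fin (n * K), fb (Fin.castSucc p) = 0 := by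
    intro p; rw [hfb, Fin.snoc_castSucc]
  have fb2 : fb (Fin.last _) = c := by rw [hfb, Fin.snoc_last]
  have fa0 : ∀ p, 0 ≤ fa p := by
    intro p
    refine Fin.lastCases ?_ (fun q => ?_) p
    · rw [fa2]
    · rw [fa1]; exact ha _
  have fb0 : ∀ p, 0 ≤ fb p := by
    intro p
    refine Fin.lastCases ?_ (fun q => ?_) p
    · rw [fb2]; exact hc
    · rw [fb1]
  obtain ⟨da, ra⟩ := hdiag A _ fa fa0
  obtain ⟨db, rb⟩ := hdiag A _ fb fb0
  have hne : (dg fb : MM (n * K + 1) A) ≠ 0 := by
    intro h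
    apply hc0
    have h1 : (dg fb : MM (n * K + 1) A) (Fin.last _) (Fin.last _) = 0 := by rw [h]; rfl
    rw [dg_apply, if_pos rfl, fb2] at h1
    exact h1
  have hcz : Cz (dg fa) (dg fb) := by
    have faD : ∀ p, fa p ∈ D := by
      intro p
      refine Fin.lastCases ?_ (fun q => ?_) p
      · rw [fa2]; exact hD.zero
      · rw [fa1]; exact (haD _).1
    have fbD : ∀ p, fb p ∈ D := by
      intro p
      refine Fin.lastCases ?_ (fun q => ?_) p
      · rw [fb2]; exact hcD
      · rw [fb1]; exact hD.zero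
    apply hsc _ _ _ da db hne
    · intro i j
      rw [dg_apply]
      split_ifs
      · exact faD _
      · exact hD.zero
    · intro i j
      rw [dg_apply]
      split_ifs
      · exact fbD _
      · exact hD.zero
    intro T h1
    rw [ra T.1, rb T.1, Fin.sum_univ_castSucc, Fin.sum_univ_castSucc, fa2, fb2]
    simp only [fa1, fb1, rw_rk_zero, add_zero, Finset.sum_const_zero, zero_add]
    have h2 := hT T h1
    rw [Equiv.sum_comp finProdFinEquiv.symm (fun q : Fin n × Fin K => rk T.1 (a q.2)),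
      Fintype.sum_prod_type]
    simpa using h2
  obtain ⟨δ, x, hδ, hx⟩ := hexa _ (dg fa) (dg fb) ε da db hcz hε
  rw [rw_cut_dg fa fa0 ε hε.le, rw_cut_dg fb fb0 δ hδ.le] at hx
  have hent : ∀ p q, (if p = q then cut ε (fa p) else 0) =
      x p (Fin.last _) * cut δ c * star (x q (Fin.last _)) := by
    intro p q
    have h1 : (dg (fun j => cut ε (fa j)) : MM (n * K + 1) A) p q =
      (x * dg (fun j => cut δ (fb j)) * star x) p q := by rw [hx]
    rw [dg_apply] at h1
    rw [h1, CStarMatrix.mul_apply]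
    have hz : cut δ (0 : A) = 0 := by
      unfold cut
      simp
    have h3 : ∀ r, (x * dg (fun j => cut δ (fb j))) p r = x p r * cut δ (fb r) := by
      intro r
      rw [CStarMatrix.mul_apply, Finset.sum_eq_single r]
      · rw [dg_apply, if_pos rfl]
      · intro s _ hs
        rw [dg_apply, if_neg hs, mul_zero]
      · simp
    rw [Finset.sum_eq_single (Fin.last _)]
    · rw [h3, fb2, CStarMatrix.star_apply]
    · intro r _ hr
      obtain ⟨r', rfl⟩ : ∃ r', r = Fin.castSucc r' := by
        refine ⟨r.castPred hr, ?_⟩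
        simp
      rw [h3, fb1, hz, mul_zero, zero_mul]
    · simp
  obtain ⟨g, hg⟩ := rw_root c hc δ hδ
  refine ⟨fun i k => CFC.sqrt c * (g * star (x (Fin.castSucc (finProdFinEquiv (i, k)))
    (Fin.last _))), fun i k => g * star (x (Fin.castSucc (finProdFinEquiv (i, k)))
    (Fin.last _)), fun i k => rfl, ?_⟩
  intro i k j l
  set X := x (Fin.castSucc (finProdFinEquiv (i, k))) (Fin.last _) with hX
  set Y := x (Fin.castSucc (finProdFinEquiv (j, l))) (Fin.last _) with hY
  have h1 : star (CFC.sqrt c * (g * star X)) * (CFC.sqrt c * (g * star Y)) =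
      X * (star (CFC.sqrt c * g) * (CFC.sqrt c * g)) * star Y := by
    simp only [star_mul, star_star, mul_assoc]
  rw [h1, hg, hX, hY, ← hent]
  have h2 : (Fin.castSucc (finProdFinEquiv (i, k)) = Fin.castSucc (finProdFinEquiv (j, l))) ↔
      (i = j ∧ k = l) := by
    rw [Fin.castSucc_inj, finProdFinEquiv.apply_eq_iff_eq, Prod.mk.injEq]
  by_cases h : i = j ∧ k = l
  · rw [if_pos (h2.2 h), if_pos h, fa1, Equiv.symm_apply_apply]
  · rw [if_neg (fun h' => h (h2.1 h')), if_neg h]

end Pool.Agent.H270R2.NU
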