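import Pool.Agent.H667R5.NX.NU.StubsI
import Pool.Agent.H327R4.Pure.All4

/-! small positive elements of the ideal -/

set_option autoImplicit false

namespace Pool.Agent.H270R2.NU

open Filter Topology Pool.Agent.H327R4.Pure Pool.Agent.H667R5.TW

universe u

theorem t_SMALLD : StSMALLD.{u} := by
  intro E _ _ _ D hD N
  have key : ∀ k : ℕ, ∃ c : E, c ∈ D ∧ 0 ≤ c ∧ c ≠ 0 ∧
      ∀ T : TS E, (2 : ℝ) ^ k * rk T.1 c ≤ 1 := by
    intro k
    induction k with
    | zero =>
      obtain ⟨x, hx, hx0⟩ := hD.nonzero
      refine ⟨star x * x, hD.mul_left _ _ hx, star_mul_self_nonneg x, ?_, fun T => ?_⟩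
      · intro h
        exact hx0 (CStarRing.star_mul_self_eq_zero_iff x |>.mp h)
      · rw [pow_zero, one_mul]
        have h1 := small_rk_one rk'.{u} mt'.{u} ct'.{u} E T.1
        have hT : (T.1.f 1).re = 1 := by
          rw [T.2]
          simp
        rw [hT] at h1
        refine le_trans ?_ h1
        have hne : star x * x ≠ 0 := fun h =>
          hx0 (CStarRing.star_mul_self_eq_zero_iff x |>.mp h)
        refine mon'.{u} E T.1 (star x * x) 1 ‖star x * x‖ (star_mul_self_nonneg x) zero_le_one
          (norm_pos_iff.2 hne) ?_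
        have h2 := IsSelfAdjoint.le_algebraMap_norm_self (a := star x * x)
          (IsSelfAdjoint.star_mul_self x)
        rw [Algebra.algebraMap_eq_smul_one] at h2
        exact h2
    | succ k ih =>
      obtain ⟨c, hcD, hc0, hcn, hc⟩ := ih
      obtain ⟨x, hxD, M, hM, hx, hxx, h1, h2⟩ := hD.nil c hcD hc0 hcn
      refine ⟨star x * x, hD.mul_left _ _ hxD, star_mul_self_nonneg x, ?_, fun T => ?_⟩
      · intro h
        exact hx (CStarRing.star_mul_self_eq_zero_iff x |>.mp h)
      · have horth : (star x * x) * (x * star x) = 0 := by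
          rw [mul_assoc, ← mul_assoc x x, hxx, zero_mul, mul_zero]
        have ha := add'.{u} E T.1 (star x * x) (x * star x) (star_mul_self_nonneg x)
          (mul_star_self_nonneg x) horth
        have hs := small_rk_swap swap'.{u} E T.1 x
        have hle : star x * x + x * star x ≤ (2 * M) • c := by
          rw [two_mul, add_smul]
          exact add_le_add h1 h2
        have hm := mon'.{u} E T.1 (star x * x + x * star x) c (2 * M)
          (add_nonneg (star_mul_self_nonneg x) (mul_star_self_nonneg x)) hc0 (by linarith) hle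
        have hcT := hc T
        have hpos : (0 : ℝ) ≤ 2 ^ k := by positivity
        have h5 : 2 * rk T.1 (star x * x) ≤ rk T.1 c := by linarith
        calc (2 : ℝ) ^ (k + 1) * rk T.1 (star x * x) = 2 ^ k * (2 * rk T.1 (star x * x)) := by ring
          _ ≤ 2 ^ k * rk T.1 c := mul_le_mul_of_nonneg_left h5 hpos
          _ ≤ _ := hcT
  obtain ⟨c, hcD, hc0, hcn, hc⟩ := key N
  refine ⟨c, hcD, hc0, hcn, fun T => ?_⟩
  have h1 : (N : ℝ) ≤ 2 ^ N := by exact_mod_cast (Nat.lt_two_pow_self (n := N)).le
  exact (mul_le_mul_of_nonneg_right h1 (rk'.{u} E T.1 c hc0).2.2.2).trans (hc T)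

end Pool.Agent.H270R2.NU
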