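import Pool.Agent.H667R5.NX.NU.StubsI
import Pool.Agent.H667R5.TW.TSTEP1

set_option autoImplicit false
set_option linter.unusedSectionVars false

namespace Pool.Agent.H270R2.NU

open Filter Topology Pool.Agent.H327R4.Pure Pool.Agent.H667R5.TW
open Pool.Agent.H667R5.TW.STEP1x
open scoped CStarAlgebra ComplexOrder Matrix

universe u

namespace STEP1Dx

section

variable {A : Type u} [CStarAlgebra A] [PartialOrder A] [StarOrderedRing A]

/-- each term of the weighted defect is nonnegative -/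
theorem wterm_nn (hB : StBAS.{u}) (hC : StCPB.{u}) {n : ℕ} (T : TS A) {P : Fin n → Fin n → A}
    (hP : IsCP P) (h1 : dsum P ≤ 1) {a : A} (ha : star a = a) (i j : Fin n) :
    0 ≤ tr T (a * (P j j - star (P i j) * P i j) * a) := by
  have h2 : 0 ≤ P j j - star (P i j) * P i j := sub_nonneg.2 (cp_le hC hP h1 i j)
  have d := (hB A T).2.2.2.2.2.2.1 0 _ a h2
  rw [mul_zero, zero_mul, tr_zero, ha] at d
  exact d

theorem comm_term (hB : StBAS.{u}) {n : ℕ} (T : TS A) (P : Fin n → Fin n → A) (a : A)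
    (i j : Fin n) : n2 T (a * P i j - P i j * a) ≤ comm T P a := by
  unfold Pool.Agent.H667R5.TW.comm
  refine le_trans (Finset.single_le_sum (f := fun j => n2 T (a * P i j - P i j * a))
    (fun j _ => n2_nn hB T _) (Finset.mem_univ j)) ?_
  exact Finset.single_le_sum (f := fun i => ∑ j, n2 T (a * P i j - P i j * a))
    (fun i _ => Finset.sum_nonneg fun j _ => n2_nn hB T _) (Finset.mem_univ i)

/-- `|T(y^* [a,P_ij])| ≤ sqrt(comm)` for a contraction `y` -/
theorem cs_comm (hB : StBAS.{u}) {n : ℕ} (T : TS A) (P : Fin n → Fin n → A) (a y : A)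
    (hy : ‖y‖ ≤ 1) (i j : Fin n) :
    |tr T (star y * (a * P i j - P i j * a))| ≤ √(comm T P a) := by
  have h1 := cs hB T y (a * P i j - P i j * a)
  have h2 : n2 T y ≤ 1 := ((hB A T).2.2.2.1 y).2.2.1.trans (pow_le_one₀ (norm_nonneg _) hy)
  have h3 : √(n2 T y) ≤ 1 := Real.sqrt_le_iff.2 ⟨zero_le_one, by rw [one_pow]; exact h2⟩
  have h4 : √(n2 T (a * P i j - P i j * a)) ≤ √(comm T P a) :=
    Real.sqrt_le_sqrt (comm_term hB T P a i j)
  calc |tr T (star y * (a * P i j - P i j * a))| ≤ √(n2 T y) * √(n2 T (a * P i j - P i j * a)) := h1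
    _ ≤ 1 * √(comm T P a) := mul_le_mul h3 h4 (Real.sqrt_nonneg _) zero_le_one
    _ = √(comm T P a) := one_mul _

theorem lemL (hB : StBAS.{u}) (hC : StCPB.{u}) {n : ℕ} (T : TS A)
    {P : Fin n → Fin n → A} (hP : IsCP P) (h1 : dsum P ≤ 1) {a : A} (ha : star a = a)
    (han : ‖a‖ ≤ 1) :
    tr T (a * (dsum P - dsum P * dsum P) * a) ≤ wdef T a P + n ^ 2 * √(comm T P a) := by
  have hPn := fun i j => norm_P hC hP h1 i j
  have hc0 : 0 ≤ √(comm T P a) := Real.sqrt_nonneg _
  have key : ∀ i j, -√(comm T P a) ≤ tr T (a * (P i i * P j j) * a) := by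
    intro i j
    have b0 : star (P i i * a) = a * P i i := by rw [star_mul, ha, cp_star hC hP i i]
    have e1 : tr T (a * (P i i * P j j) * a) = tr T (P i i * (a * P j j * a)) -
        tr T (star (P i i * a) * (a * P j j - P j j * a)) := by
      rw [b0]
      have b1 : a * P i i * (a * P j j - P j j * a) =
          a * (P i i * a * P j j) - a * (P i i * P j j) * a := by noncomm_ring
      have b2 : tr T (a * (P i i * a * P j j)) = tr T (P i i * (a * P j j * a)) := by
        rw [tr_comm]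
        congr 1
        noncomm_ring
      rw [b1, tr_sub, b2]
      ring
    have e2 : 0 ≤ tr T (P i i * (a * P j j * a)) := by
      refine (hB A T).2.2.2.2.2.1 _ _ (cp_nn hC hP i) ?_
      have := star_left_conjugate_nonneg (cp_nn hC hP j) a
      rwa [ha] at this
    have e3 := cs_comm hB T P a (P i i * a) ((norm_mul_le _ _).trans
      (mul_le_one₀ (hPn i i) (norm_nonneg _) han)) j j
    have e4 := (abs_le.1 e3).2
    rw [e1]
    linarith
  have e0 : tr T (a * (dsum P - dsum P * dsum P) * a) =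
      ∑ i, (tr T (a * P i i * a) - ∑ j, tr T (a * (P i i * P j j) * a)) := by
    rw [Finset.sum_sub_distrib, mul_sub, sub_mul, tr_sub]
    unfold dsum
    rw [Finset.mul_sum, Finset.sum_mul, tr_sum]
    congr 1
    rw [Finset.sum_mul, Finset.mul_sum, Finset.sum_mul, tr_sum]
    refine Finset.sum_congr rfl fun i _ => ?_
    rw [Finset.mul_sum, Finset.mul_sum, Finset.sum_mul, tr_sum]
  have e5 : ∀ i, tr T (a * P i i * a) - ∑ j, tr T (a * (P i i * P j j) * a) ≤
      tr T (a * (P i i - star (P i i) * P i i) * a) + n * √(comm T P a) := by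
    intro i
    have b1 : tr T (a * (P i i * P i i) * a) + √(comm T P a) ≤
        ∑ j, (tr T (a * (P i i * P j j) * a) + √(comm T P a)) :=
      Finset.single_le_sum (f := fun j => tr T (a * (P i i * P j j) * a) + √(comm T P a))
        (fun j _ => by have := key i j; linarith) (Finset.mem_univ i)
    rw [Finset.sum_add_distrib, Finset.sum_const, Finset.card_univ, Fintype.card_fin,
      nsmul_eq_mul] at b1
    have b2 : tr T (a * (P i i - star (P i i) * P i i) * a) =
        tr T (a * P i i * a) - tr T (a * (P i i * P i i) * a) := by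
      rw [cp_star hC hP i i, ← tr_sub]
      congr 1
      noncomm_ring
    rw [b2]
    linarith
  have e6 : ∑ i, tr T (a * (P i i - star (P i i) * P i i) * a) ≤ wdef T a P := by
    unfold wdef
    refine Finset.sum_le_sum fun i _ => ?_
    exact Finset.single_le_sum (f := fun j => tr T (a * (P j j - star (P i j) * P i j) * a))
      (fun j _ => wterm_nn hB hC T hP h1 ha i j) (Finset.mem_univ i)
  have e7 := Finset.sum_le_sum (s := (Finset.univ : Finset (Fin n))) fun i _ => e5 i
  rw [Finset.sum_add_distrib, Finset.sum_const, Finset.card_univ, Fintype.card_fin,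
    nsmul_eq_mul] at e7
  rw [e0]
  have e8 : (n : ℝ) * (n * √(comm T P a)) = n ^ 2 * √(comm T P a) := by ring
  rw [e8] at e7
  linarith

theorem lemaD (hB : StBAS.{u}) (hC : StCPB.{u}) {n : ℕ} (hn : 1 ≤ n) (T : TS A)
    {P Q : Fin n → Fin n → A} (hP : IsCP P) (h1 : dsum P ≤ 1) {m δ : ℝ} (hm : 0 < m) {h a : A}
    (ha : star a = a) (han : ‖a‖ ≤ 1) (hh : h = 1 - dsum P)
    (g2 : ∀ i j, |tr T (h * a * a * h * Q i j) -
      (if i = j then m / n * tr T (h * a * a * h) else 0)| ≤ δ) :
    tr T (a * (1 - dsum (fun i j => P i j + h * Q i j * h)) * a) ≤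
      (1 - m) * tr T (a * (1 - dsum P) * a) + m * (wdef T a P + n ^ 2 * √(comm T P a)) +
        n * δ := by
  have e0 : tr T (a * (h * dsum Q * h) * a) = ∑ i, tr T (h * a * a * h * Q i i) := by
    have b1 : a * (h * dsum Q * h) * a = (a * h * dsum Q) * (h * a) := by noncomm_ring
    have b2 : (h * a) * (a * h * dsum Q) = h * a * a * h * dsum Q := by noncomm_ring
    rw [b1, tr_comm, b2]
    unfold dsum
    rw [Finset.mul_sum, tr_sum]
  have e1 : tr T (a * (1 - dsum (fun i j => P i j + h * Q i j * h)) * a) =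
      tr T (a * h * a) - ∑ i, tr T (h * a * a * h * Q i i) := by
    rw [dsum_conj, ← e0, ← tr_sub]
    congr 1
    rw [hh]
    noncomm_ring
  have e2 : m * tr T (h * a * a * h) - n * δ ≤ ∑ i, tr T (h * a * a * h * Q i i) := by
    have : ∑ i : Fin n, (m / n * tr T (h * a * a * h) - δ) ≤
        ∑ i, tr T (h * a * a * h * Q i i) := by
      refine Finset.sum_le_sum fun i _ => ?_
      have := g2 i i
      rw [if_pos rfl] at this
      have := (abs_le.1 this).1
      linarith
    rw [Finset.sum_sub_distrib, sum_diag hn, Finset.sum_const, Finset.card_univ,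
      Fintype.card_fin, nsmul_eq_mul] at this
    exact this
  have e3 : tr T (a * h * a) - tr T (h * a * a * h) ≤ wdef T a P + n ^ 2 * √(comm T P a) := by
    have := lemL hB hC T hP h1 ha han
    have e : dsum P - dsum P * dsum P = h - h * h := by
      rw [hh]
      noncomm_ring
    rw [e] at this
    have e' : tr T (h * a * a * h) = tr T (a * (h * h) * a) := by
      have b1 : h * a * a * h = (h * a) * (a * h) := by noncomm_ring
      have b2 : (a * h) * (h * a) = a * (h * h) * a := by noncomm_ring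
      rw [b1, tr_comm, b2]
    rw [e', ← tr_sub]
    have e'' : a * h * a - a * (h * h) * a = a * (h - h * h) * a := by noncomm_ring
    rw [e'']
    exact this
  have e4 := mul_le_mul_of_nonneg_left e3 hm.le
  rw [e1, ← hh]
  linarith

/-- lower bound for the norm of `h Q_ij h a` -/
theorem nbD (hB : StBAS.{u}) (hC : StCPB.{u}) {n : ℕ} (T : TS A)
    {Q : Fin n → Fin n → A} (hQ : IsCP Q) (hQ1 : dsum Q ≤ 1) {m s : ℝ} (hm : 0 < m)
    (hs : 0 ≤ s) {h a : A} (hh : star h = h) (ha : star a = a) (hhn : ‖h‖ ≤ 1) (han : ‖a‖ ≤ 1)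
    (hle : h * h * a * a * h * h ≤ 1)
    (i j : Fin n) (g1 : tr T (Q j j) ≤ 5 * m)
    (k2 : n2 T (h * Q i j - Q i j * h) ≤ s ^ 2 * m) :
    tr T (h * h * a * a * h * h * Q j j) - (tr T (Q j j) - n2 T (Q i j)) - 5 * s * m ≤
      n2 T (h * Q i j * h * a) := by
  set q : A := Q i j with hq
  have e1 : n2 T (h * q * h * a) = n2 T (q * h * h * a) +
      2 * tr T (star (q * h * h * a) * ((h * q - q * h) * h * a)) +
      n2 T ((h * q - q * h) * h * a) := by
    rw [← n2_add hB T]
    congr 1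
    noncomm_ring
  have e2 : |tr T (star (q * h * h * a) * ((h * q - q * h) * h * a))| ≤ 5 / 2 * s * m := by
    have c1 := cs hB T (q * h * h * a) ((h * q - q * h) * h * a)
    have c2 : n2 T (q * h * h * a) ≤ 5 * m := by
      have b1 := n2_mul_right hB T (q * h * h) a han
      have b2 := n2_mul_right hB T (q * h) h hhn
      have b3 := n2_mul_right hB T q h hhn
      have b4 := term_nn hB hC T hQ hQ1 i j
      linarith
    have c3 : n2 T ((h * q - q * h) * h * a) ≤ s ^ 2 * m := by
      have b1 := n2_mul_right hB T ((h * q - q * h) * h) a han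
      have b2 := n2_mul_right hB T (h * q - q * h) h hhn
      linarith
    refine c1.trans ?_
    rw [← Real.sqrt_mul (n2_nn hB T _)]
    refine Real.sqrt_le_iff.2 ⟨by positivity, ?_⟩
    have c4 := n2_nn hB T (q * h * h * a)
    have c5 := n2_nn hB T ((h * q - q * h) * h * a)
    calc n2 T (q * h * h * a) * n2 T ((h * q - q * h) * h * a) ≤ (5 * m) * (s ^ 2 * m) :=
          mul_le_mul c2 c3 c5 (by positivity)
      _ ≤ (5 / 2 * s * m) ^ 2 := by
          have : 0 ≤ s ^ 2 * m ^ 2 := by positivity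
          nlinarith
  have e3 : tr T (h * h * a * a * h * h * Q j j) - (tr T (Q j j) - n2 T q) ≤
      n2 T (q * h * h * a) := by
    have d1 : 0 ≤ Q j j - star q * q := sub_nonneg.2 (cp_le hC hQ hQ1 i j)
    have d2 : 0 ≤ 1 - h * h * a * a * h * h := sub_nonneg.2 hle
    have d3 := (hB A T).2.2.2.2.2.1 _ _ d2 d1
    have d4 : (1 - h * h * a * a * h * h) * (Q j j - star q * q) =
        Q j j - star q * q - h * h * a * a * h * h * Q j j +
          (h * h * a) * (a * h * h * (star q * q)) := by noncomm_ring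
    have d5 : n2 T (q * h * h * a) = tr T ((h * h * a) * (a * h * h * (star q * q))) := by
      rw [n2_eq, tr_comm T (h * h * a)]
      congr 1
      rw [star_mul, star_mul, star_mul, hh, ha]
      noncomm_ring
    rw [d4, tr_add, tr_sub, tr_sub, ← d5] at d3
    rw [n2_eq T q]
    linarith
  have e4 := (abs_le.1 e2).1
  have e5 := n2_nn hB T ((h * q - q * h) * h * a)
  rw [e1]
  linarith

theorem lembD (hB : StBAS.{u}) (hC : StCPB.{u}) {n : ℕ} (hn : 1 ≤ n) (T : TS A)
    {P Q : Fin n → Fin n → A} (hP : IsCP P) (h1 : dsum P ≤ 1) (hQ : IsCP Q) (hQ1 : dsum Q ≤ 1)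
    {m s : ℝ} (hm : 0 < m) (hs : 0 ≤ s) {h a : A}
    (hh : h = 1 - dsum P) (hhs : star h = h) (h0 : 0 ≤ h) (hhn : ‖h‖ ≤ 1)
    (ha : star a = a) (han : ‖a‖ ≤ 1) (hle : h * h * a * a * h * h ≤ 1)
    (g1 : ∀ j, tr T (Q j j) ≤ 5 * m)
    (g2 : ∀ i j, |tr T (h * a * a * h * Q i j) -
      (if i = j then m / n * tr T (h * a * a * h) else 0)| ≤ s ^ 2 * m)
    (g4 : ∀ i j, |tr T (h * h * a * a * h * h * Q i j) -
      (if i = j then m / n * tr T (h * h * a * a * h * h) else 0)| ≤ s ^ 2 * m)
    (gP : ∀ i j, |tr T (h * a * a * star (P i j) * h * Q i j) -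
      (if i = j then m / n * tr T (h * a * a * star (P i j) * h) else 0)| ≤ s ^ 2 * m)
    (k2 : ∀ i j, n2 T (h * Q i j - Q i j * h) ≤ s ^ 2 * m)
    (hd : defect T Q ≤ s ^ 2 * m) :
    wdef T a (fun i j => P i j + h * Q i j * h) ≤
      (1 + 2 * n * m) * wdef T a P + 10 * n ^ 3 * m * √(comm T P a) +
        (5 * n ^ 2 * s ^ 2 + 5 * n ^ 2 * s) * m := by
  have hn' : (1 : ℝ) ≤ n := by exact_mod_cast hn
  have hPn := fun i j => norm_P hC hP h1 i j
  have hc0 : 0 ≤ √(comm T P a) := Real.sqrt_nonneg _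
  -- each term
  have t0 : ∀ i j, tr T (a * ((P j j + h * Q j j * h) -
      star (P i j + h * Q i j * h) * (P i j + h * Q i j * h)) * a) =
      tr T (a * (P j j - star (P i j) * P i j) * a) + tr T (h * a * a * h * Q j j) -
        2 * tr T (h * a * a * star (P i j) * h * Q i j) - n2 T (h * Q i j * h * a) := by
    intro i j
    have b0 : a * ((P j j + h * Q j j * h) -
        star (P i j + h * Q i j * h) * (P i j + h * Q i j * h)) * a =
        a * (P j j - star (P i j) * P i j) * a + (a * h * Q j j) * (h * a) -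
          (a * star (P i j) * h * Q i j) * (h * a) -
          star ((a * star (P i j) * h * Q i j) * (h * a)) -
          star (h * Q i j * h * a) * (h * Q i j * h * a) := by
      simp only [star_add, star_mul, star_star, hhs, ha]
      noncomm_ring
    have b1 : (h * a) * (a * h * Q j j) = h * a * a * h * Q j j := by noncomm_ring
    have b2 : (h * a) * (a * star (P i j) * h * Q i j) = h * a * a * star (P i j) * h * Q i j := by
      noncomm_ring
    rw [b0, tr_sub, tr_sub, tr_sub, tr_add, tr_star hB, tr_comm T (a * h * Q j j),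
      tr_comm T (a * star (P i j) * h * Q i j), b1, b2, ← n2_eq]
    ring
  -- the first term
  have f1 : ∑ j, tr T (h * a * a * h * Q j j) ≤ m * tr T (h * a * a * h) + n * (s ^ 2 * m) := by
    have : ∑ i, tr T (h * a * a * h * Q i i) ≤
        ∑ i : Fin n, (m / n * tr T (h * a * a * h) + s ^ 2 * m) := by
      refine Finset.sum_le_sum fun i _ => ?_
      have := g2 i i
      rw [if_pos rfl] at this
      have := (abs_le.1 this).2
      linarith
    rw [Finset.sum_add_distrib, sum_diag hn, Finset.sum_const, Finset.card_univ,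
      Fintype.card_fin, nsmul_eq_mul] at this
    exact this
  -- the cross terms
  have f2 : ∀ i j, - (if i = j then m / n * √(comm T P a) else 0) - (s ^ 2 * m) ≤
      tr T (h * a * a * star (P i j) * h * Q i j) := by
    intro i j
    have b := (abs_le.1 (gP i j)).1
    have c : - (if i = j then m / n * √(comm T P a) else 0) ≤
        (if i = j then m / n * tr T (h * a * a * star (P i j) * h) else 0) := by
      split_ifs with hij
      · subst hij
        rw [← mul_neg]
        refine mul_le_mul_of_nonneg_left ?_ (div_nonneg hm.le (by linarith))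
        have d1 : tr T (h * a * a * star (P i i) * h) = tr T ((h * h) * (a * P i i * a)) +
            tr T (star (a * h * h) * (a * P i i - P i i * a)) := by
          rw [cp_star hC hP i i, tr_comm, ← tr_add]
          congr 1
          rw [star_mul, star_mul, hhs, ha]
          noncomm_ring
        have d2 : 0 ≤ tr T ((h * h) * (a * P i i * a)) := by
          refine (hB A T).2.2.2.2.2.1 _ _ ?_ ?_
          · have := star_mul_self_nonneg h
            rwa [hhs] at this
          · have := star_left_conjugate_nonneg (cp_nn hC hP i) a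
            rwa [ha] at this
        have d3 := cs_comm hB T P a (a * h * h) ((norm_mul_le _ _).trans
          (mul_le_one₀ ((norm_mul_le _ _).trans (mul_le_one₀ han (norm_nonneg _) hhn))
            (norm_nonneg _) hhn)) i i
        have d4 := (abs_le.1 d3).1
        rw [d1]
        linarith
      · simp
    linarith
  have f2' : - (m * √(comm T P a)) - n ^ 2 * (s ^ 2 * m) ≤
      ∑ i, ∑ j, tr T (h * a * a * star (P i j) * h * Q i j) := by
    have : ∑ i : Fin n, ∑ j : Fin n,
        (- (if i = j then m / n * √(comm T P a) else 0) - (s ^ 2 * m)) ≤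
        ∑ i, ∑ j, tr T (h * a * a * star (P i j) * h * Q i j) :=
      Finset.sum_le_sum fun i _ => Finset.sum_le_sum fun j _ => f2 i j
    simp only [Finset.sum_sub_distrib, Finset.sum_neg_distrib, Finset.sum_ite_eq,
      Finset.mem_univ, if_true, Finset.sum_const, Finset.card_univ, Fintype.card_fin,
      nsmul_eq_mul] at this
    have e : (n : ℝ) * (m / n * √(comm T P a)) = m * √(comm T P a) := by
      have : (n : ℝ) ≠ 0 := by linarith
      field_simp
    rw [e] at this
    linarith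
  -- the square terms
  have f3 := fun i j => nbD hB hC T hQ hQ1 hm hs hhs ha hhn han hle i j (g1 j) (k2 i j)
  have f4 : n * m * tr T (h * h * a * a * h * h) - n ^ 2 * (s ^ 2 * m) - s ^ 2 * m -
      n ^ 2 * (5 * s * m) ≤ ∑ i, ∑ j, n2 T (h * Q i j * h * a) := by
    have a1 : ∑ i : Fin n, ∑ j : Fin n, (tr T (h * h * a * a * h * h * Q j j) -
        (tr T (Q j j) - n2 T (Q i j)) - 5 * s * m) ≤ ∑ i, ∑ j, n2 T (h * Q i j * h * a) :=
      Finset.sum_le_sum fun i _ => Finset.sum_le_sum fun j _ => f3 i j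
    have a2 : ∑ i : Fin n, ∑ j : Fin n, (tr T (h * h * a * a * h * h * Q j j) -
        (tr T (Q j j) - n2 T (Q i j)) - 5 * s * m) =
        n * ∑ j, tr T (h * h * a * a * h * h * Q j j) - defect T Q - n ^ 2 * (5 * s * m) := by
      rw [defect_eq]
      simp only [Finset.sum_sub_distrib, Finset.sum_const, Finset.card_univ, Fintype.card_fin,
        nsmul_eq_mul]
      ring
    have a3 : m * tr T (h * h * a * a * h * h) - n * (s ^ 2 * m) ≤
        ∑ j, tr T (h * h * a * a * h * h * Q j j) := by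
      have : ∑ i : Fin n, (m / n * tr T (h * h * a * a * h * h) - s ^ 2 * m) ≤
          ∑ j, tr T (h * h * a * a * h * h * Q j j) := by
        refine Finset.sum_le_sum fun i _ => ?_
        have := g4 i i
        rw [if_pos rfl] at this
        have := (abs_le.1 this).1
        linarith
      rw [Finset.sum_sub_distrib, sum_diag hn, Finset.sum_const, Finset.card_univ,
        Fintype.card_fin, nsmul_eq_mul] at this
      exact this
    have a4 := mul_le_mul_of_nonneg_left a3 (by linarith : (0 : ℝ) ≤ n)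
    rw [a2] at a1
    linarith
  -- expansion
  have f5 : wdef T a (fun i j => P i j + h * Q i j * h) =
      wdef T a P + n * ∑ j, tr T (h * a * a * h * Q j j) -
        2 * ∑ i, ∑ j, tr T (h * a * a * star (P i j) * h * Q i j) -
        ∑ i, ∑ j, n2 T (h * Q i j * h * a) := by
    unfold wdef
    simp only [t0, Finset.sum_sub_distrib, Finset.sum_add_distrib, Finset.mul_sum,
      Finset.sum_const, Finset.card_univ, Fintype.card_fin, nsmul_eq_mul]
  have f7 : tr T (h * a * a * h) - tr T (h * h * a * a * h * h) ≤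
      2 * (wdef T a P + n ^ 2 * √(comm T P a)) := by
    have a1 : 0 ≤ (h + h + h * h) := by
      have := star_mul_self_nonneg h
      rw [hhs] at this
      exact add_nonneg (add_nonneg h0 h0) this
    have a3 := (hB A T).2.2.2.2.2.2.1 0 _ ((1 - h) * a) a1
    rw [mul_zero, zero_mul, tr_zero] at a3
    have a4 : star ((1 - h) * a) * (h + h + h * h) * ((1 - h) * a) =
        a * (h - h * h) * a + a * (h - h * h) * a -
          ((a * h) * (h * a) - (a * h * h) * (h * h * a)) := by
      rw [star_mul, star_sub, star_one, hhs, ha]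
      noncomm_ring
    rw [a4, tr_sub, tr_add, tr_sub T ((a * h) * (h * a)), tr_comm T (a * h),
      tr_comm T (a * h * h)] at a3
    have a6 : (h * a) * (a * h) = h * a * a * h := by noncomm_ring
    have a7 : (h * h * a) * (a * h * h) = h * h * a * a * h * h := by noncomm_ring
    rw [a6, a7] at a3
    have a5 := lemL hB hC T hP h1 ha han
    have e : dsum P - dsum P * dsum P = h - h * h := by
      rw [hh]
      noncomm_ring
    rw [e] at a5
    linarith
  have f8 := mul_le_mul_of_nonneg_left f7 (by positivity : (0 : ℝ) ≤ n * m)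
  have f9 := mul_le_mul_of_nonneg_left f1 (by linarith : (0 : ℝ) ≤ n)
  have f11 : s ^ 2 * m ≤ n ^ 2 * (s ^ 2 * m) := by
    have : (1 : ℝ) ≤ n ^ 2 := one_le_pow₀ hn'
    have h3 : 0 ≤ s ^ 2 * m := by positivity
    nlinarith
  have f12 : (n : ℝ) * m * (tr T (h * a * a * h) - tr T (h * h * a * a * h * h)) =
      n * m * tr T (h * a * a * h) - n * m * tr T (h * h * a * a * h * h) := by ring
  rw [f12] at f8
  have f13 : (1 + 2 * n * m) * wdef T a P + 10 * n ^ 3 * m * √(comm T P a) +
      (5 * n ^ 2 * s ^ 2 + 5 * n ^ 2 * s) * m =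
      wdef T a P + n * m * (2 * (wdef T a P + n ^ 2 * √(comm T P a))) +
        8 * n ^ 3 * m * √(comm T P a) + 5 * (n ^ 2 * (s ^ 2 * m)) + n ^ 2 * (5 * s * m) := by
    ring
  have f14 : 2 * (m * √(comm T P a)) ≤ 8 * n ^ 3 * m * √(comm T P a) := by
    have h3 : (1 : ℝ) ≤ n ^ 3 := one_le_pow₀ hn'
    have h4 : 0 ≤ m * √(comm T P a) := by positivity
    nlinarith
  rw [f13, f5]
  linarith

end

end STEP1Dx

open STEP1Dx

theorem t_STEP1D (hB : StBAS.{u}) (hC : StCPB.{u}) : StSTEP1D.{u} := by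
  classical
  intro E _ _ _ D n hn hD hTiny ε hε hε1
  have hn' : (1 : ℝ) ≤ n := by exact_mod_cast hn
  have hn2 : (1 : ℝ) ≤ n ^ 2 := one_le_pow₀ hn'
  set s : ℝ := ε / (100 * n ^ 2) with hs
  have hs0 : 0 < s := by positivity
  have hsn : n ^ 2 * s = ε / 100 := by
    rw [hs]
    field_simp
  have hs1 : s ≤ 1 / 100 := by
    have : s ≤ n ^ 2 * s := le_mul_of_one_le_left hs0.le hn2
    linarith
  obtain ⟨m0, hm0, H⟩ := hTiny (s ^ 2) (by positivity)
  refine ⟨m0, hm0, ?_⟩
  intro m hm hmm X a hX haX ha0 ha1 P hP hP1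
  have haD : a ∈ D := (hX a haX).2
  have han : ‖a‖ ≤ 1 := (hX a haX).1
  have hasa : IsSelfAdjoint a := IsSelfAdjoint.of_nonneg ha0
  have has : star a = a := hasa.star_eq
  -- membership in D
  have Dsub : ∀ x y, x ∈ D → y ∈ D → x - y ∈ D := by
    intro x y hx hy
    have h1 := hD.add x ((-1 : ℂ) • y) hx (hD.smul _ y hy)
    rwa [neg_one_smul, ← sub_eq_add_neg] at h1
  have Dsmul : ∀ (r : ℝ) (x : E), x ∈ D → r • x ∈ D := by
    intro r x hx
    have h1 := hD.smul (r : ℂ) x hx
    have h2 : r • x = (r : ℂ) • x := by simp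
    rwa [h2]
  set h : E := 1 - dsum P with hh
  have h0 : 0 ≤ h := sub_nonneg.2 hP1
  have hh1 : h ≤ 1 := sub_le_self _ (cp_dsum_nn hC hP)
  have hsa : IsSelfAdjoint h := IsSelfAdjoint.of_nonneg h0
  have hhs : star h = h := hsa.star_eq
  have hanti := CStarAlgebra.pow_antitone h0 hh1
  have hhh : h * h ≤ h := by
    have := hanti (show 1 ≤ 2 by norm_num)
    simp only [pow_one] at this
    rwa [sq] at this
  have hhn : ‖h‖ ≤ 1 := norm_le_one h h0 hh1
  have hm2 : ∀ {x y : E}, ‖x‖ ≤ 1 → ‖y‖ ≤ 1 → ‖x * y‖ ≤ 1 := fun hx hy =>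
    (norm_mul_le _ _).trans (mul_le_one₀ hx (norm_nonneg _) hy)
  have hkn : ‖h * h * a * a * h * h‖ ≤ 1 := hm2 (hm2 (hm2 (hm2 (hm2 hhn hhn) han) han) hhn) hhn
  have hle : h * h * a * a * h * h ≤ 1 := by
    have h1 : 0 ≤ h * h * a * a * h * h := by
      have := star_mul_self_nonneg (a * h * h)
      rw [star_mul, star_mul, hhs, has] at this
      have e : h * (h * a) * (a * h * h) = h * h * a * a * h * h := by noncomm_ring
      rwa [e] at this
    exact (CStarAlgebra.norm_le_one_iff_of_nonneg _ h1).1 hkn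
  have hconj : ∀ z : E, ‖h * z * h‖ ≤ ‖z‖ := by
    intro z
    calc ‖h * z * h‖ ≤ ‖h * z‖ * ‖h‖ := norm_mul_le _ _
      _ ≤ (‖h‖ * ‖z‖) * ‖h‖ := by gcongr; exact norm_mul_le _ _
      _ ≤ (1 * ‖z‖) * 1 := by gcongr
      _ = ‖z‖ := by ring
  have hPn := fun i j => norm_P hC hP hP1 i j
  have hPns : ∀ i j, ‖star (P i j)‖ ≤ 1 := fun i j => by rw [norm_star]; exact hPn i j
  let fP : Fin n × Fin n → E := fun q => h * a * a * star (P q.1 q.2) * h
  let fG : E × (Fin n × Fin n) → E := fun q => (1 / 4 : ℝ) •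
    (h * (star (q.1 * P q.2.1 q.2.2 - P q.2.1 q.2.2 * q.1) * q.1 -
      q.1 * star (q.1 * P q.2.1 q.2.2 - P q.2.1 q.2.2 * q.1)) * h)
  let fc : E → E := fun x => (1 / 4 : ℝ) • (star (x * h - h * x) * (x * h - h * x))
  let fd : E → E := fun x => (1 / 4 : ℝ) • ((x * h - h * x) * star (x * h - h * x))
  let Y : Finset E := {h, h * a * a * h, h * h * a * a * h * h} ∪ X ∪
    (Finset.univ : Finset (Fin n × Fin n)).image fP ∪
    (X ×ˢ (Finset.univ : Finset (Fin n × Fin n))).image fG ∪ X.image fc ∪ X.image fd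
  have mY : ∀ y, y ∈ Y ↔ ((((y = h ∨ y = h * a * a * h ∨ y = h * h * a * a * h * h) ∨ y ∈ X) ∨
      (∃ q, fP q = y)) ∨ (∃ q : E × (Fin n × Fin n), q.1 ∈ X ∧ fG q = y)) ∨
      (∃ x ∈ X, fc x = y) ∨ (∃ x ∈ X, fd x = y) := by
    intro y
    simp only [Y, Finset.mem_union, Finset.mem_insert, Finset.mem_singleton, Finset.mem_image,
      Finset.mem_univ, true_and, Finset.mem_product, and_true, or_assoc]
  have hY : ∀ y ∈ Y, ‖y‖ ≤ 1 := by
    intro y hy
    rw [mY] at hy
    rcases hy with ((((hy | hy | hy) | hy) | ⟨q, hy⟩) | ⟨q, hq, hy⟩) | ⟨x, hx, hy⟩ | ⟨x, hx, hy⟩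
    · rw [hy]; exact hhn
    · rw [hy]; exact hm2 (hm2 (hm2 hhn han) han) hhn
    · rw [hy]; exact hkn
    · exact (hX y hy).1
    · rw [← hy]
      exact hm2 (hm2 (hm2 (hm2 hhn han) han) (hPns _ _)) hhn
    · rw [← hy]
      refine norm_quarter ((hconj _).trans ?_)
      have a1 := norm_comm_le (hX _ hq).1 (hPn q.2.1 q.2.2)
      have a2 : ‖star (q.1 * P q.2.1 q.2.2 - P q.2.1 q.2.2 * q.1)‖ ≤ 2 := by
        rw [norm_star]
        linarith
      have a3 := norm_comm_le a2 (hX _ hq).1
      linarith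
    · rw [← hy]
      refine norm_quarter ?_
      have a1 := norm_comm_le (hX _ hx).1 hhn
      rw [CStarRing.norm_star_mul_self]
      nlinarith [norm_nonneg (x * h - h * x)]
    · rw [← hy]
      refine norm_quarter ?_
      have a1 := norm_comm_le (hX _ hx).1 hhn
      rw [CStarRing.norm_self_mul_star]
      nlinarith [norm_nonneg (x * h - h * x)]
  obtain ⟨Q, hQ, hQ1, HT⟩ := H m hm hmm Y hY
  have hCP : IsCP (fun i j => P i j + h * Q i j * h) := by
    have a1 := (hC E n).2.1 Q h hQ
    rw [hhs] at a1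
    exact (hC E n).1 P _ hP a1
  refine ⟨fun i j => P i j + h * Q i j * h, hCP, ?_, ?_⟩
  · rw [dsum_conj]
    have a1 : h * dsum Q * h ≤ h * 1 * h := IsSelfAdjoint.conjugate_le_conjugate hQ1 hsa
    rw [mul_one] at a1
    have a2 := add_le_add_right (a1.trans hhh) (dsum P)
    refine a2.trans (le_of_eq ?_)
    rw [hh]
    abel
  intro T
  obtain ⟨HT0, HT1, HT2⟩ := HT T
  have good : ∀ y ∈ Y, y ∈ D → ∀ i j,
      |tr T (y * Q i j) - (if i = j then m / n * tr T y else 0)| ≤ s ^ 2 * m :=
    fun y hy hyD i j => good_re T (fun i j => (HT1 y hy i j).2 hyD) i j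
  have m1 : h ∈ Y := (mY _).2 (Or.inl (Or.inl (Or.inl (Or.inl (Or.inl rfl)))))
  have m2 : h * a * a * h ∈ Y :=
    (mY _).2 (Or.inl (Or.inl (Or.inl (Or.inl (Or.inr (Or.inl rfl))))))
  have m4 : h * h * a * a * h * h ∈ Y :=
    (mY _).2 (Or.inl (Or.inl (Or.inl (Or.inl (Or.inr (Or.inr rfl))))))
  have mX : ∀ x ∈ X, x ∈ Y := fun x hx => (mY _).2 (Or.inl (Or.inl (Or.inl (Or.inr hx))))
  have mP : ∀ i j, h * a * a * star (P i j) * h ∈ Y := fun i j =>
    (mY _).2 (Or.inl (Or.inl (Or.inr ⟨(i, j), rfl⟩)))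
  have mG : ∀ x ∈ X, ∀ i j, (1 / 4 : ℝ) • (h * (star (x * P i j - P i j * x) * x -
      x * star (x * P i j - P i j * x)) * h) ∈ Y := fun x hx i j =>
    (mY _).2 (Or.inl (Or.inr ⟨(x, (i, j)), hx, rfl⟩))
  have mc : ∀ x ∈ X, (1 / 4 : ℝ) • (star (x * h - h * x) * (x * h - h * x)) ∈ Y :=
    fun x hx => (mY _).2 (Or.inr (Or.inl ⟨x, hx, rfl⟩))
  have md : ∀ x ∈ X, (1 / 4 : ℝ) • ((x * h - h * x) * star (x * h - h * x)) ∈ Y :=
    fun x hx => (mY _).2 (Or.inr (Or.inr ⟨x, hx, rfl⟩))
  -- membership in D of the test elements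
  have d2 : h * a * a * h ∈ D := hD.mul_right _ _ (hD.mul_left _ _ haD)
  have d4 : h * h * a * a * h * h ∈ D :=
    hD.mul_right _ _ (hD.mul_right _ _ (hD.mul_left _ _ haD))
  have dP : ∀ i j, h * a * a * star (P i j) * h ∈ D := fun i j =>
    hD.mul_right _ _ (hD.mul_right _ _ (hD.mul_left _ _ haD))
  have dcom : ∀ x ∈ X, ∀ y : E, x * y - y * x ∈ D := fun x hx y =>
    Dsub _ _ (hD.mul_right _ _ (hX x hx).2) (hD.mul_left _ _ (hX x hx).2)
  have dG : ∀ x ∈ X, ∀ i j, (1 / 4 : ℝ) • (h * (star (x * P i j - P i j * x) * x -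
      x * star (x * P i j - P i j * x)) * h) ∈ D := fun x hx i j =>
    Dsmul _ _ (hD.mul_right _ _ (hD.mul_left _ _ (Dsub _ _ (hD.mul_left _ _ (hX x hx).2)
      (hD.mul_right _ _ (hX x hx).2))))
  have dc : ∀ x ∈ X, (1 / 4 : ℝ) • (star (x * h - h * x) * (x * h - h * x)) ∈ D :=
    fun x hx => Dsmul _ _ (hD.mul_left _ _ (dcom x hx h))
  have dd : ∀ x ∈ X, (1 / 4 : ℝ) • ((x * h - h * x) * star (x * h - h * x)) ∈ D :=
    fun x hx => Dsmul _ _ (hD.mul_right _ _ (dcom x hx h))
  have hss : s ^ 2 ≤ s / 100 := by nlinarith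
  have hnss : n ^ 2 * s ^ 2 ≤ ε / 10000 := by
    have := mul_le_mul_of_nonneg_left hss (by positivity : (0 : ℝ) ≤ n ^ 2)
    linarith
  refine ⟨?_, ?_, ?_⟩
  · have a := lemaD hB hC hn T hP hP1 hm has han hh (good _ m2 d2)
    have b : n * (s ^ 2 * m) ≤ ε * m := by
      have c : (n : ℝ) * s ^ 2 ≤ ε := by
        have : (n : ℝ) ≤ n ^ 2 := by nlinarith
        have := mul_le_mul_of_nonneg_right this (sq_nonneg s)
        linarith
      have := mul_le_mul_of_nonneg_right c hm.le
      linarith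
    linarith
  · have g1 : ∀ j, tr T (Q j j) ≤ 5 * m := by
      intro j
      have a2 : Q j j ≤ dsum Q := by
        unfold dsum
        exact Finset.single_le_sum (f := fun i => Q i i) (fun i _ => cp_nn hC hQ i)
          (Finset.mem_univ j)
      exact ((hB E T).1 _ _ a2).trans HT0
    have a := lembD hB hC hn T hP hP1 hQ hQ1 hm hs0.le hh hhs h0 hhn has han hle g1
      (good _ m2 d2) (good _ m4 d4) (fun i j => good _ (mP i j) (dP i j) i j)
      (fun i j => (HT1 _ m1 i j).1) HT2
    have b : (5 * n ^ 2 * s ^ 2 + 5 * n ^ 2 * s) * m ≤ ε * m := by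
      refine mul_le_mul_of_nonneg_right ?_ hm.le
      nlinarith
    linarith
  · intro x hx
    have a := lemc hB hC hn T hQ hQ1 hm hh hhn x
      (fun i j => good4 T (good _ (mG x hx i j) (dG x hx i j)) i j)
      (good4 T (good _ (mc x hx) (dc x hx))) (good4 T (good _ (md x hx) (dd x hx)))
      (fun i j => (HT1 _ (mX x hx) i j).1)
    have b : 35 * (n : ℝ) ^ 2 * (s ^ 2 * m) ≤ ε * m := by
      have : 35 * (n : ℝ) ^ 2 * s ^ 2 ≤ ε := by nlinarith
      have := mul_le_mul_of_nonneg_right this hm.le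
      linarith
    linarith

end Pool.Agent.H270R2.NU
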