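import Pool.Agent.H667R5.NX.NU.StubsI
import Pool.Agent.H667R5.TW.TTH1

/-!
# Non-unital Toms-Winter: traces of almost projections in `D`
-/

set_option autoImplicit false

namespace Pool.Agent.H270R2.NU

open Filter Topology Pool.Agent.H327R4.Pure Pool.Agent.H667R5.TW
open scoped CStarAlgebra ComplexOrder Matrix

universe u

namespace TH1DAux

variable {E : Type u} [CStarAlgebra E] [PartialOrder E] [StarOrderedRing E] {D : Set E}

theorem sub_mem (hD : Core0 E D) {x y : E} (hx : x ∈ D) (hy : y ∈ D) : x - y ∈ D := by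
  have h1 := hD.add x ((-1 : ℂ) • y) hx (hD.smul (-1) y hy)
  have h2 : x + (-1 : ℂ) • y = x - y := by
    rw [neg_smul, one_smul, sub_eq_add_neg]
  rwa [h2] at h1

theorem sum_mem {ι : Type} (hD : Core0 E D) (s : Finset ι) (f : ι → E) (hf : ∀ i ∈ s, f i ∈ D) :
    ∑ i ∈ s, f i ∈ D := by
  classical
  induction s using Finset.induction_on with
  | empty => simpa using hD.zero
  | insert i s hi ih =>
    rw [Finset.sum_insert hi]
    exact hD.add _ _ (hf i (Finset.mem_insert_self i s))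
      (ih fun j hj => hf j (Finset.mem_insert_of_mem hj))

/-- the ideal `D` is closed under `(a - ε)_+` -/
theorem cut_mem (hD : Core0 E D) {a : E} (ha : a ∈ D) (ha0 : 0 ≤ a) {ε : ℝ} (hε : 0 < ε) :
    cut ε a ∈ D := by
  have hsa : IsSelfAdjoint a := IsSelfAdjoint.of_nonneg ha0
  have hq : Continuous (fun x : ℝ => max (x - ε) 0 / max x ε) := by
    refine Continuous.div (by fun_prop) (by fun_prop) fun x => ?_
    have := le_max_right x ε
    intro h
    linarith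
  have h1 : cut ε a = a * cfcₙ (fun x : ℝ => max (x - ε) 0 / max x ε) a := by
    have h2 : cfcₙ (fun x : ℝ => x * (max (x - ε) 0 / max x ε)) a =
        cfcₙ (fun x : ℝ => x) a * cfcₙ (fun x : ℝ => max (x - ε) 0 / max x ε) a := by
      refine cfcₙ_mul (fun x : ℝ => x) (fun x : ℝ => max (x - ε) 0 / max x ε) a
        (by fun_prop) (by simp) hq.continuousOn ?_
      show max ((0 : ℝ) - ε) 0 / max 0 ε = 0
      rw [max_eq_right (by linarith : (0 : ℝ) - ε ≤ 0), zero_div]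
    rw [cfcₙ_id' ℝ a hsa] at h2
    rw [← h2]
    unfold cut
    refine cfcₙ_congr fun x _ => ?_
    show max (x - ε) 0 = x * (max (x - ε) 0 / max x ε)
    rcases le_total x ε with h | h
    · rw [max_eq_right (by linarith : x - ε ≤ 0), zero_div, mul_zero]
    · have hx : 0 < x := lt_of_lt_of_le hε h
      rw [max_eq_left h]
      field_simp
  rw [h1]
  exact hD.mul_right _ _ ha

end TH1DAux

open TH1DAux in
theorem t_TH1D (hmt : StMT.{u}) (hct : StCT.{u}) (hrk : StRK.{u}) (hmon : StMON.{u})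
    (hcake : StCAKE.{u}) (hsmall : StSMALLD.{u}) : StTH1D.{u} := by
  intro A _ _ _ D hD h δ hhD hh hδ
  obtain ⟨N, hN⟩ := exists_nat_gt (1 / (δ / 2))
  have hδ2 : 0 < δ / 2 := by positivity
  have hN0 : (0 : ℝ) < N := lt_trans (by positivity) hN
  have hNε : 1 ≤ (N : ℝ) * (δ / 2) := by
    have := (div_lt_iff₀ hδ2).mp hN
    linarith
  obtain ⟨c, hcD, hc0, hcne, hcT⟩ := hsmall A D hD.toCore0 N
  obtain ⟨n, y, hyD, hy⟩ := hD.full c h hcD hc0 hcne hhD hh (δ / 2) hδ2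
  have hs0 : 0 ≤ CFC.sqrt c := CFC.sqrt_nonneg c
  have hss : CFC.sqrt c * CFC.sqrt c = c := CFC.sqrt_mul_sqrt_self c hc0
  have hsstar : star (CFC.sqrt c) = CFC.sqrt c := (IsSelfAdjoint.of_nonneg hs0).star_eq
  obtain ⟨s, hsdef⟩ : ∃ s, s = CFC.sqrt c := ⟨_, rfl⟩
  rw [← hsdef] at hs0 hss hsstar
  obtain ⟨Y, hY⟩ : ∃ Y : A, Y = ∑ i, y i * star (y i) := ⟨_, rfl⟩
  have hY0 : 0 ≤ Y := by
    rw [hY]
    apply Finset.sum_nonneg
    intro i _
    exact mul_star_self_nonneg (y i)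
  have hYD : Y ∈ D := by
    rw [hY]
    exact sum_mem hD.toCore0 _ _ fun i _ => hD.mul_right _ _ (hyD i)
  obtain ⟨g, hg⟩ : ∃ g : A, g = s * Y * s := ⟨_, rfl⟩
  have hgD : g ∈ D := by
    rw [hg]
    exact hD.mul_right _ _ (hD.mul_left _ _ hYD)
  have hg0 : 0 ≤ g := by
    have := star_left_conjugate_nonneg hY0 s
    rw [hsstar] at this
    rwa [hg]
  have hgT : ∀ T : Tr A, T.f g = T.f (cut (δ / 2) h) := by
    intro T
    calc T.f g = T.f (s * (Y * s)) := by rw [hg, mul_assoc]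
      _ = T.f (Y * s * s) := T.tr _ _
      _ = T.f (Y * c) := by rw [mul_assoc, hss]
      _ = ∑ i, T.f (y i * (star (y i) * c)) := by
          rw [hY, Finset.sum_mul, map_sum]
          refine Finset.sum_congr rfl (fun i _ => ?_)
          congr 1
          simp only [mul_assoc]
      _ = ∑ i, T.f (star (y i) * c * y i) := by
          refine Finset.sum_congr rfl (fun i _ => ?_)
          rw [T.tr]
      _ = T.f (cut (δ / 2) h) := by
          rw [← map_sum, hy]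
  have hgle : g ≤ (‖Y‖ + 1) • c := by
    have h1 := CStarAlgebra.star_left_conjugate_le_norm_smul (a := s) (b := Y)
      (IsSelfAdjoint.of_nonneg hY0)
    rw [hsstar, hss] at h1
    rw [hg]
    refine h1.trans ?_
    rw [add_smul, one_smul]
    exact le_add_of_nonneg_right hc0
  have hgrk : ∀ T : TS A, rk T.1 g ≤ δ / 2 := by
    intro T
    have h1 := hmon A T.1 g c (‖Y‖ + 1) hg0 hc0 (by positivity) hgle
    have h2 := hcT T
    have h4 : (N : ℝ) * rk T.1 g ≤ (N : ℝ) * (δ / 2) := by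
      calc (N : ℝ) * rk T.1 g ≤ (N : ℝ) * rk T.1 c := by
            apply mul_le_mul_of_nonneg_left h1 hN0.le
        _ ≤ 1 := h2
        _ ≤ (N : ℝ) * (δ / 2) := hNε
    exact le_of_mul_le_mul_left h4 hN0
  obtain ⟨K, hK⟩ : ∃ K : ℕ, K = ⌈‖g‖⌉₊ := ⟨_, rfl⟩
  have hgK : ‖g‖ ≤ K := by rw [hK]; exact Nat.le_ceil _
  obtain ⟨b, hb⟩ : ∃ b : ℕ → A, b = fun j : ℕ => cut (j : ℝ) g := ⟨_, rfl⟩
  obtain ⟨c1, c2, c3, c4, c5, c6, c7, c8, c9⟩ := hct A g hg0
  have hb0 : ∀ j, 0 ≤ b j := fun j => by rw [hb]; exact c1 _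
  have hbD : ∀ j, b (j + 1) ∈ D := by
    intro j
    rw [hb]
    exact cut_mem hD.toCore0 hgD hg0 (by positivity)
  have hb1 : ∀ j, cut 1 (b j) = b (j + 1) := by
    intro j
    rw [hb]
    show cut 1 (cut (j : ℝ) g) = cut ((j + 1 : ℕ) : ℝ) g
    rw [c4 1 j zero_le_one (Nat.cast_nonneg j)]
    push_cast
    rw [add_comm]
  have hb2 : b 0 = g := by
    rw [hb]
    show cut ((0 : ℕ) : ℝ) g = g
    rw [Nat.cast_zero, c5]
  have hbK : b (K + 1) = 0 := by
    rw [hb]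
    refine c7 _ (Nat.cast_nonneg _) ?_
    push_cast
    linarith
  have hphi : ∀ j, phi 1 (b j) = b j - b (j + 1) := by
    intro j
    rw [← TTH1_sub_cut (b j) (hb0 j), hb1]
  have hphi0 : ∀ j, 0 ≤ phi 1 (b j) := fun j => ((hct A (b j) (hb0 j)).2.2.2.2.2.2.2.1 1 one_pos).1
  have hphi1 : ∀ j, phi 1 (b j) ≤ 1 := by
    intro j
    have h1 := ((hct A (b j) (hb0 j)).2.2.2.2.2.2.2.1 1 one_pos).2.1
    exact (CStarAlgebra.norm_le_one_iff_of_nonneg _ (hphi0 j)).1 h1
  have hphiD : ∀ j, phi 1 (b (j + 1)) ∈ D := by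
    intro j
    rw [hphi]
    exact sub_mem hD.toCore0 (hbD j) (hbD (j + 1))
  have htr0 : ∀ (T : TS A) (x : A), 0 ≤ x → 0 ≤ tr T x := fun T x hx => ((hmt A T.1).2.1 x hx).1
  have htrm : ∀ (T : TS A) (x z : A), x ≤ z → tr T x ≤ tr T z := fun T x z hx => (hmt A T.1).1 x z hx
  have htrs : ∀ (T : TS A) (x z : A), tr T (x - z) = tr T x - tr T z := by
    intro T x z
    unfold tr
    rw [map_sub, Complex.sub_re]
  have htele : ∀ (T : TS A) (f : ℕ → A) (k : ℕ),
      ∑ j : Fin k, (tr T (f j) - tr T (f ((j : ℕ) + 1))) = tr T (f 0) - tr T (f k) := by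
    intro T f k
    rw [← Finset.sum_range (fun j : ℕ => tr T (f j) - tr T (f (j + 1)))]
    exact Finset.sum_range_sub' (fun j => tr T (f j)) k
  -- the cut of `h`
  obtain ⟨k1, k2, _, _, _, k6, _⟩ := hct A h hh
  have hcutle : ∀ T : TS A, tr T (cut (δ / 2) h) ≤ tr T h := fun T =>
    htrm T _ _ (k2 (δ / 2) hδ2.le)
  have hcutge : ∀ T : TS A, tr T h - δ / 2 ≤ tr T (cut (δ / 2) h) := by
    intro T
    have e1 : h - cut (δ / 2) h ≤ (δ / 2) • (1 : A) := by
      have e2 : 0 ≤ h - cut (δ / 2) h := sub_nonneg.2 (k2 (δ / 2) hδ2.le)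
      have e3 : h - cut (δ / 2) h ≤ algebraMap ℝ A (δ / 2) :=
        (CStarAlgebra.norm_le_iff_le_algebraMap _ hδ2.le e2).1 (k6 (δ / 2) hδ2.le)
      rwa [Algebra.algebraMap_eq_smul_one] at e3
    have e4 := htrm T _ _ e1
    rw [htrs] at e4
    have e5 : tr T ((δ / 2) • (1 : A)) = δ / 2 := by
      unfold tr
      rw [show ((δ / 2 : ℝ) • (1 : A)) = ((δ / 2 : ℝ) : ℂ) • (1 : A) from
        (Complex.coe_smul (δ / 2) (1 : A)).symm, map_smul, T.2]
      simp
    linarith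
  refine ⟨K, fun j => phi 1 (b ((j : ℕ) + 1)), fun j => ⟨hphiD _, hphi0 _, hphi1 _⟩,
    fun T => ⟨?_, ?_, ?_⟩⟩
  · have h1 : ∑ j : Fin K, tr T (phi 1 (b ((j : ℕ) + 1))) = tr T (b 1) := by
      have h2 : ∀ j : Fin K, tr T (phi 1 (b ((j : ℕ) + 1))) =
          tr T (b ((j : ℕ) + 1)) - tr T (b (((j : ℕ) + 1) + 1)) := by
        intro j
        rw [hphi, htrs]
      rw [Finset.sum_congr rfl fun j _ => h2 j, htele T (fun j => b (j + 1)) K]
      show tr T (b (0 + 1)) - tr T (b (K + 1)) = _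
      rw [hbK, zero_add]
      simp [tr]
    show |∑ j : Fin K, tr T (phi 1 (b ((j : ℕ) + 1))) - tr T h| ≤ δ
    rw [h1]
    have h3 : tr T (cut (δ / 2) h) = tr T (b 1) + tr T (phi 1 g) := by
      have h4 : tr T (cut (δ / 2) h) = tr T g := by
        unfold tr
        rw [hgT]
      have h5 := hphi 0
      rw [hb2, zero_add] at h5
      rw [h4, h5, htrs]
      ring
    have h6 : tr T (phi 1 g) ≤ rk T.1 g := (hrk A T.1 g hg0).1 1 one_pos
    have h7 : 0 ≤ tr T (phi 1 g) := by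
      have := htr0 T _ (hphi0 0)
      rwa [hb2] at this
    have h8 := hgrk T
    have h9 := hcutle T
    have h10 := hcutge T
    rw [abs_le]
    constructor <;> linarith
  · have h1 : ∀ j : Fin K, tr T (phi 1 (b ((j : ℕ) + 1))) -
        tr T (phi 1 (b ((j : ℕ) + 1)) * phi 1 (b ((j : ℕ) + 1))) ≤
        tr T (phi 1 (b ((j : ℕ) + 1))) - tr T (phi 1 (b (((j : ℕ) + 1) + 1))) := by
      intro j
      have h2 := htrm T _ _ (TTH1_sq hct (b ((j : ℕ) + 1)) (hb0 _))
      rw [hb1] at h2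
      linarith
    refine (Finset.sum_le_sum fun j _ => h1 j).trans ?_
    rw [htele T (fun j => phi 1 (b (j + 1))) K]
    have h3 : 0 ≤ tr T (phi 1 (b (K + 1))) := htr0 T _ (hphi0 _)
    have h4 : tr T (phi 1 (b (0 + 1))) ≤ rk T.1 (b 1) := (hrk A T.1 (b 1) (hb0 1)).1 1 one_pos
    have h5 : rk T.1 (b 1) ≤ rk T.1 g := by
      refine hmon A T.1 (b 1) g 1 (hb0 1) hg0 one_pos ?_
      rw [one_smul, hb]
      exact c2 _ (Nat.cast_nonneg _)
    have h6 := hgrk T
    linarith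
  · have h1 : ∀ j : Fin K, rk T.1 (phi 1 (b ((j : ℕ) + 1))) ≤ rk T.1 (cut (((j : ℕ) : ℝ) + 1) g) := by
      intro j
      refine hmon A T.1 _ _ 1 (hphi0 _) (c1 _) one_pos ?_
      rw [one_smul, hphi]
      have h2 : b ((j : ℕ) + 1) = cut (((j : ℕ) : ℝ) + 1) g := by
        rw [hb]
        show cut (((j : ℕ) + 1 : ℕ) : ℝ) g = _
        push_cast
        rfl
      rw [h2]
      exact sub_le_self _ (hb0 _)
    refine (Finset.sum_le_sum fun j _ => h1 j).trans ?_
    have hk := (hcake A T.1 g K hg0 hgK).1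
    rw [hgT T.1] at hk
    rw [← Finset.sum_range (fun j : ℕ => rk T.1 (cut ((j : ℝ) + 1) g))]
    exact hk.trans (hcutle T)

end Pool.Agent.H270R2.NU
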