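import Pool.Agent.H667R5.NX.NU.StubsI
import Pool.Agent.H667R5.TW.TTINY

/-!
# TINYD: tiny almost central matrix units (adapted from `Pool.Agent.H667R5.TW.TTINY`)
-/

set_option autoImplicit false

namespace Pool.Agent.H270R2.NU

open Pool.Agent.H327R4.Pure Pool.Agent.H667R5.TW
open scoped CStarAlgebra ComplexOrder Matrix

universe u

set_option linter.unusedSectionVars false

theorem t_TINYD (hDTR : StDTR.{u}) (hBAS : StBAS.{u}) (hCPB : StCPB.{u}) : StTINYD.{u} := by
  classical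
  intro A _ _ _ D hMULTI hD n hn ε hε
  have hone : ‖(1 : A)‖ ≤ 1 := by
    rcases subsingleton_or_nontrivial A with h | h
    · rw [Subsingleton.elim (1 : A) 0, norm_zero]
      exact zero_le_one
    · exact norm_one.le
  -- parameters
  obtain ⟨ε', hε'0, hε'1, hε'ε⟩ : ∃ ε' : ℝ, 0 < ε' ∧ ε' ≤ 1 ∧ ε' ≤ ε :=
    ⟨min 1 ε, lt_min one_pos hε, min_le_left _ _, min_le_right _ _⟩
  have hC0 : 1000 ≤ Cn n := by
    unfold Cn
    have : (1 : ℝ) ≤ ((n : ℝ) + 1) ^ 3 := one_le_pow₀ (by linarith [Nat.cast_nonneg (α := ℝ) n])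
    linarith
  have hn1 : (1 : ℝ) ≤ n := by exact_mod_cast hn
  obtain ⟨η, hη0, hη1, hη2⟩ : ∃ η : ℝ, 0 < η ∧ η ≤ ε' / (16 * Cn n) ∧ η ≤ 1 / ((n : ℝ) + 2) :=
    ⟨min (ε' / (16 * Cn n)) (1 / ((n : ℝ) + 2)), lt_min (by positivity) (by positivity),
      min_le_left _ _, min_le_right _ _⟩
  have hη3 : η ≤ 1 / 2 := hη2.trans (by
    apply one_div_le_one_div_of_le (by norm_num)
    linarith)
  have hη4 : 16 * Cn n * η ≤ ε' := by
    rw [le_div_iff₀ (by positivity)] at hη1
    linarith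
  have hη5 : η * ((n : ℝ) + 2) ≤ 1 := by
    rwa [le_div_iff₀ (by positivity)] at hη2
  have hCη : 1000 * η ≤ Cn n * η := mul_le_mul_of_nonneg_right hC0 hη0.le
  set lam : ℝ := η ^ 2 with hlam
  set W : ℝ := 1 / η ^ 2 with hW
  have hlam0 : 0 < lam := by positivity
  have hlam1 : lam ≤ 1 := by
    rw [hlam]
    nlinarith
  have hsl : √lam = η := by rw [hlam, Real.sqrt_sq hη0.le]
  have hsW : √W = 1 / η := by
    rw [hW, Real.sqrt_div zero_le_one, Real.sqrt_one, Real.sqrt_sq hη0.le]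
  have h1W : 1 / √W = η := by rw [hsW, one_div_one_div]
  have hnW : ((n : ℝ) + 2) ^ 2 ≤ W := by
    rw [hW, le_div_iff₀ (by positivity), ← mul_pow]
    have : ((n : ℝ) + 2) * η ≤ 1 := by linarith
    have h0 : 0 ≤ ((n : ℝ) + 2) * η := by positivity
    nlinarith
  have hW4 : 4 ≤ W := by nlinarith
  have hW1 : 1 ≤ W := by linarith
  have hWn : (n : ℝ) ^ 2 ≤ W := by nlinarith
  refine ⟨min (1 / 2) (lam * ε' / 40), lt_min (by norm_num) (by positivity), ?_⟩
  intro m hm hm' X hX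
  have hm2 : m ≤ 1 / 2 := hm'.trans (min_le_left _ _)
  have hm3 : m ≤ lam * ε' / 40 := hm'.trans (min_le_right _ _)
  -- the finite sets
  set X1 : Finset A := insert 1 (X ∪ X.image star) with hX1
  set X' : Finset A := X1 ∪ (X1.image (fun x => star x * x) ∪ X1.image (fun x => x * star x))
    with hX'
  have hX1n : ∀ x ∈ X1, ‖x‖ ≤ 1 := by
    intro x hx
    simp only [hX1, Finset.mem_insert, Finset.mem_union, Finset.mem_image] at hx
    rcases hx with rfl | hx | ⟨y, hy, rfl⟩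
    · exact hone
    · exact hX x hx
    · rw [norm_star]
      exact hX y hy
  have hX1s : ∀ x ∈ X1, star x ∈ X1 := by
    intro x hx
    simp only [hX1, Finset.mem_insert, Finset.mem_union, Finset.mem_image] at hx ⊢
    rcases hx with rfl | hx | ⟨y, hy, rfl⟩
    · left
      exact star_one A
    · right; right
      exact ⟨x, hx, rfl⟩
    · right; left
      rwa [star_star]
  have hmem1 : ∀ x ∈ X1, x ∈ X' ∧ star x * x ∈ X' ∧ x * star x ∈ X' := by
    intro x hx
    simp only [hX', Finset.mem_union, Finset.mem_image]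
    exact ⟨Or.inl hx, Or.inr (Or.inl ⟨x, hx, rfl⟩), Or.inr (Or.inr ⟨x, hx, rfl⟩)⟩
  have hX'p : ∀ x ∈ X', ‖x‖ ≤ 1 ∧ star x ∈ X' := by
    intro x hx
    rw [hX', Finset.mem_union, Finset.mem_union, Finset.mem_image, Finset.mem_image] at hx
    rcases hx with hx | ⟨y, hy, rfl⟩ | ⟨y, hy, rfl⟩
    · exact ⟨hX1n x hx, (hmem1 _ (hX1s x hx)).1⟩
    · refine ⟨?_, ?_⟩
      · calc ‖star y * y‖ ≤ ‖star y‖ * ‖y‖ := norm_mul_le _ _
          _ ≤ 1 * 1 := by
            rw [norm_star]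
            exact mul_le_mul (hX1n y hy) (hX1n y hy) (norm_nonneg _) zero_le_one
          _ = 1 := one_mul 1
      · rw [star_mul, star_star]
        exact (hmem1 y hy).2.1
    · refine ⟨?_, ?_⟩
      · calc ‖y * star y‖ ≤ ‖y‖ * ‖star y‖ := norm_mul_le _ _
          _ ≤ 1 * 1 := by
            rw [norm_star]
            exact mul_le_mul (hX1n y hy) (hX1n y hy) (norm_nonneg _) zero_le_one
          _ = 1 := one_mul 1
      · rw [star_mul, star_star]
        exact (hmem1 y hy).2.2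
  have h1X1 : (1 : A) ∈ X1 := by simp [hX1]
  have hXX1 : ∀ x ∈ X, x ∈ X1 := by
    intro x hx
    simp [hX1, hx]
  obtain ⟨M, w, β, hβ, hamp, hmass⟩ := hD X' W (ε' / 8) hX'p hW1 (by positivity)
  obtain ⟨F, hF, hF1, hFT⟩ := hMULTI n X1 X' W lam m (ε' * m / 8) M w β hn hX'p
    (hmem1 1 h1X1).1 hmem1 hW4 hWn hlam0 hlam1 hm hm2 (by positivity) hβ
  refine ⟨F, hF, hF1, fun T => ?_⟩
  obtain ⟨g1, g2, g3, g4⟩ := hFT T
  obtain ⟨d1, d2⟩ := hDTR A X' W (ε' / 8) M w β (fun x hx => (hX'p x hx).1) hW4 (by positivity)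
    (fun s => ⟨(hβ s).1, (hβ s).2.2⟩) hamp T (hmass T)
  have hpen := TINY.pen_le hBAS T w β hamp (dsum F) ((hCPB A n).2.2.2.2.2 F hF).2.2.1
  set sm : ℝ := ∑ s, w s * (β s).mass W X' T with hsm
  set sp : ℝ := ∑ s, w s * tr T ((β s).pen (dsum F)) with hsp
  have hεm : 0 < ε' * m := by positivity
  have k1 : Cn n * (√lam + 1 / √W) * (m * sm) ≤ ε' * m / 4 := by
    rw [hsl, h1W]
    have h1 : m * sm ≤ 2 * m := by
      have := mul_le_mul_of_nonneg_left d1 hm.le
      linarith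
    have h2 : Cn n * (η + η) * (m * sm) ≤ Cn n * (η + η) * (2 * m) :=
      mul_le_mul_of_nonneg_left h1 (by positivity)
    have h3 : 16 * Cn n * η * m ≤ ε' * m := mul_le_mul_of_nonneg_right hη4 hm.le
    have h4 : Cn n * (η + η) * (2 * m) = 16 * Cn n * η * m / 4 := by ring
    linarith
  have k2 : tr T (dsum F) ≤ 5 * m := by
    have h1 : m * sm ≤ 2 * m := by
      have := mul_le_mul_of_nonneg_left d1 hm.le
      linarith
    have h2 : ε' * m ≤ m := mul_le_of_le_one_left hm.le hε'1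
    linarith
  have k3 : m / lam * sp ≤ ε' * m / 8 := by
    have h1 : m / lam * sp ≤ m / lam * (5 * m) :=
      mul_le_mul_of_nonneg_left (hpen.trans k2) (by positivity)
    have h2 : m / lam * (5 * m) = (5 * m) / lam * m := by ring
    have h3 : (5 * m) / lam ≤ ε' / 8 := by
      rw [div_le_iff₀ hlam0]
      linarith
    have h4 : (5 * m) / lam * m ≤ ε' / 8 * m := mul_le_mul_of_nonneg_right h3 hm.le
    linarith
  have k4 : ε' * m ≤ ε * m := mul_le_mul_of_nonneg_right hε'ε hm.le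
  refine ⟨k2, fun x hx i j => ⟨?_, fun hxD => ?_⟩, ?_⟩
  · have e1 := g2 x (hXX1 x hx) i j
    linarith
  · have hx1 := hXX1 x hx
    have e1 := g1 x (hmem1 x hx1).1 hxD i j
    have e2 := d2 x (hmem1 x hx1).1
    set S : ℂ := ∑ s, ((w s : ℝ) : ℂ) * (((β s).y x).trace *
      ((tr T (cc ((β s).R W X')) : ℝ) : ℂ)) with hSdef
    have e3 : 10 / √W ≤ ε' / 8 := by
      have : 10 / √W = 10 * (1 / √W) := by ring
      rw [this, h1W]
      have h5 : 16 * (Cn n * η) ≤ ε' := by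
        rw [← mul_assoc]
        exact hη4
      linarith
    have e4 : ‖T.1.f x - S‖ ≤ ε' / 4 := by linarith
    have e5 : ‖((m / n : ℝ) : ℂ) * S - ((m / n : ℝ) : ℂ) * T.1.f x‖ ≤ ε' * m / 4 := by
      rw [← mul_sub, norm_mul, norm_sub_rev]
      have h1 : ‖((m / n : ℝ) : ℂ)‖ ≤ m := by
        rw [Complex.norm_real, Real.norm_of_nonneg (by positivity)]
        exact div_le_self hm.le hn1
      calc ‖((m / n : ℝ) : ℂ)‖ * ‖T.1.f x - S‖ ≤ m * (ε' / 4) :=
            mul_le_mul h1 e4 (norm_nonneg _) hm.le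
        _ = ε' * m / 4 := by ring
    have e6 : ‖(if i = j then ((m / n : ℝ) : ℂ) * S else 0) -
        (if i = j then ((m / n : ℝ) : ℂ) * T.1.f x else 0)‖ ≤ ε' * m / 4 := by
      by_cases hij : i = j
      · rw [if_pos hij, if_pos hij]
        exact e5
      · rw [if_neg hij, if_neg hij, sub_zero, norm_zero]
        positivity
    have e7 := norm_add_le (T.1.f (x * F i j) - (if i = j then ((m / n : ℝ) : ℂ) * S else 0))
      ((if i = j then ((m / n : ℝ) : ℂ) * S else 0) -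
        (if i = j then ((m / n : ℝ) : ℂ) * T.1.f x else 0))
    rw [sub_add_sub_cancel] at e7
    refine e7.trans ?_
    linarith
  · linarith

end Pool.Agent.H270R2.NU
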