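import Pool.Agent.H667R5.NX.NU.StubsI

/-! Task UMDD of project NU: the weighted uniform McDuff property with one nilpotent. -/

set_option autoImplicit false

namespace Pool.Agent.H270R2.NU

open Pool.Agent.H327R4.Pure Pool.Agent.H667R5.TW
open scoped CStarAlgebra ComplexOrder Matrix

universe u

section umdd

variable {A : Type u} [CStarAlgebra A]

theorem umdd_tr_sub (T : TS A) (x y : A) : tr T (x - y) = tr T x - tr T y := by
  unfold tr
  rw [map_sub, Complex.sub_re]

theorem umdd_tr_add (T : TS A) (x y : A) : tr T (x + y) = tr T x + tr T y := by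
  unfold tr
  rw [map_add, Complex.add_re]

theorem umdd_n2_neg (T : TS A) (x y : A) : n2 T (x - y) = n2 T (y - x) := by
  unfold n2
  rw [← neg_sub y x, star_neg, neg_mul_neg]

variable [PartialOrder A] [StarOrderedRing A]

theorem umdd_sq_le {V : A} (h0 : 0 ≤ V) (h1 : V ≤ 1) : V * V ≤ V := by
  obtain ⟨r, hr⟩ : ∃ r : A, star r = r ∧ r * r = V := by
    refine ⟨CFC.sqrt V, (CFC.sqrt_nonneg V).isSelfAdjoint.star_eq, CFC.sqrt_mul_sqrt_self V h0⟩
  obtain ⟨hr1, hr2⟩ := hr
  have h2 : 0 ≤ star r * (1 - V) * r := star_left_conjugate_nonneg (sub_nonneg.2 h1) r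
  have h3 : star r * (1 - V) * r = V - V * V := by
    rw [hr1, ← hr2]
    noncomm_ring
  rw [h3] at h2
  exact sub_nonneg.1 h2

/-- if `q ≤ P ≤ 1` are close and `P` is almost a projection then so is `q`. -/
theorem umdd_gap (hB : StBAS.{u}) (T : TS A) (a P q : A) (w : ℝ) (ha0 : 0 ≤ a) (ha1 : a ≤ 1)
    (hq0 : 0 ≤ q) (hqP : q ≤ P) (hP1 : P ≤ 1)
    (h1 : tr T (a * (P - P * P) * a) ≤ w) (h2 : tr T (a * (P - q) * a) ≤ w) :
    tr T (a * (q - q * q) * a) ≤ w + 2 * √w := by
  obtain ⟨b1, b2, b3, b4, -, -, b7, b8, -⟩ := hB A T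
  have hsa : star a = a := (IsSelfAdjoint.of_nonneg ha0).star_eq
  have hP0 : 0 ≤ P := hq0.trans hqP
  have hsP : star P = P := (IsSelfAdjoint.of_nonneg hP0).star_eq
  have hd0 : 0 ≤ P - q := sub_nonneg.2 hqP
  have hd1 : P - q ≤ 1 := (sub_le_self _ hq0).trans hP1
  have hsd : star (P - q) = P - q := (IsSelfAdjoint.of_nonneg hd0).star_eq
  set d := P - q with hd
  have tr0 : tr T 0 = 0 := by
    unfold tr
    rw [map_zero, Complex.zero_re]
  have m7 : ∀ x y : A, x ≤ y → tr T (a * x * a) ≤ tr T (a * y * a) := by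
    intro x y hxy
    have := b7 x y a hxy
    rwa [hsa] at this
  have n7 : ∀ x : A, 0 ≤ x → 0 ≤ tr T (a * x * a) := by
    intro x hx
    have := m7 0 x hx
    rwa [mul_zero, zero_mul, tr0] at this
  have g1 : 0 ≤ tr T (a * d * a) := n7 d hd0
  have hw : 0 ≤ w := g1.trans h2
  have g2 : 0 ≤ tr T (a * (d * d) * a) := n7 _ (by
    have := star_mul_self_nonneg d
    rwa [hsd] at this)
  have g3 : n2 T (d * a) ≤ w := by
    have e : n2 T (d * a) = tr T (a * (d * d) * a) := by
      change tr T (star (d * a) * (d * a)) = _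
      rw [star_mul, hsd, hsa]
      simp only [mul_assoc]
    rw [e]
    exact (m7 _ _ (umdd_sq_le hd0 hd1)).trans h2
  have g4 : n2 T (P * a) ≤ 1 := by
    have na : ‖a‖ ≤ 1 := (CStarAlgebra.norm_le_one_iff_of_nonneg a ha0).2 ha1
    have nP : ‖P‖ ≤ 1 := (CStarAlgebra.norm_le_one_iff_of_nonneg P hP0).2 hP1
    have n1 : ‖P * a‖ ≤ 1 := (norm_mul_le _ _).trans (by nlinarith [norm_nonneg P, norm_nonneg a])
    exact ((b4 (P * a)).2.2.1).trans (by nlinarith [norm_nonneg (P * a)])
  have g5 : 0 ≤ n2 T (d * a) := (b4 _).2.1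
  have g6 : 0 ≤ n2 T (P * a) := (b4 _).2.1
  have g7 : ‖T.1.f (star (P * a) * (d * a))‖ ≤ √w := by
    have := b2 (P * a) (d * a)
    have h3 : ‖T.1.f (star (P * a) * (d * a))‖ ^ 2 ≤ w := this.trans (by nlinarith)
    exact Real.le_sqrt_of_sq_le h3
  have g8 : |tr T (a * (P * d) * a)| ≤ √w := by
    have e : a * (P * d) * a = star (P * a) * (d * a) := by
      rw [star_mul, hsP, hsa]
      simp only [mul_assoc]
    rw [e]
    exact (Complex.abs_re_le_norm _).trans g7
  have g9 : tr T (a * (d * P) * a) = tr T (a * (P * d) * a) := by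
    have e : a * (d * P) * a = star (a * (P * d) * a) := by
      simp only [star_mul, hsP, hsa, hsd, mul_assoc]
    unfold tr
    rw [e, b8, Complex.star_def, Complex.conj_re]
  have e : a * (q - q * q) * a = a * (P - P * P) * a - a * d * a + a * (P * d) * a +
      a * (d * P) * a - a * (d * d) * a := by
    rw [hd]
    noncomm_ring
  rw [e, umdd_tr_sub, umdd_tr_add, umdd_tr_add, umdd_tr_sub, g9]
  have := (abs_le.1 g8).2
  linarith

end umdd

theorem t_UMDD (hB : StBAS.{u}) (hC : StCPB.{u}) : StUMDD.{u} := by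
  intro E _ _ _ D _ hM X a ε hX haD ha0 ha1 hε
  set δ : ℝ := min 1 ε with hδ
  have hδ0 : 0 < δ := lt_min one_pos hε
  have hδ1 : δ ≤ 1 := min_le_left _ _
  have hδε : δ ≤ ε := min_le_right _ _
  set ε' : ℝ := (δ / 3) ^ 2 with hε'
  have hε'0 : 0 < ε' := by positivity
  have hsq : √ε' = δ / 3 := by
    rw [hε', Real.sqrt_sq (by positivity)]
  have hε'δ : ε' ≤ δ / 9 := by
    rw [hε']
    nlinarith
  obtain ⟨P, hP, hle, hT⟩ := hM X a ε' hX haD ha0 ha1 hε'0
  obtain ⟨hst, hpos, -, hcs⟩ := (hC E 2).2.2.2.2.2 P hP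
  replace hcs := hcs hle
  have hds : dsum P = P 0 0 + P 1 1 := by
    unfold dsum
    exact Fin.sum_univ_two _
  have hd : ∀ i j, 0 ≤ P j j - star (P i j) * P i j := fun i j => sub_nonneg.2 (hcs i j)
  have hP0 : P 0 0 ≤ 1 := by
    refine le_trans ?_ hle
    rw [hds]
    exact le_add_of_nonneg_right (hpos 1)
  have hP1 : P 1 1 ≤ 1 := by
    refine le_trans ?_ hle
    rw [hds]
    exact le_add_of_nonneg_left (hpos 0)
  have s10 : star (P 1 0) = P 0 1 := hst 1 0
  have s01 : P 1 0 = star (P 0 1) := (hst 0 1).symm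
  have s00 : star (P 0 0) = P 0 0 := hst 0 0
  have s11 : star (P 1 1) = P 1 1 := hst 1 1
  have hq0 : P 0 1 * star (P 0 1) ≤ P 0 0 := by
    have := hcs 1 0
    rwa [s10, s01] at this
  have hq1 : star (P 0 1) * P 0 1 ≤ P 1 1 := hcs 0 1
  set v := P 0 1 with hv
  have hsa : star a = a := (IsSelfAdjoint.of_nonneg ha0).star_eq
  refine ⟨v, ?_, fun T => ?_⟩
  · calc star v * v + v * star v ≤ P 1 1 + P 0 0 := add_le_add hq1 hq0
      _ = dsum P := by rw [hds, add_comm]
      _ ≤ 1 := hle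
  obtain ⟨h1, h2, -, h3⟩ := hT T
  obtain ⟨b1, b2, b3, b4, -, b6, b7, b8, -⟩ := hB E T
  have tr0 : tr T 0 = 0 := by
    unfold tr
    rw [map_zero, Complex.zero_re]
  have m7 : ∀ x y : E, x ≤ y → tr T (a * x * a) ≤ tr T (a * y * a) := by
    intro x y hxy
    have := b7 x y a hxy
    rwa [hsa] at this
  have n7 : ∀ x : E, 0 ≤ x → 0 ≤ tr T (a * x * a) := by
    intro x hx
    have := m7 0 x hx
    rwa [mul_zero, zero_mul, tr0] at this
  have htr : ∀ i j, 0 ≤ tr T (a * (P j j - star (P i j) * P i j) * a) := fun i j =>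
    n7 _ (hd i j)
  have hdef : wdef T a P = tr T (a * (P 0 0 - star (P 0 0) * P 0 0) * a) +
      tr T (a * (P 1 1 - star (P 0 1) * P 0 1) * a) +
      tr T (a * (P 0 0 - star (P 1 0) * P 1 0) * a) +
      tr T (a * (P 1 1 - star (P 1 1) * P 1 1) * a) := by
    unfold wdef
    simp only [Fin.sum_univ_two]
    ring
  have e00 : tr T (a * (P 0 0 - P 0 0 * P 0 0) * a) ≤ ε' := by
    have h := hdef
    rw [s00] at h
    have t0 := htr 0 0
    rw [s00] at t0
    linarith [htr 0 1, htr 1 0, htr 1 1]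
  have e11 : tr T (a * (P 1 1 - P 1 1 * P 1 1) * a) ≤ ε' := by
    have h := hdef
    rw [s11] at h
    have t0 := htr 1 1
    rw [s11] at t0
    linarith [htr 0 1, htr 1 0, htr 0 0]
  have e01 : tr T (a * (P 1 1 - star v * v) * a) ≤ ε' := by
    have h := hdef
    linarith [htr 0 0, htr 0 1, htr 1 0, htr 1 1]
  have e10 : tr T (a * (P 0 0 - v * star v) * a) ≤ ε' := by
    have h : tr T (a * (P 0 0 - star (P 1 0) * P 1 0) * a) ≤ ε' := by
      linarith [htr 0 0, htr 0 1, htr 1 0, htr 1 1]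
    rwa [s10, s01] at h
  have G0 := umdd_gap hB T a (P 0 0) (v * star v) ε' ha0 ha1 (mul_star_self_nonneg v) hq0 hP0
    e00 e10
  have G1 := umdd_gap hB T a (P 1 1) (star v * v) ε' ha0 ha1 (star_mul_self_nonneg v) hq1 hP1
    e11 e01
  rw [hsq] at G0 G1
  refine ⟨fun x hx => ?_, ?_, ?_, ?_⟩
  · rw [umdd_n2_neg]
    exact (h3 x hx 0 1).trans (by linarith)
  · -- `n2 (v v a)`
    have c1 : n2 T (v * v * a) = tr T (star (v * a) * (star v * v) * (v * a)) := by
      change tr T (star (v * v * a) * (v * v * a)) = _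
      simp only [star_mul, mul_assoc]
    have c2 : tr T (star (v * a) * (star v * v) * (v * a)) ≤
        tr T (star (v * a) * (P 1 1) * (v * a)) := b7 _ _ _ hq1
    have c3 : tr T (star (v * a) * (P 1 1) * (v * a)) ≤
        tr T (star (v * a) * (1 - v * star v) * (v * a)) := by
      refine b7 _ _ _ ?_
      have h4 : P 1 1 ≤ 1 - P 0 0 := by
        rw [le_sub_iff_add_le, add_comm, ← hds]
        exact hle
      exact h4.trans (sub_le_sub_left hq0 1)
    have c4 : star (v * a) * (1 - v * star v) * (v * a) =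
        a * (star v * v - star v * v * (star v * v)) * a := by
      rw [star_mul, hsa]
      noncomm_ring
    rw [c4] at c3
    rw [c1]
    linarith
  · have c1 : a * (1 - (star v * v + v * star v)) * a = a * (1 - dsum P) * a +
        a * (P 1 1 - star v * v) * a + a * (P 0 0 - v * star v) * a := by
      rw [hds]
      noncomm_ring
    rw [c1, umdd_tr_add, umdd_tr_add]
    linarith
  · linarith

end Pool.Agent.H270R2.NU
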