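import Pool.Agent.H667R5.NX.NU.StubsII
import Pool.Agent.H327R4.SI.TX4

/-! Task X4D: decoupling two ideals inside `D` (helper983, adaptation of TX4). -/

set_option autoImplicit false

namespace Pool.Agent.H270R2.NU

open Filter Topology Pool.Agent.H327R4.Pure
open Pool.Agent.H327R4.SI (RI Ex Dc IsSt CPto CPF CPAP StRIB StX1 StX2 StX3 StQC StFCOM)

universe u

open Pool.Agent.H327R4.SI.TX4 in
theorem t_X4D (hRIB : StRIB.{u}) (hX2 : StX2.{u}) (hORT : StORTD.{u}) : StX4D.{u} := by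
  intro B _ _ _ D hD a b k y ε haD ha ha0 hbD hb hb0 hε
  obtain ⟨r1, r2, r3, r4, r5, r6, r7, r8, r9⟩ := hRIB B
  set C : ℝ := ∑ i, ‖y i‖ ^ 2 with hC
  have hC0 : 0 ≤ C := Finset.sum_nonneg fun i _ => sq_nonneg _
  obtain ⟨e, he, hee⟩ : ∃ e : ℝ, 0 < e ∧ 4 * ((2 * k + 3) * e) ≤ ε ^ 2 / 2 := by
    refine ⟨ε ^ 2 / (8 * (2 * k + 3)), by positivity, le_of_eq ?_⟩
    have : (2 * (k : ℝ) + 3) ≠ 0 := by positivity
    field_simp
    ring
  obtain ⟨R, hR⟩ := exists_nat_gt (8 * C / ε ^ 2)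
  have hR0 : (0 : ℝ) < R := lt_of_le_of_lt (by positivity) hR
  have hRC : 4 * (C / R) ≤ ε ^ 2 / 2 := by
    rw [div_lt_iff₀ (by positivity)] at hR
    have : C / R ≤ ε ^ 2 / 8 := by
      rw [div_le_div_iff₀ hR0 (by norm_num)]
      linarith
    linarith
  obtain ⟨c, hc, hcc⟩ := hORT B D hD b R hbD hb hb0
  obtain ⟨a', l, μ, ha', ha'0, haa', -, hμ, -⟩ := hX2 B a 1 (k * R)
    (fun s => y (finProdFinEquiv.symm s).1 *
      (c (finProdFinEquiv.symm s).2 * c (finProdFinEquiv.symm s).2) *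
      star (y (finProdFinEquiv.symm s).1)) e ha ha0 (IsSelfAdjoint.one B) he
  set ν : Fin k → Fin R → ℂ := fun i r => μ (finProdFinEquiv (i, r)) with hν
  have hEx : ∀ i r, Ex e a' (y i * (c r * c r) * star (y i)) (ν i r) := by
    intro i r
    have := hμ (finProdFinEquiv (i, r))
    simpa only [Equiv.symm_apply_apply] using this
  -- the test vector
  have hna : 0 < ‖a'‖ := norm_pos_iff.mpr ha'0
  set x₀ : B := ((‖a'‖⁻¹ : ℝ) : ℂ) • a' with hx₀
  have hx₀m : x₀ ∈ RI a' := r4 a' a' _ (r1 a')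
  have hx₀n : ‖x₀‖ = 1 := by
    rw [hx₀, norm_smul, Complex.norm_real, Real.norm_of_nonneg (by positivity),
      inv_mul_cancel₀ hna.ne']
  have hp1 : ‖star x₀ * x₀‖ = 1 := by rw [CStarRing.norm_star_mul_self, hx₀n, mul_one]
  have hp0 : 0 ≤ star x₀ * x₀ := star_mul_self_nonneg x₀
  have hcsa : ∀ r, star (c r) = c r := fun r => (hc r).1.isSelfAdjoint.star_eq
  have hq0 : ∀ i r, 0 ≤ star x₀ * (y i * (c r * c r) * star (y i)) * x₀ := by
    intro i r
    have h := star_mul_self_nonneg (c r * star (y i) * x₀)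
    have e1 : star (c r * star (y i) * x₀) * (c r * star (y i) * x₀) =
        star x₀ * (y i * (c r * c r) * star (y i)) * x₀ := by
      rw [star_mul, star_mul, star_star, hcsa]
      simp only [mul_assoc]
    rwa [e1] at h
  have hqe : ∀ i r, ‖star x₀ * (y i * (c r * c r) * star (y i)) * x₀ -
      ν i r • (star x₀ * x₀)‖ ≤ e := by
    intro i r
    have := hEx i r x₀ hx₀m
    rwa [hx₀n, one_pow, mul_one] at this
  have hmu : ∀ i r, -e ≤ (ν i r).re ∧ |(ν i r).im| ≤ e := fun i r =>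
    mu_bound (hq0 i r) hp0 hp1 (hqe i r)
  have hsum : ∀ i, ∑ r, (ν i r).re ≤ ‖y i‖ ^ 2 + R * e := by
    intro i
    have h1 : ‖(∑ r, ν i r) • (star x₀ * x₀)‖ ≤ ‖y i‖ ^ 2 + R * e := by
      have h2 : (∑ r, ν i r) • (star x₀ * x₀) =
          ∑ r, star x₀ * (y i * (c r * c r) * star (y i)) * x₀ -
          ∑ r, (star x₀ * (y i * (c r * c r) * star (y i)) * x₀ -
            ν i r • (star x₀ * x₀)) := by
        rw [Finset.sum_sub_distrib, sub_sub_cancel, Finset.sum_smul]
      rw [h2]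
      have h3 : ∑ r, star x₀ * (y i * (c r * c r) * star (y i)) * x₀ =
          star x₀ * (y i * (∑ r, c r * c r) * star (y i)) * x₀ := by
        rw [Finset.mul_sum, Finset.sum_mul, Finset.mul_sum, Finset.sum_mul]
      have h4 : ‖star x₀ * (y i * (∑ r, c r * c r) * star (y i)) * x₀‖ ≤ ‖y i‖ ^ 2 := by
        have h5 := norm_sum_sq c (fun r => (hc r).1) (fun r => (hc r).2.1) hcc
        calc ‖star x₀ * (y i * (∑ r, c r * c r) * star (y i)) * x₀‖
            ≤ ‖star x₀‖ * (‖y i‖ * ‖∑ r, c r * c r‖ * ‖star (y i)‖) * ‖x₀‖ := by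
              refine (norm_mul_le _ _).trans ?_
              gcongr
              refine (norm_mul_le _ _).trans ?_
              gcongr
              refine (norm_mul_le _ _).trans ?_
              gcongr
              exact norm_mul_le _ _
          _ = ‖y i‖ ^ 2 * ‖∑ r, c r * c r‖ := by
              rw [norm_star, norm_star, hx₀n]; ring
          _ ≤ ‖y i‖ ^ 2 * 1 := by gcongr
          _ = ‖y i‖ ^ 2 := mul_one _
      have h6 : ‖∑ r, (star x₀ * (y i * (c r * c r) * star (y i)) * x₀ -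
            ν i r • (star x₀ * x₀))‖ ≤ R * e := by
        refine (norm_sum_le _ _).trans ?_
        refine (Finset.sum_le_sum fun r _ => hqe i r).trans ?_
        rw [Finset.sum_const, Finset.card_univ, Fintype.card_fin, nsmul_eq_mul]
      refine (norm_sub_le _ _).trans ?_
      rw [h3]
      linarith
    rw [norm_smul, hp1, mul_one] at h1
    have h7 : (∑ r, ν i r).re ≤ ‖∑ r, ν i r‖ := Complex.re_le_norm _
    rw [Complex.re_sum] at h7
    linarith
  -- pigeonhole
  have hRne : (Finset.univ : Finset (Fin R)).Nonempty := by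
    have : 0 < R := by exact_mod_cast hR0
    exact ⟨⟨0, this⟩, Finset.mem_univ _⟩
  obtain ⟨r, -, hr⟩ : ∃ r ∈ (Finset.univ : Finset (Fin R)),
      ∑ i, ((ν i r).re + e) ≤ C / R + 2 * k * e := by
    apply Finset.exists_le_of_sum_le hRne
    rw [Finset.sum_comm, Finset.sum_const, Finset.card_univ, Fintype.card_fin, nsmul_eq_mul]
    calc ∑ i, ∑ r, ((ν i r).re + e) = ∑ i, (∑ r, (ν i r).re + R * e) := by
          refine Finset.sum_congr rfl fun i _ => ?_
          rw [Finset.sum_add_distrib, Finset.sum_const, Finset.card_univ, Fintype.card_fin,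
            nsmul_eq_mul]
      _ ≤ ∑ i, (‖y i‖ ^ 2 + R * e + R * e) := by
          refine Finset.sum_le_sum fun i _ => ?_
          linarith [hsum i]
      _ = R * (C / R + 2 * k * e) := by
          rw [Finset.sum_add_distrib, Finset.sum_add_distrib, Finset.sum_const, Finset.card_univ,
            Fintype.card_fin, nsmul_eq_mul, ← hC]
          field_simp
          ring
  have hνn : ∀ i, ‖ν i r‖ ≤ C / R + 2 * k * e + 2 * e := by
    intro i
    have h1 : (ν i r).re + e ≤ C / R + 2 * k * e := by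
      refine le_trans ?_ hr
      refine Finset.single_le_sum (f := fun i => (ν i r).re + e) (fun j _ => ?_)
        (Finset.mem_univ i)
      have := (hmu j r).1
      show 0 ≤ (ν j r).re + e
      linarith
    have h2 := (hmu i r).1
    have h3 := (hmu i r).2
    have h4 : |(ν i r).re| ≤ (ν i r).re + 2 * e := by
      rw [abs_le]
      constructor <;> linarith
    calc ‖ν i r‖ ≤ |(ν i r).re| + |(ν i r).im| := Complex.norm_le_abs_re_add_abs_im _
      _ ≤ C / R + 2 * k * e + 2 * e := by linarith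
  refine ⟨a', cut (1 / 2) (c r), ha', ha'0, haa', ?_, cut_ne (hc r).1 (hc r).2.1, ?_, ?_⟩
  · unfold cut
    exact cfcₙ_nonneg fun x _ => le_max_right _ _
  · refine r5 b (c r) (hc r).2.2 ?_
    exact r6 (c r) _ (hc r).1 (by fun_prop) (by norm_num)
  · intro i x hx z hz
    have h1 := r7 (c r) z (1 / 2) (hc r).1 (by norm_num) hz
    have h2 := final (hc r).1 h1 (hEx i r x hx)
    have h3 : 4 * (‖ν i r‖ + e) ≤ ε ^ 2 := by
      have := hνn i
      nlinarith
    have h4 : ‖star x * y i * z‖ ^ 2 ≤ (ε * ‖x‖ * ‖z‖) ^ 2 := by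
      calc ‖star x * y i * z‖ ^ 2 ≤ 4 * (‖ν i r‖ + e) * ‖x‖ ^ 2 * ‖z‖ ^ 2 := h2
        _ ≤ ε ^ 2 * ‖x‖ ^ 2 * ‖z‖ ^ 2 := by gcongr
        _ = (ε * ‖x‖ * ‖z‖) ^ 2 := by ring
    exact (sq_le_sq₀ (norm_nonneg _) (by positivity)).mp h4

end Pool.Agent.H270R2.NU
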