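import Pool.Agent.H667R5.NX.NU.StubsII

/-! Task X5D: decoupling of several right ideals inside `D` (adaptation by helper983 of TX5 of helper415). -/

set_option autoImplicit false

namespace Pool.Agent.H270R2.NU

open Filter Topology Pool.Agent.H327R4.Pure
open Pool.Agent.H327R4.SI (RI Ex Dc IsSt CPto CPF CPAP StRIB StX1 StX2 StX3 StQC StFCOM)

universe u

/-- the right ideal of an element of `D` is inside `D` -/
theorem RI_sub {B : Type u} [CStarAlgebra B] [PartialOrder B] [StarOrderedRing B] {D : Set B}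
    (hD : Core0 B D) {a : B} (ha : a ∈ D) : RI a ⊆ D := by
  apply closure_minimal _ hD.closed
  rintro _ ⟨t, rfl⟩
  exact hD.mul_right a t ha

theorem t_X5D (hRIB : StRIB.{u}) (hX4 : StX4D.{u}) : StX5D.{u} := by
  classical
  intro B _ _ _ D hD n k a y ε ha hε
  obtain ⟨_, _, _, _, hsub, _⟩ := hRIB B
  have key : ∀ P : Finset (Fin n × Fin n), ∃ a' : Fin n → B,
      (∀ m, 0 ≤ a' m ∧ a' m ≠ 0 ∧ a' m ∈ RI (a m)) ∧
      ∀ p ∈ P, p.1 ≠ p.2 → ∀ i, Dc ε (a' p.1) (a' p.2) (y i) := by
    intro P
    induction P using Finset.induction_on with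
    | empty =>
      exact ⟨a, fun m => ⟨(ha m).2.1, (ha m).2.2, (hRIB B).1 _⟩, by simp⟩
    | insert q P hq ih =>
      obtain ⟨a', h1, h2⟩ := ih
      obtain ⟨m, m'⟩ := q
      by_cases hm : m = m'
      · refine ⟨a', h1, ?_⟩
        intro p hp hne
        rcases Finset.mem_insert.mp hp with rfl | hp
        · exact absurd hm hne
        · exact h2 p hp hne
      · obtain ⟨c, d, hc0, hc1, hc2, hd0, hd1, hd2, hcd⟩ :=
          hX4 B D hD (a' m) (a' m') k y ε (RI_sub hD (ha m).1 (h1 m).2.2) (h1 m).1 (h1 m).2.1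
            (RI_sub hD (ha m').1 (h1 m').2.2) (h1 m').1 (h1 m').2.1 hε
        set a'' : Fin n → B := Function.update (Function.update a' m c) m' d with ha''
        have e1 : a'' m = c := by
          rw [ha'', Function.update_of_ne hm, Function.update_self]
        have e2 : a'' m' = d := by
          rw [ha'', Function.update_self]
        have e3 : ∀ l, l ≠ m → l ≠ m' → a'' l = a' l := by
          intro l h3 h4
          rw [ha'', Function.update_of_ne h4, Function.update_of_ne h3]
        have hall : ∀ l, 0 ≤ a'' l ∧ a'' l ≠ 0 ∧ a'' l ∈ RI (a' l) := by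
          intro l
          by_cases h4 : l = m'
          · rw [h4, e2]; exact ⟨hd0, hd1, hd2⟩
          · by_cases h3 : l = m
            · rw [h3, e1]; exact ⟨hc0, hc1, hc2⟩
            · rw [e3 l h3 h4]
              exact ⟨(h1 l).1, (h1 l).2.1, (hRIB B).1 _⟩
        refine ⟨a'', fun l => ⟨(hall l).1, (hall l).2.1, hsub _ _ (h1 l).2.2 (hall l).2.2⟩, ?_⟩
        intro p hp hne i
        rcases Finset.mem_insert.mp hp with rfl | hp
        · simp only [e1, e2]
          exact hcd i
        · intro x hx z hz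
          exact h2 p hp hne i x (hsub _ _ (hall _).2.2 hx) z (hsub _ _ (hall _).2.2 hz)
  obtain ⟨a', h1, h2⟩ := key Finset.univ
  exact ⟨a', h1, fun m m' hmm i => h2 (m, m') (Finset.mem_univ _) hmm i⟩

end Pool.Agent.H270R2.NU
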