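import Pool.Agent.H667R5.NX.NU.StubsII
import Pool.Agent.H667R5.NX.NU.TX5D
import Pool.Agent.H327R4.Pure.All4

/-! Task X6D: a common source for elements of several right ideals inside `D` (adaptation by helper983 of TX6 of helper415). -/

set_option autoImplicit false

namespace Pool.Agent.H270R2.NU

open Filter Topology Pool.Agent.H327R4.Pure
open Pool.Agent.H327R4.SI (RI Ex Dc IsSt CPto CPF CPAP StRIB StX1 StX2 StX3 StQC StFCOM)

universe u

theorem t_X6D (hRIB : StRIB.{u}) : StX6D.{u} := by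
  classical
  intro B _ _ _ D hD n a ha
  obtain ⟨hself, hmul, _, hsm, _⟩ := hRIB B
  have key : ∀ (n : ℕ) (a : Fin n → B), (∀ m, a m ∈ D ∧ 0 ≤ a m ∧ a m ≠ 0) →
      ∃ (g : B) (x : Fin n → B), g ∈ D ∧ 0 ≤ g ∧ g ≠ 0 ∧ ∀ m, x m ∈ RI (a m) ∧ star (x m) * x m = g := by
    intro n
    induction n with
    | zero =>
      intro a _
      obtain ⟨d, hd, hd0⟩ := hD.nonzero
      exact ⟨star d * d, fun m => m.elim0, hD.mul_left _ _ hd, star_mul_self_nonneg d,
        fun h => hd0 (CStarRing.star_mul_self_eq_zero_iff d |>.mp h), fun m => m.elim0⟩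
    | succ n ih =>
      intro a ha
      obtain ⟨g, x, hgD, hg0, hg1, hx⟩ := ih (fun m => a m.castSucc) (fun m => ha _)
      set b := a (Fin.last n) with hb
      have hbD : b ∈ D := (ha _).1
      have hb1 : b ≠ 0 := (ha _).2.2
      obtain ⟨t0, ht0, hi0⟩ := hD.prime b g hbD hgD hb1 hg1
      set w := b * t0 * g with hw
      have hwR : w ∈ RI b := hmul b _ _ (hmul b _ _ (hself b))
      have hρ0 : 0 ≤ star w * w := star_mul_self_nonneg w
      have hρ1 : star w * w ≠ 0 := fun h => hi0 (CStarRing.star_mul_self_eq_zero_iff w |>.mp h)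
      -- the bound
      have hgs : star g = g := (IsSelfAdjoint.of_nonneg hg0).star_eq
      obtain ⟨C, hC⟩ : ∃ C : ℝ, star w * w ≤ C • g := by
        have hr := CStarAlgebra.nonneg_iff_eq_star_mul_self.mp hg0
        obtain ⟨r, hr⟩ := hr
        have hsa : IsSelfAdjoint (r * (star (b * t0) * (b * t0)) * star r) := by
          have : r * (star (b * t0) * (b * t0)) * star r =
              star (b * t0 * star r) * (b * t0 * star r) := by
            simp [mul_assoc]
          rw [this]
          exact IsSelfAdjoint.star_mul_self _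
        refine ⟨‖r * (star (b * t0) * (b * t0)) * star r‖, ?_⟩
        have h := CStarAlgebra.star_left_conjugate_le_norm_smul (a := r)
          (b := r * (star (b * t0) * (b * t0)) * star r) hsa
        have e : star w * w = star r * (r * (star (b * t0) * (b * t0)) * star r) * r := by
          rw [hw, star_mul, hgs, hr]
          simp only [mul_assoc]
        rw [e]
        rw [← hr] at h
        exact h
      have hold : ∀ i : Fin n, ∃ s : B, s ∈ RI (a i.castSucc) ∧ star s * s = star w * w := by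
        intro i
        obtain ⟨s, z, hs1, hs2⟩ := ex' B (x i) (star w * w) C hρ0 (by rw [(hx i).2]; exact hC)
        refine ⟨s, ?_, hs1⟩
        have hcl : IsClosed (RI (a i.castSucc)) := isClosed_closure
        exact hcl.mem_of_tendsto hs2 (Eventually.of_forall fun k => hmul _ _ _ (hx i).1)
      choose s hs1 hs2 using hold
      refine ⟨star w * w, Fin.snoc (α := fun _ => B) s w,
        hD.mul_left _ _ (hD.mul_left _ _ hgD), hρ0, hρ1, ?_⟩
      intro m
      refine Fin.lastCases ?_ (fun i => ?_) m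
      · simp only [Fin.snoc_last]
        exact ⟨hwR, trivial⟩
      · simp only [Fin.snoc_castSucc]
        exact ⟨hs1 i, hs2 i⟩
  obtain ⟨g, x, hgD, hg0, hg1, hx⟩ := key n a ha
  have hn : 0 < ‖g‖ := norm_pos_iff.mpr hg1
  set c : ℝ := Real.sqrt (‖g‖⁻¹) with hc
  have hcc : c * c = ‖g‖⁻¹ := Real.mul_self_sqrt (inv_nonneg.mpr hn.le)
  have hgD' : (‖g‖⁻¹ : ℝ) • g ∈ D := by
    have h := hD.smul ((‖g‖⁻¹ : ℝ) : ℂ) g hgD
    rwa [Complex.coe_smul] at h
  refine ⟨(‖g‖⁻¹ : ℝ) • g, fun m => (c : ℂ) • x m, hgD', smul_nonneg (inv_nonneg.mpr hn.le) hg0, ?_, ?_⟩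
  · rw [norm_smul, norm_inv, norm_norm, inv_mul_cancel₀ hn.ne']
  · intro m
    refine ⟨hsm _ _ _ (hx m).1, ?_⟩
    rw [star_smul, smul_mul_smul_comm, (hx m).2]
    have : star (c : ℂ) * (c : ℂ) = ((‖g‖⁻¹ : ℝ) : ℂ) := by
      rw [← hcc]
      simp
    rw [this]
    exact Complex.coe_smul _ _

end Pool.Agent.H270R2.NU
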