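import Pool.Agent.H667R5.NX.NU.StubsII
import Pool.Agent.H667R5.NX.NU.TX5D

set_option autoImplicit false

namespace Pool.Agent.H270R2.NU

open Filter Topology Pool.Agent.H327R4.Pure
open Pool.Agent.H327R4.SI (RI Ex Dc IsSt CPto CPF CPAP StRIB StX1 StX2 StX3 StQC StFCOM)

universe u

/-- X7D (adaptation by helper983 of TX7 of helper59) -/
theorem t_X7D (hRIB : StRIB.{u}) (hX3 : StX3.{u}) (hX5 : StX5D.{u}) (hX6 : StX6D.{u}) :
    StX7D.{u} := by
  intro B _ _ _ D hCD Ψ k y ε hΨ hε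
  haveI : Nontrivial B := by
    obtain ⟨d, -, hd0⟩ := hCD.nonzero
    exact ⟨⟨d, 0, hd0⟩⟩
  obtain ⟨r1, r2, -, -, r5, -⟩ := hRIB B
  obtain ⟨n, w, ω, hw0, hw1, hex, happ⟩ := hX3 B Ψ k y (ε / 3) hΨ (by positivity)
  choose a₀ ha₀0 ha₀ne ha₀E using fun m => hex m (ε / 3) (by positivity)
  choose d hdD hd0 using fun m => hCD.ess (a₀ m) (ha₀ne m)
  obtain ⟨a, haa⟩ : ∃ a : Fin n → B, ∀ m, a m = a₀ m * d m * star (a₀ m * d m) :=
    ⟨_, fun m => rfl⟩
  have haD : ∀ m, a m ∈ D := fun m => by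
    rw [haa]; exact hCD.mul_right _ _ (hCD.mul_left _ _ (hdD m))
  have ha0 : ∀ m, 0 ≤ a m := fun m => by rw [haa]; exact mul_star_self_nonneg _
  have hane : ∀ m, a m ≠ 0 := fun m h => by
    rw [haa] at h
    exact hd0 m (CStarRing.mul_star_self_eq_zero_iff _ |>.mp h)
  have haR : ∀ m, a m ∈ RI (a₀ m) := fun m => by
    rw [haa, mul_assoc]
    exact r2 _ _ _ (r1 _)
  have haE : ∀ m i, Ex (ε / 3) (a m) (y i) (ω m i) := fun m i x hx =>
    ha₀E m i x (r5 _ _ (haR m) hx)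
  set e2 : ℝ := ε / (3 * ((n : ℝ) ^ 2 + 1)) with he2
  have he2p : 0 < e2 := by positivity
  obtain ⟨a', ha', hDc⟩ := hX5 B D hCD n k a y e2 (fun m => ⟨haD m, ha0 m, hane m⟩) he2p
  have haD' : ∀ m, a' m ∈ D := fun m => RI_sub hCD (haD m) (ha' m).2.2
  obtain ⟨g, x, hgD, hg0, hg1, hx⟩ := hX6 B D hCD n a' (fun m => ⟨haD' m, (ha' m).1, (ha' m).2.1⟩)
  have hxn : ∀ m, ‖x m‖ = 1 := by
    intro m
    have h1 : ‖star (x m) * x m‖ = ‖x m‖ * ‖x m‖ := CStarRing.norm_star_mul_self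
    rw [(hx m).2, hg1] at h1
    nlinarith [norm_nonneg (x m)]
  have hwle : ∀ m, w m ≤ 1 := fun m => by
    rw [← hw1]
    exact Finset.single_le_sum (fun i _ => hw0 i) (Finset.mem_univ m)
  have hE : ∀ m i, ‖star (x m) * y i * x m - ω m i • g‖ ≤ ε / 3 := by
    intro m i
    have hxa : x m ∈ RI (a m) := r5 (a m) (a' m) (ha' m).2.2 (hx m).1
    have h := haE m i (x m) hxa
    rw [(hx m).2, hxn m] at h
    simpa using h
  have hD : ∀ m m', m ≠ m' → ∀ i, ‖star (x m) * y i * x m'‖ ≤ e2 := by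
    intro m m' hm i
    have h := hDc m m' hm i (x m) (hx m).1 (x m') (hx m').1
    rw [hxn m, hxn m'] at h
    simpa using h
  have hH : ∑ m, ((Real.sqrt (w m) : ℝ) : ℂ) • x m ∈ D := by
    refine Finset.sum_induction _ (fun z => z ∈ D) (fun z z' hz hz' => hCD.add _ _ hz hz') hCD.zero
      (fun m _ => ?_)
    exact hCD.smul _ _ (RI_sub hCD (haD' m) (hx m).1)
  refine ⟨∑ m, ((Real.sqrt (w m) : ℝ) : ℂ) • x m, g, hH, hgD, hg0, hg1, fun i => ?_⟩
  have e1 : star (∑ m, ((Real.sqrt (w m) : ℝ) : ℂ) • x m) * y i *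
      (∑ m, ((Real.sqrt (w m) : ℝ) : ℂ) • x m) =
      ∑ m, ∑ m', ((Real.sqrt (w m) * Real.sqrt (w m') : ℝ) : ℂ) • (star (x m) * y i * x m') := by
    rw [star_sum, Finset.sum_mul, Finset.sum_mul]
    refine Finset.sum_congr rfl fun m _ => ?_
    rw [Finset.mul_sum]
    refine Finset.sum_congr rfl fun m' _ => ?_
    rw [star_smul, smul_mul_assoc, smul_mul_assoc, mul_smul_comm, smul_smul]
    congr 1
    rw [Complex.star_def, Complex.conj_ofReal, Complex.ofReal_mul]
  have e3 : ∑ m, ∑ m', ((Real.sqrt (w m) * Real.sqrt (w m') : ℝ) : ℂ) • (star (x m) * y i * x m') =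
      ∑ m, (w m : ℂ) • (star (x m) * y i * x m) +
      ∑ m, ∑ m', (if m = m' then 0 else
        ((Real.sqrt (w m) * Real.sqrt (w m') : ℝ) : ℂ) • (star (x m) * y i * x m')) := by
    rw [← Finset.sum_add_distrib]
    refine Finset.sum_congr rfl fun m _ => ?_
    have h1 : (w m : ℂ) • (star (x m) * y i * x m) = ∑ m', (if m = m' then
        ((Real.sqrt (w m) * Real.sqrt (w m') : ℝ) : ℂ) • (star (x m) * y i * x m') else 0) := by
      rw [Finset.sum_ite_eq]
      simp only [Finset.mem_univ, if_true]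
      rw [Real.mul_self_sqrt (hw0 m)]
    rw [h1, ← Finset.sum_add_distrib]
    refine Finset.sum_congr rfl fun m' _ => ?_
    split_ifs <;> simp
  have e4 : ∑ m, (w m : ℂ) • (star (x m) * y i * x m) - Ψ (y i) • g =
      ∑ m, (w m : ℂ) • (star (x m) * y i * x m - ω m i • g) +
      (∑ m, (w m : ℂ) * ω m i - Ψ (y i)) • g := by
    simp only [smul_sub, Finset.sum_sub_distrib, sub_smul, Finset.sum_smul, smul_smul]
    abel
  rw [e1, e3, add_sub_right_comm, e4]
  have n1 : ‖∑ m, (w m : ℂ) • (star (x m) * y i * x m - ω m i • g)‖ ≤ ε / 3 := by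
    refine (norm_sum_le _ _).trans ?_
    calc ∑ m, ‖(w m : ℂ) • (star (x m) * y i * x m - ω m i • g)‖ ≤ ∑ m, w m * (ε / 3) := by
          refine Finset.sum_le_sum fun m _ => ?_
          rw [norm_smul, Complex.norm_real, Real.norm_eq_abs, abs_of_nonneg (hw0 m)]
          exact mul_le_mul_of_nonneg_left (hE m i) (hw0 m)
      _ = ε / 3 := by rw [← Finset.sum_mul, hw1, one_mul]
  have n2 : ‖(∑ m, (w m : ℂ) * ω m i - Ψ (y i)) • g‖ ≤ ε / 3 := by
    rw [norm_smul, hg1, mul_one]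
    exact happ i
  have n3 : ‖∑ m, ∑ m', (if m = m' then (0 : B) else
        ((Real.sqrt (w m) * Real.sqrt (w m') : ℝ) : ℂ) • (star (x m) * y i * x m'))‖ ≤ ε / 3 := by
    have hterm : ∀ m m' : Fin n, ‖(if m = m' then (0 : B) else
        ((Real.sqrt (w m) * Real.sqrt (w m') : ℝ) : ℂ) • (star (x m) * y i * x m'))‖ ≤ e2 := by
      intro m m'
      split_ifs with h
      · rw [norm_zero]; exact he2p.le
      · rw [norm_smul, Complex.norm_real, Real.norm_eq_abs, abs_of_nonneg (by positivity)]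
        have h1 : Real.sqrt (w m) * Real.sqrt (w m') ≤ 1 := by
          have a1 : Real.sqrt (w m) ≤ 1 := Real.sqrt_le_one.2 (hwle m)
          have a2 : Real.sqrt (w m') ≤ 1 := Real.sqrt_le_one.2 (hwle m')
          exact mul_le_one₀ a1 (Real.sqrt_nonneg _) a2
        calc Real.sqrt (w m) * Real.sqrt (w m') * ‖star (x m) * y i * x m'‖
            ≤ 1 * e2 := mul_le_mul h1 (hD m m' h i) (norm_nonneg _) zero_le_one
          _ = e2 := one_mul _
    refine (norm_sum_le _ _).trans ?_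
    calc ∑ m, ‖∑ m', (if m = m' then (0 : B) else
        ((Real.sqrt (w m) * Real.sqrt (w m') : ℝ) : ℂ) • (star (x m) * y i * x m'))‖
        ≤ ∑ _m : Fin n, ∑ _m' : Fin n, e2 := by
          refine Finset.sum_le_sum fun m _ => ?_
          exact (norm_sum_le _ _).trans (Finset.sum_le_sum fun m' _ => hterm m m')
      _ = (n : ℝ) ^ 2 * e2 := by
          simp only [Finset.sum_const, Finset.card_univ, Fintype.card_fin, nsmul_eq_mul]
          ring
      _ ≤ ε / 3 := by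
          rw [he2]
          have : (n : ℝ) ^ 2 * (ε / (3 * ((n : ℝ) ^ 2 + 1))) = ε / 3 * ((n : ℝ) ^ 2 / ((n : ℝ) ^ 2 + 1)) := by
            field_simp
          rw [this]
          refine mul_le_of_le_one_right (by positivity) ?_
          rw [div_le_one (by positivity)]
          linarith
  refine (norm_add_le _ _).trans ?_
  have n4 := norm_add_le (∑ m, (w m : ℂ) • (star (x m) * y i * x m - ω m i • g))
    ((∑ m, (w m : ℂ) * ω m i - Ψ (y i)) • g)
  linarith

end Pool.Agent.H270R2.NU
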