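import Pool.Agent.H667R5.NX.NU.StubsII
import Pool.Agent.H327R4.SI.TX8

/-! Task X8D (part II): matrix algebras over an ideal satisfying `Core0` satisfy `Core0`. -/

set_option autoImplicit false
set_option linter.unusedSectionVars false

namespace Pool.Agent.H270R2.NU

open Filter Topology Pool.Agent.H327R4.Pure
open Pool.Agent.H327R4.SI.TX8

universe u

namespace TX8D

section scalar

variable {E : Type u} [CStarAlgebra E] [PartialOrder E] [StarOrderedRing E]

theorem den_ne (d : ℝ) (hd : 0 < d) (t : ℝ) : max t d ≠ 0 :=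
  (lt_of_lt_of_le hd (le_max_right t d)).ne'

/-- `g = (max t d)^(-1/2)` -/
noncomputable def gg (d : ℝ) (a : E) : E := cfc (fun t : ℝ => (Real.sqrt (max t d))⁻¹) a

theorem gg_cont (d : ℝ) (hd : 0 < d) : Continuous (fun t : ℝ => (Real.sqrt (max t d))⁻¹) := by
  refine Continuous.inv₀ (by fun_prop) fun t => ?_
  exact (Real.sqrt_pos.2 (lt_of_lt_of_le hd (le_max_right t d))).ne'

theorem gg_sa (d : ℝ) (a : E) : IsSelfAdjoint (gg d a) := cfc_predicate _ a

theorem gag (d : ℝ) (hd : 0 < d) (a : E) (ha : 0 ≤ a) :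
    gg d a * a * gg d a = cfc (fun t : ℝ => t / max t d) a := by
  have hsa : IsSelfAdjoint a := IsSelfAdjoint.of_nonneg ha
  have hc := gg_cont d hd
  have h1 : gg d a * a = cfc (fun t : ℝ => (Real.sqrt (max t d))⁻¹ * t) a := by
    unfold gg
    rw [cfc_mul (fun t : ℝ => (Real.sqrt (max t d))⁻¹) (fun t : ℝ => t) a hc.continuousOn
      (by fun_prop), cfc_id' ℝ a hsa]
  rw [h1]
  unfold gg
  rw [← cfc_mul (fun t : ℝ => (Real.sqrt (max t d))⁻¹ * t)
    (fun t : ℝ => (Real.sqrt (max t d))⁻¹) a (hc.mul continuous_id).continuousOn hc.continuousOn]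
  apply cfc_congr
  intro t _
  simp only []
  have h2 : 0 < max t d := lt_of_lt_of_le hd (le_max_right t d)
  have h3 : Real.sqrt (max t d) * Real.sqrt (max t d) = max t d := Real.mul_self_sqrt h2.le
  have h4 : (Real.sqrt (max t d))⁻¹ * t * (Real.sqrt (max t d))⁻¹
      = t * (Real.sqrt (max t d) * Real.sqrt (max t d))⁻¹ := by
    rw [mul_inv]; ring
  rw [h4, h3, div_eq_mul_inv]

theorem cut_eq (d : ℝ) (hd : 0 < d) (a : E) (_ha : 0 ≤ a) :
    cut d a = cfc (fun t : ℝ => max (t - d) 0) a := by
  unfold cut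
  rw [cfcₙ_eq_cfc (by fun_prop) (by simp [hd.le])]

theorem cut_mul (d : ℝ) (hd : 0 < d) (a : E) (ha : 0 ≤ a) :
    cut d a = a * cfc (fun t : ℝ => max (t - d) 0 / max t d) a := by
  have hsa : IsSelfAdjoint a := IsSelfAdjoint.of_nonneg ha
  have hc : Continuous (fun t : ℝ => max (t - d) 0 / max t d) :=
    Continuous.div (by fun_prop) (by fun_prop) (den_ne d hd)
  rw [cut_eq d hd a ha]
  have h1 : a * cfc (fun t : ℝ => max (t - d) 0 / max t d) a
      = cfc (fun t : ℝ => t * (max (t - d) 0 / max t d)) a := by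
    rw [cfc_mul (fun t : ℝ => t) (fun t : ℝ => max (t - d) 0 / max t d) a (by fun_prop)
      hc.continuousOn, cfc_id' ℝ a hsa]
  rw [h1]
  apply cfc_congr
  intro t _
  simp only []
  rcases le_or_gt t d with h | h
  · have : max (t - d) 0 = 0 := max_eq_right (by linarith)
    rw [this]; simp
  · have h2 : max t d = t := max_eq_left h.le
    have h3 : t ≠ 0 := by linarith
    rw [h2]; field_simp

theorem phi_cut (d : ℝ) (hd : 0 < d) (a : E) (ha : 0 ≤ a) :
    (1 - cfc (fun t : ℝ => t / max t d) a) * cut d a = 0 := by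
  have hsa : IsSelfAdjoint a := IsSelfAdjoint.of_nonneg ha
  have hc : Continuous (fun t : ℝ => t / max t d) :=
    Continuous.div (by fun_prop) (by fun_prop) (den_ne d hd)
  rw [sub_mul, one_mul, cut_eq d hd a ha]
  rw [← cfc_mul (fun t : ℝ => t / max t d) (fun t : ℝ => max (t - d) 0) a hc.continuousOn
    (by fun_prop), sub_eq_zero]
  apply cfc_congr
  intro t _
  simp only []
  rcases le_or_gt t d with h | h
  · have : max (t - d) 0 = 0 := max_eq_right (by linarith)
    rw [this]; simp
  · have h2 : max t d = t := max_eq_left h.le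
    have h3 : t ≠ 0 := by linarith
    rw [h2, div_self h3, one_mul]

theorem phi_fix (d : ℝ) (hd : 0 < d) (a x : E) (M : ℝ) (ha : 0 ≤ a)
    (hx : x * star x ≤ M • cut d a) :
    cfc (fun t : ℝ => t / max t d) a * x = x := by
  set φ : E := cfc (fun t : ℝ => t / max t d) a with hφ
  have hφs : IsSelfAdjoint φ := cfc_predicate _ a
  set P : E := 1 - φ with hP
  have hPs : IsSelfAdjoint P := (IsSelfAdjoint.one E).sub hφs
  have h1 : P * (x * star x) * star P ≤ P * (M • cut d a) * star P :=
    star_right_conjugate_le_conjugate hx P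
  have h2 : P * (M • cut d a) * star P = 0 := by
    rw [mul_smul_comm, phi_cut d hd a ha, smul_zero, zero_mul]
  have h3 : P * (x * star x) * star P = P * x * star (P * x) := by
    rw [star_mul]; simp only [mul_assoc]
  rw [h2, h3] at h1
  have h4 : P * x * star (P * x) = 0 := le_antisymm h1 (mul_star_self_nonneg _)
  have h5 : P * x = 0 := CStarRing.mul_star_self_eq_zero_iff _ |>.1 h4
  rw [hP, sub_mul, one_mul, sub_eq_zero] at h5
  exact h5.symm

theorem cut_nonneg' (d : ℝ) (hd : 0 < d) (a : E) (ha : 0 ≤ a) : 0 ≤ cut d a := by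
  rw [cut_eq d hd a ha]
  exact cfc_nonneg fun t _ => le_max_right _ _

theorem cut_ne (a : E) (ha : 0 ≤ a) (h : a ≠ 0) : cut (‖a‖ / 2) a ≠ 0 := by
  have hsa : IsSelfAdjoint a := IsSelfAdjoint.of_nonneg ha
  have hn : 0 < ‖a‖ := norm_pos_iff.2 h
  intro h0
  have hd : 0 < ‖a‖ / 2 := by positivity
  have h1 : a - cut (‖a‖ / 2) a = cfc (fun t : ℝ => t - max (t - ‖a‖ / 2) 0) a := by
    rw [cut_eq _ hd a ha, cfc_sub (fun t : ℝ => t) (fun t : ℝ => max (t - ‖a‖ / 2) 0) a
      (by fun_prop) (by fun_prop), cfc_id' ℝ a hsa]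
  have h2 : ‖cfc (fun t : ℝ => t - max (t - ‖a‖ / 2) 0) a‖ ≤ ‖a‖ / 2 := by
    apply norm_cfc_le hd.le
    intro t ht
    have ht0 : 0 ≤ t := spectrum_nonneg_of_nonneg ha ht
    rw [Real.norm_eq_abs]
    rcases le_or_gt t (‖a‖ / 2) with h3 | h3
    · have : max (t - ‖a‖ / 2) 0 = 0 := max_eq_right (by linarith)
      rw [this, sub_zero, abs_of_nonneg ht0]; exact h3
    · have : max (t - ‖a‖ / 2) 0 = t - ‖a‖ / 2 := max_eq_left (by linarith)
      rw [this, sub_sub_cancel, abs_of_nonneg hd.le]
  rw [← h1, h0, sub_zero] at h2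
  linarith

end scalar

theorem sqrt_ex {F : Type u} [CStarAlgebra F] [PartialOrder F] [StarOrderedRing F] (c : F)
    (hc : 0 ≤ c) : ∃ h : F, 0 ≤ h ∧ h * h = c :=
  ⟨CFC.sqrt c, CFC.sqrt_nonneg c, CFC.sqrt_mul_sqrt_self c hc⟩

theorem ss_ex {F : Type u} [CStarAlgebra F] [PartialOrder F] [StarOrderedRing F] (c : F)
    (hc : 0 ≤ c) : ∃ s : F, c = star s * s :=
  CStarAlgebra.nonneg_iff_eq_star_mul_self.1 hc

section core

variable {E : Type u} [CStarAlgebra E] [PartialOrder E] [StarOrderedRing E] {D : Set E}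

theorem sum_mem' (hC : Core0 E D) {ι : Type*} (s : Finset ι) (f : ι → E)
    (h : ∀ i ∈ s, f i ∈ D) : ∑ i ∈ s, f i ∈ D := by
  classical
  induction s using Finset.induction_on with
  | empty => simpa using hC.zero
  | insert a s ha ih =>
    rw [Finset.sum_insert ha]
    exact hC.add _ _ (h a (Finset.mem_insert_self a s))
      (ih fun i hi => h i (Finset.mem_insert_of_mem hi))

theorem ent_cont {N : ℕ} (i j : Fin N) : Continuous (fun M : MM N E => M i j) := by
  let L : MM N E →+ E := { toFun := fun M => M i j, map_zero' := rfl, map_add' := fun _ _ => rfl }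
  have : Continuous L := by
    refine AddMonoidHomClass.continuous_of_bound L 1 fun M => ?_
    rw [one_mul]
    exact CStarMatrix.norm_entry_le_norm (M := M) (i := i) (j := j)
  exact this

theorem mul_en {N : ℕ} (M : MM N E) (q r i j : Fin N) (t : E) :
    (M * en q r t) i j = if r = j then M i q * t else 0 := by
  simp only [CStarMatrix.mul_apply, en_apply]
  by_cases hj : r = j <;> simp [hj]

theorem en_mul' {N : ℕ} (M : MM N E) (q r i j : Fin N) (t : E) :
    (en q r t * M) i j = if q = i then t * M r j else 0 := by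
  simp only [CStarMatrix.mul_apply, en_apply]
  by_cases hj : q = i <;> simp [hj]

theorem diag_ne {N : ℕ} (c : MM N E) (hc : 0 ≤ c) (h : c ≠ 0) : ∃ i, c i i ≠ 0 := by
  by_contra hcon
  push Not at hcon
  apply h
  obtain ⟨s, hs⟩ := ss_ex c hc
  have h1 : s = 0 := by
    ext k i
    have h2 : c i i = ∑ k, star (s k i) * s k i := by
      rw [hs, CStarMatrix.mul_apply]
      rfl
    have h3 := hcon i
    rw [h2, Finset.sum_eq_zero_iff_of_nonneg (fun k _ => star_mul_self_nonneg _)] at h3
    have h4 := h3 k (Finset.mem_univ k)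
    have h5 : s k i = 0 := CStarRing.star_mul_self_eq_zero_iff _ |>.1 h4
    rw [h5]; rfl
  rw [hs, h1]; simp

theorem diag_nonneg' {N : ℕ} (c : MM N E) (hc : 0 ≤ c) (i : Fin N) : 0 ≤ c i i := by
  obtain ⟨s, hs⟩ := ss_ex c hc
  have h2 : c i i = ∑ k, star (s k i) * s k i := by
    rw [hs, CStarMatrix.mul_apply]
    rfl
  rw [h2]
  exact Finset.sum_nonneg fun k _ => star_mul_self_nonneg _

end core

section nilp

/-- abstract form of the transport of a nilpotent -/
theorem transport {F : Type u} [CStarAlgebra F] [PartialOrder F] [StarOrderedRing F]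
    (h G Y c : F) (hh : IsSelfAdjoint h) (hG : IsSelfAdjoint G) (hhc : h * h = c)
    (h1 : G * c * G * Y = Y) (h2 : G * c * G * star Y = star Y) (h3 : Y * Y = 0) (h4 : Y ≠ 0) :
    let X := h * G * Y * (G * h)
    X ≠ 0 ∧ X * X = 0 ∧ ∃ M : ℝ, 0 < M ∧ star X * X ≤ M • c ∧ X * star X ≤ M • c := by
  intro X
  have hsX : star X = h * G * star Y * (G * h) := by
    simp only [X, star_mul, hh.star_eq, hG.star_eq, mul_assoc]
  have key : ∀ Z Z' : F, h * G * Z * (G * h) * (h * G * Z' * (G * h))
      = h * G * Z * (G * c * G * Z') * (G * h) := by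
    intro Z Z'
    rw [← hhc]; simp only [mul_assoc]
  have hXX : X * X = 0 := by
    simp only [X]
    rw [key, h1]
    rw [mul_assoc (h * G) Y Y, h3]; simp
  have hX1 : star X * X = (h * G) * (star Y * Y) * star (h * G) := by
    rw [hsX]; simp only [X]
    rw [key, h1]
    simp only [star_mul, hh.star_eq, hG.star_eq, mul_assoc]
  have hX2 : X * star X = (h * G) * (star (star Y) * star Y) * star (h * G) := by
    rw [hsX]; simp only [X]
    rw [key, h2]
    simp only [star_mul, star_star, hh.star_eq, hG.star_eq, mul_assoc]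
  have hX0 : X ≠ 0 := by
    intro h0
    apply h4
    have h5 : G * h * X * (h * G) = 0 := by rw [h0]; simp
    have h6 : G * h * X * (h * G) = (G * c * G * Y) * (G * c * G) := by
      simp only [X]; rw [← hhc]; simp only [mul_assoc]
    have h7 : Y * (G * c * G) = Y := by
      have h8 := congrArg star h2
      have hcs : star c = c := by rw [← hhc, star_mul, hh.star_eq]
      rw [star_mul, star_star] at h8
      have h9 : star (G * c * G) = G * c * G := by
        rw [star_mul, star_mul, hcs, hG.star_eq, mul_assoc]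
      rwa [h9] at h8
    rw [h6, h1, h7] at h5
    exact h5
  have bound : ∀ Z : F, (h * G) * (star Z * Z) * star (h * G) ≤ (‖Z‖ ^ 2 * ‖G‖ ^ 2) • c := by
    intro Z
    have b1 : star Z * Z ≤ algebraMap ℝ F (‖Z‖ ^ 2) := CStarAlgebra.star_mul_le_algebraMap_norm_sq
    have b2 : (h * G) * (star Z * Z) * star (h * G)
        ≤ (h * G) * (algebraMap ℝ F (‖Z‖ ^ 2)) * star (h * G) :=
      star_right_conjugate_le_conjugate b1 _
    have b3 : (h * G) * (algebraMap ℝ F (‖Z‖ ^ 2)) * star (h * G)
        = (‖Z‖ ^ 2) • (h * (star G * G) * star h) := by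
      rw [Algebra.algebraMap_eq_smul_one, mul_smul_comm, smul_mul_assoc, mul_one]
      congr 1
      simp only [star_mul, hG.star_eq, mul_assoc]
    have b4 : h * (star G * G) * star h ≤ h * (algebraMap ℝ F (‖G‖ ^ 2)) * star h :=
      star_right_conjugate_le_conjugate CStarAlgebra.star_mul_le_algebraMap_norm_sq _
    have b5 : h * (algebraMap ℝ F (‖G‖ ^ 2)) * star h = (‖G‖ ^ 2) • c := by
      rw [Algebra.algebraMap_eq_smul_one, mul_smul_comm, smul_mul_assoc, mul_one, hh.star_eq, hhc]
    rw [b5] at b4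
    rw [b3] at b2
    refine b2.trans ?_
    rw [mul_smul]
    exact smul_le_smul_of_nonneg_left b4 (by positivity)
  have hc0 : 0 ≤ c := by
    rw [← hhc]
    have := star_mul_self_nonneg h
    rwa [hh.star_eq] at this
  refine ⟨hX0, hXX, ‖Y‖ ^ 2 * ‖G‖ ^ 2 + 1, by positivity, ?_, ?_⟩
  · rw [hX1]
    refine (bound Y).trans ?_
    exact smul_le_smul_of_nonneg_right (by linarith) hc0
  · rw [hX2]
    refine (bound (star Y)).trans ?_
    rw [norm_star]
    exact smul_le_smul_of_nonneg_right (by linarith) hc0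

end nilp

end TX8D

open TX8D in
theorem t_X8D : StX8D.{u} := by
  intro E _ _ _ D hC N hN
  have i0 : Fin N := ⟨0, hN⟩
  refine
    { zero := fun i j => hC.zero
      add := fun x y hx hy i j => hC.add _ _ (hx i j) (hy i j)
      smul := fun c x hx i j => hC.smul c _ (hx i j)
      star := fun x hx i j => hC.star _ (hx j i)
      mul_left := ?_
      mul_right := ?_
      closed := ?_
      nonzero := ?_
      prime := ?_
      ess := ?_
      nil := ?_ }
  · intro x y hy i j
    rw [CStarMatrix.mul_apply]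
    exact sum_mem' hC _ _ fun k _ => hC.mul_left _ _ (hy k j)
  · intro x y hx i j
    rw [CStarMatrix.mul_apply]
    exact sum_mem' hC _ _ fun k _ => hC.mul_right _ _ (hx i k)
  · have : {M : MM N E | ∀ i j, M i j ∈ D}
        = ⋂ i : Fin N, ⋂ j : Fin N, (fun M : MM N E => M i j) ⁻¹' D := by
      ext M; simp
    rw [this]
    exact isClosed_iInter fun i => isClosed_iInter fun j => hC.closed.preimage (ent_cont i j)
  · obtain ⟨x, hx, hx0⟩ := hC.nonzero
    refine ⟨en i0 i0 x, ?_, ?_⟩
    · intro i j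
      rw [en_apply]
      split_ifs
      · exact hx
      · exact hC.zero
    · intro h
      apply hx0
      have h1 : en i0 i0 x i0 i0 = (0 : MM N E) i0 i0 := by rw [h]
      simpa [en_apply] using h1
  · intro x y hx hy hx0 hy0
    have ex : ∀ z : MM N E, z ≠ 0 → ∃ p q, z p q ≠ 0 := by
      intro z hz
      by_contra hcon
      push Not at hcon
      exact hz (by ext i j; rw [hcon i j]; rfl)
    obtain ⟨p, q, hpq⟩ := ex x hx0
    obtain ⟨r, s, hrs⟩ := ex y hy0
    obtain ⟨t, ht, ht0⟩ := hC.prime _ _ (hx p q) (hy r s) hpq hrs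
    refine ⟨en q r t, ?_, ?_⟩
    · intro i j
      rw [en_apply]
      split_ifs
      · exact ht
      · exact hC.zero
    · intro h
      apply ht0
      have h1 : (x * en q r t * y) p s = x p q * t * y r s := by
        rw [CStarMatrix.mul_apply]
        simp only [mul_en]
        simp
      rw [← h1, h]; rfl
  · intro c hc
    have ex : ∃ p q, c p q ≠ 0 := by
      by_contra hcon
      push Not at hcon
      exact hc (by ext i j; rw [hcon i j]; rfl)
    obtain ⟨p, q, hpq⟩ := ex
    obtain ⟨d, hd, hd0⟩ := hC.ess _ hpq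
    refine ⟨en q q d, ?_, ?_⟩
    · intro i j
      rw [en_apply]
      split_ifs
      · exact hd
      · exact hC.zero
    · intro h
      apply hd0
      have h1 : (c * en q q d) p q = c p q * d := by
        rw [mul_en]; simp
      rw [← h1, h]; rfl
  · intro c hcD hc0 hcne
    obtain ⟨i, hi⟩ := diag_ne c hc0 hcne
    have hci : 0 ≤ c i i := diag_nonneg' c hc0 i
    set a : E := c i i with ha
    set d : ℝ := ‖a‖ / 2 with hd
    have hd0 : 0 < d := by
      have := norm_pos_iff.2 hi
      positivity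
    have hcutD : cut d a ∈ D := by
      rw [cut_mul d hd0 a hci]
      exact hC.mul_right _ _ (hcD i i)
    obtain ⟨x, hxD, M, hM, hx0, hxx, hx1, hx2⟩ :=
      hC.nil _ hcutD (cut_nonneg' d hd0 a hci) (cut_ne a hci hi)
    have f1 : cfc (fun t : ℝ => t / max t d) a * x = x := phi_fix d hd0 a x M hci hx2
    have f2 : cfc (fun t : ℝ => t / max t d) a * star x = star x :=
      phi_fix d hd0 a (star x) M hci (by rw [star_star]; exact hx1)
    obtain ⟨h, hh0, hhh⟩ := sqrt_ex c hc0
    have hhs : IsSelfAdjoint h := IsSelfAdjoint.of_nonneg hh0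
    have hGs : IsSelfAdjoint (cn i (gg d a) : MM N E) := (gg_sa d a).map (cn i : E →⋆ₙₐ[ℂ] MM N E)
    have hφ : (cn i (gg d a) : MM N E) * c * cn i (gg d a)
        = cn i (cfc (fun t : ℝ => t / max t d) a) := by
      rw [← gag d hd0 a hci]
      ext p q
      rw [cn_apply, cn_apply, en_apply, mul_en, en_mul']
      by_cases hp : i = p <;> by_cases hq : i = q <;> simp [hp, hq, ha]
    have g1 : (cn i (gg d a) : MM N E) * c * cn i (gg d a) * cn i x = cn i x := by
      rw [hφ, ← map_mul, f1]
    have g2 : (cn i (gg d a) : MM N E) * c * cn i (gg d a) * star (cn i x) = star (cn i x) := by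
      rw [hφ, ← map_star, ← map_mul, f2]
    have g3 : (cn i x : MM N E) * cn i x = 0 := by
      rw [← map_mul, hxx, map_zero]
    have g4 : (cn i x : MM N E) ≠ 0 := by
      intro h0
      apply hx0
      have h1 : (cn i x : MM N E) i i = (0 : MM N E) i i := by rw [h0]
      rw [cn_apply, en_apply] at h1
      simpa using h1
    obtain ⟨r1, r2, M', hM', r3, r4⟩ := transport h (cn i (gg d a)) (cn i x) c hhs hGs hhh g1 g2 g3 g4
    refine ⟨h * cn i (gg d a) * cn i x * (cn i (gg d a) * h), ?_, M', hM', r1, r2, r3, r4⟩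
    have hmem : ∀ p q, (cn i x : MM N E) p q ∈ D := by
      intro p q
      rw [cn_apply, en_apply]
      split_ifs
      · exact hxD
      · exact hC.zero
    have hl : ∀ y z : MM N E, (∀ p q, z p q ∈ D) → ∀ p q, (y * z) p q ∈ D := by
      intro y z hz p q
      rw [CStarMatrix.mul_apply]
      exact sum_mem' hC _ _ fun k _ => hC.mul_left _ _ (hz k q)
    have hr : ∀ y z : MM N E, (∀ p q, y p q ∈ D) → ∀ p q, (y * z) p q ∈ D := by
      intro y z hy p q
      rw [CStarMatrix.mul_apply]
      exact sum_mem' hC _ _ fun k _ => hC.mul_right _ _ (hy p k)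
    exact hr _ _ (hl _ _ hmem)

end Pool.Agent.H270R2.NU
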