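import Pool.Agent.H667R5.NX.NU.Defs
import Pool.Agent.H667R5.TW.Stubs

/-!
# Non-unital Toms-Winter, part I: tiny almost central matrix units and the iteration
-/

set_option autoImplicit false

namespace Pool.Agent.H270R2.NU

open Filter Topology Pool.Agent.H327R4.Pure Pool.Agent.H667R5.TW
open scoped CStarAlgebra ComplexOrder Matrix

universe u

/-- arbitrarily small positive elements of `D` -/
def StSMALLD : Prop := ∀ (E : Type u) [CStarAlgebra E] [PartialOrder E] [StarOrderedRing E]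
  (D : Set E), Core0 E D → ∀ N : ℕ, ∃ c : E, c ∈ D ∧ 0 ≤ c ∧ c ≠ 0 ∧
    ∀ T : TS E, (N : ℝ) * rk T.1 c ≤ 1

/-- TH1D: traces of positive elements of `D` are traces of almost projections in `D` of
controlled rank -/
def StTH1D : Prop := ∀ (E : Type u) [CStarAlgebra E] [PartialOrder E] [StarOrderedRing E]
  (D : Set E), Core E D → ∀ (h : E) (δ : ℝ), h ∈ D → 0 ≤ h → 0 < δ →
    ∃ (K : ℕ) (a : Fin K → E), (∀ j, a j ∈ D ∧ 0 ≤ a j ∧ a j ≤ 1) ∧ ∀ T : TS E,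
      |∑ j, tr T (a j) - tr T h| ≤ δ ∧ ∑ j, (tr T (a j) - tr T (a j * a j)) ≤ δ ∧
      ∑ j, rk T.1 (a j) ≤ tr T h

/-- RWD: strict comparison gives orthogonal rows below `c` -/
def StRWD : Prop := ∀ (E : Type u) [CStarAlgebra E] [PartialOrder E] [StarOrderedRing E]
  (D : Set E), Core0 E D → SCD E D → ∀ (n K : ℕ) (a : Fin K → E) (c : E) (ε : ℝ),
    (∀ j, a j ∈ D ∧ 0 ≤ a j) → c ∈ D → 0 ≤ c → c ≠ 0 → 0 < ε →
    (∀ T : TS E, NV D T → (n : ℝ) * ∑ j, rk T.1 (a j) < rk T.1 c) →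
    ∃ v z : Fin n → Fin K → E, (∀ i k, v i k = CFC.sqrt c * z i k) ∧
      ∀ i k j l, star (v i k) * v j l = if i = j ∧ k = l then cut ε (a k) else 0

/-- LOCD: small matrix units in hereditary subalgebras of `D` -/
def StLOCD : Prop := ∀ (E : Type u) [CStarAlgebra E] [PartialOrder E] [StarOrderedRing E]
  (D : Set E), Core E D → SCD E D → ∀ (n : ℕ) (c : E) (μ δ : ℝ), 1 ≤ n → c ∈ D → 0 ≤ c →
    c ≤ 1 → 0 < μ → μ ≤ 1 / 2 → 0 < δ → ∃ (u z : Fin n → E) (e : E), 0 ≤ e ∧ e ≤ 1 ∧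
      (∀ i j, star (u i) * u j = if i = j then e else 0) ∧ (∀ i, u i = CFC.sqrt c * z i) ∧
      ∀ T : TS E, |n * tr T e - μ * tr T c| ≤ δ ∧ tr T e - tr T (e * e) ≤ δ

/-- LOCG: small matrix units below an element `c` of `E`, seen through `g` in `D` -/
def LocG (E : Type u) [CStarAlgebra E] [PartialOrder E] [StarOrderedRing E] (D : Set E) : Prop :=
  ∀ (n : ℕ) (c g : E) (μ δ : ℝ), 1 ≤ n → 0 ≤ c → c ≤ 1 → g ∈ D → 0 ≤ g → g ≤ 1 →
    0 < μ → μ ≤ 1 / 2 → 0 < δ → ∃ (u z : Fin n → E) (e : E), 0 ≤ e ∧ e ≤ 1 ∧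
      (∀ i j, star (u i) * u j = if i = j then e else 0) ∧ (∀ i, u i = CFC.sqrt c * z i) ∧
      ∀ T : TS E, |n * tr T e - μ * tr T (CFC.sqrt c * (g * g) * CFC.sqrt c)| ≤ δ ∧
        tr T e - tr T (e * e) ≤ δ

def StLOCG : Prop := ∀ (E : Type u) [CStarAlgebra E] [PartialOrder E] [StarOrderedRing E]
  (D : Set E), Core E D → SCD E D → LocG E D

/-- approximate units: for finitely many `x` in `D` there is `g` in `D` with `x g ~ x` -/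
def StAUD : Prop := ∀ (E : Type u) [CStarAlgebra E] [PartialOrder E] [StarOrderedRing E]
  (D : Set E), Core0 E D → ∀ (X : Finset E) (ε : ℝ), (∀ x ∈ X, x ∈ D) → 0 < ε →
    ∃ g : E, g ∈ D ∧ 0 ≤ g ∧ g ≤ 1 ∧ ∀ x ∈ X, ‖x * (1 - g * g)‖ ≤ ε ∧ ‖(1 - g * g) * x‖ ≤ ε

/-- DEFICIT: the part of a block not seen by `g` -/
def StDEFI : Prop := ∀ (E : Type u) [CStarAlgebra E] [PartialOrder E] [StarOrderedRing E]
  (X : Finset E) (W : ℝ) (β : Blk E) (c g x : E) (ε : ℝ), 4 ≤ W → β.Valid X → 0 ≤ c → c ≤ 1 →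
    CFC.sqrt c * β.R W X * CFC.sqrt c ≤ c → 0 ≤ g → g ≤ 1 → x ∈ X → 0 ≤ ε →
    (∀ l, ‖x * β.b l * CFC.sqrt c * (1 - g * g)‖ ≤ ε) → ∀ T : TS E,
      ‖(β.y x).trace‖ * (tr T c - tr T (CFC.sqrt c * (g * g) * CFC.sqrt c)) ≤
        4 / √W * (β.N * tr T c) + 2 * β.N * ε

/-- BSTEPD: adding one block -/
def BStepD (E : Type u) [CStarAlgebra E] [PartialOrder E] [StarOrderedRing E] (D : Set E) :
    Prop := ∀ (n : ℕ) (X X' : Finset E) (W lam μ δ : ℝ)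
    (β : Blk E) (F : Fin n → Fin n → E), 1 ≤ n → (∀ x ∈ X', ‖x‖ ≤ 1 ∧ star x ∈ X') → 1 ∈ X' →
    (∀ x ∈ X, x ∈ X' ∧ star x * x ∈ X' ∧ x * star x ∈ X') → 4 ≤ W → (n : ℝ) ^ 2 ≤ W →
    0 < lam → lam ≤ 1 → 0 < μ → μ ≤ 1 / 2 → 0 < δ → β.Valid X' → IsCP F → dsum F ≤ 1 →
    ∃ s : Fin n → Fin n → E, IsCP s ∧ dsum F + dsum s ≤ 1 ∧ ∀ T : TS E,
      (∀ x ∈ X', x ∈ D → ∀ i j, ‖T.1.f (x * s i j) - (if i = j then
          ((μ / n : ℝ) : ℂ) * ((β.y x).trace * ((tr T (cc (β.R W X')) : ℝ) : ℂ)) else 0)‖ ≤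
        Cn n * (√lam + 1 / √W) * (μ * β.mass W X' T) + μ / lam * tr T (β.pen (dsum F)) + δ) ∧
      (∀ x ∈ X, ∀ i j, n2 T (x * (F i j + s i j) - (F i j + s i j) * x) ≤
        n2 T (x * F i j - F i j * x) + Cn n * (√lam + 1 / √W) * (μ * β.mass W X' T) + δ) ∧
      defect T (fun i j => F i j + s i j) ≤
        defect T F + Cn n * (√lam + 1 / √W) * (μ * β.mass W X' T) + δ ∧
      tr T (dsum s) ≤ 2 * (μ * β.mass W X' T) + δ

def StBSTEPD : Prop := ∀ (E : Type u) [CStarAlgebra E] [PartialOrder E] [StarOrderedRing E]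
  (D : Set E), Core0 E D → LocG E D → BStepD E D

/-- MULTID: all blocks -/
def MultiD (E : Type u) [CStarAlgebra E] [PartialOrder E] [StarOrderedRing E] (D : Set E) :
    Prop := ∀ (n : ℕ) (X X' : Finset E) (W lam m δ : ℝ)
    (M : ℕ) (w : Fin M → ℝ) (β : Fin M → Blk E), 1 ≤ n → (∀ x ∈ X', ‖x‖ ≤ 1 ∧ star x ∈ X') →
    1 ∈ X' → (∀ x ∈ X, x ∈ X' ∧ star x * x ∈ X' ∧ x * star x ∈ X') → 4 ≤ W →
    (n : ℝ) ^ 2 ≤ W → 0 < lam → lam ≤ 1 → 0 < m → m ≤ 1 / 2 → 0 < δ →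
    (∀ s, 0 ≤ w s ∧ w s ≤ 1 ∧ (β s).Valid X') →
    ∃ F : Fin n → Fin n → E, IsCP F ∧ dsum F ≤ 1 ∧ ∀ T : TS E,
      (∀ x ∈ X', x ∈ D → ∀ i j, ‖T.1.f (x * F i j) - (if i = j then ((m / n : ℝ) : ℂ) *
          ∑ s, ((w s : ℝ) : ℂ) * (((β s).y x).trace * ((tr T (cc ((β s).R W X')) : ℝ) : ℂ))
          else 0)‖ ≤ Cn n * (√lam + 1 / √W) * (m * ∑ s, w s * (β s).mass W X' T) +
            m / lam * ∑ s, w s * tr T ((β s).pen (dsum F)) + δ) ∧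
      (∀ x ∈ X, ∀ i j, n2 T (x * F i j - F i j * x) ≤
        Cn n * (√lam + 1 / √W) * (m * ∑ s, w s * (β s).mass W X' T) + δ) ∧
      defect T F ≤ Cn n * (√lam + 1 / √W) * (m * ∑ s, w s * (β s).mass W X' T) + δ ∧
      tr T (dsum F) ≤ 2 * (m * ∑ s, w s * (β s).mass W X' T) + δ

def StMULTID : Prop := ∀ (E : Type u) [CStarAlgebra E] [PartialOrder E] [StarOrderedRing E]
  (D : Set E), BStepD E D → MultiD E D

/-- TINYD -/
def StTINYD : Prop := ∀ (E : Type u) [CStarAlgebra E] [PartialOrder E] [StarOrderedRing E]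
  (D : Set E), MultiD E D → HasData E → ∀ n : ℕ, 1 ≤ n → TinyD E D n

/-- the weighted defect -/
noncomputable def wdef {E : Type u} [CStarAlgebra E] {n : ℕ} (T : TS E) (a : E)
    (P : Fin n → Fin n → E) : ℝ := ∑ i, ∑ j, tr T (a * (P j j - star (P i j) * P i j) * a)

/-- STEP1D: one step of the iteration, leftover and defect seen by `a` in `D` -/
def StSTEP1D : Prop := ∀ (E : Type u) [CStarAlgebra E] [PartialOrder E] [StarOrderedRing E]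
  (D : Set E) (n : ℕ), 1 ≤ n → Core0 E D → TinyD E D n → ∀ ε : ℝ, 0 < ε → ε ≤ 1 →
    ∃ m0 : ℝ, 0 < m0 ∧ ∀ m : ℝ, 0 < m → m ≤ m0 → ∀ (X : Finset E) (a : E),
    (∀ x ∈ X, ‖x‖ ≤ 1 ∧ x ∈ D) → a ∈ X → 0 ≤ a → a ≤ 1 → ∀ P : Fin n → Fin n → E, IsCP P →
    dsum P ≤ 1 → ∃ P' : Fin n → Fin n → E, IsCP P' ∧ dsum P' ≤ 1 ∧ ∀ T : TS E,
      tr T (a * (1 - dsum P') * a) ≤ (1 - m) * tr T (a * (1 - dsum P) * a) +
        m * (wdef T a P + n ^ 2 * √(comm T P a)) + ε * m ∧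
      wdef T a P' ≤ (1 + 2 * n * m) * wdef T a P + 10 * n ^ 3 * m * √(comm T P a) + ε * m ∧
      ∀ x ∈ X, comm T P' x ≤ (1 + 10 * (n : ℝ) ^ 2 * m) * comm T P x + ε * m

/-- uniformly McDuff in matrix form, seen by `a` in `D` -/
def UMcDD (E : Type u) [CStarAlgebra E] [PartialOrder E] [StarOrderedRing E] (D : Set E)
    (n : ℕ) : Prop :=
  ∀ (X : Finset E) (a : E) (ε : ℝ), (∀ x ∈ X, x ∈ D) → a ∈ D → 0 ≤ a → a ≤ 1 → 0 < ε →
    ∃ P : Fin n → Fin n → E, IsCP P ∧ dsum P ≤ 1 ∧ ∀ T : TS E,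
      tr T (a * (1 - dsum P) * a) ≤ ε ∧ wdef T a P ≤ ε ∧ comm T P a ≤ ε ∧
      ∀ x ∈ X, ∀ i j, n2 T (x * P i j - P i j * x) ≤ ε

/-- ITD: the iteration -/
def StITD : Prop := ∀ (E : Type u) [CStarAlgebra E] [PartialOrder E] [StarOrderedRing E]
  (D : Set E) (n : ℕ), 1 ≤ n → Core0 E D → TinyD E D n → UMcDD E D n

/-- UMD: one nilpotent -/
def StUMDD : Prop := ∀ (E : Type u) [CStarAlgebra E] [PartialOrder E] [StarOrderedRing E]
  (D : Set E), Core0 E D → UMcDD E D 2 → UMD E D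

theorem partI (h1 : StLOCG.{u}) (h2 : StBSTEPD.{u}) (h3 : StMULTID.{u}) (h4 : StTINYD.{u})
    (h5 : StITD.{u}) (h6 : StUMDD.{u}) : ∀ (E : Type u) [CStarAlgebra E] [PartialOrder E]
    [StarOrderedRing E] (D : Set E), Core E D → SCD E D → HasData E → UMD E D := by
  intro E _ _ _ D hC hS hH
  have hM := h3 E D (h2 E D hC.toCore0 (h1 E D hC hS))
  exact h6 E D hC.toCore0 (h5 E D 2 (by norm_num) hC.toCore0 (h4 E D hM hH 2 (by norm_num)))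

end Pool.Agent.H270R2.NU
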